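import Pool.Agent.Lib.MP_c6644d_al.Stmt

/-!
# Counting homomorphisms of a finitely presented group to `ℤ/2` by an algorithm

A finite presentation is a pair `P : ℕ × List Wd`: the number of generators and the list of
relators; letters with index `≥ P.1` are read as `1`.
-/

namespace Pool.Agent.Lib.MP_c6644d_al

/-- Value of the letter `i` under the assignment number `a`. -/
def bitv (a m i : ℕ) : Bool := decide (i < m) && decide (a / 2 ^ i % 2 = 1)

/-- Parity of a word under the assignment number `a`. -/
def par (a m : ℕ) (L : List (ℕ × Bool)) : Bool :=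
  L.foldr (fun l acc => xor acc (bitv a m l.1)) false

/-- All relators are satisfied by the assignment number `a`. -/
def okAll (a m : ℕ) (R : List (List (ℕ × Bool))) : Bool :=
  R.foldr (fun r acc => acc && !(par a m r)) true

/-- The number of homomorphisms to `ℤ/2`. -/
def homCount (P : ℕ × List (List (ℕ × Bool))) : ℕ :=
  Nat.rec (motive := fun _ => ℕ) 0 (fun a acc => acc + bif okAll a P.1 P.2 then 1 else 0)
    (2 ^ P.1)

theorem primrec_pow (c : ℕ) : Primrec (fun i : ℕ => c ^ i) := by
  have h0 : Primrec₂ (fun (_ : ℕ) (p : ℕ × ℕ) => c * p.2) :=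
    Primrec.nat_mul.comp (Primrec.const c) (Primrec.snd.comp Primrec.snd)
  have h : Primrec (fun i : ℕ => Nat.rec (motive := fun _ => ℕ) 1 (fun _ r => c * r) i) :=
    Primrec.nat_rec' Primrec.id (Primrec.const 1) h0
  refine h.of_eq fun i => ?_
  induction i with
  | zero => rfl
  | succ i ih =>
    show c * _ = _
    rw [ih, pow_succ, mul_comm]

theorem primrec_bitv : Primrec (fun q : (ℕ × ℕ) × ℕ => bitv q.1.1 q.1.2 q.2) := by
  have h1 : Primrec (fun q : (ℕ × ℕ) × ℕ => decide (q.2 < q.1.2)) :=
    (Primrec.nat_lt.comp Primrec.snd (Primrec.snd.comp Primrec.fst)).decide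
  have h2 : Primrec (fun q : (ℕ × ℕ) × ℕ => q.1.1 / 2 ^ q.2 % 2) :=
    Primrec.nat_mod.comp (Primrec.nat_div.comp (Primrec.fst.comp Primrec.fst)
      ((primrec_pow 2).comp Primrec.snd)) (Primrec.const 2)
  have h3 : Primrec (fun q : (ℕ × ℕ) × ℕ => decide (q.1.1 / 2 ^ q.2 % 2 = 1)) :=
    (Primrec.eq.comp h2 (Primrec.const 1)).decide
  exact Primrec.and.comp h1 h3

theorem primrec_par :
    Primrec (fun q : (ℕ × ℕ) × List (ℕ × Bool) => par q.1.1 q.1.2 q.2) := by
  have h : Primrec₂ (fun (q : (ℕ × ℕ) × List (ℕ × Bool)) (p : (ℕ × Bool) × Bool) =>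
      xor p.2 (bitv q.1.1 q.1.2 p.1.1)) := by
    refine (Primrec.dom_bool₂ xor).comp (Primrec.snd.comp Primrec.snd) ?_
    exact primrec_bitv.comp (Primrec.pair (Primrec.fst.comp Primrec.fst)
      (Primrec.fst.comp (Primrec.fst.comp Primrec.snd)))
  exact Primrec.list_foldr Primrec.snd (Primrec.const false) h

theorem primrec_okAll :
    Primrec (fun q : (ℕ × ℕ) × List (List (ℕ × Bool)) => okAll q.1.1 q.1.2 q.2) := by
  have h : Primrec₂ (fun (q : (ℕ × ℕ) × List (List (ℕ × Bool)))
      (p : (List (ℕ × Bool)) × Bool) => p.2 && !(par q.1.1 q.1.2 p.1)) := by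
    refine Primrec.and.comp (Primrec.snd.comp Primrec.snd) (Primrec.not.comp ?_)
    exact primrec_par.comp (Primrec.pair (Primrec.fst.comp Primrec.fst)
      (Primrec.fst.comp Primrec.snd))
  exact Primrec.list_foldr Primrec.snd (Primrec.const true) h

theorem primrec_homCount : Primrec homCount := by
  have h : Primrec₂ (fun (P : ℕ × List (List (ℕ × Bool))) (p : ℕ × ℕ) =>
      p.2 + bif okAll p.1 P.1 P.2 then 1 else 0) := by
    refine Primrec.nat_add.comp (Primrec.snd.comp Primrec.snd) ?_
    refine Primrec.cond ?_ (Primrec.const 1) (Primrec.const 0)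
    exact primrec_okAll.comp (Primrec.pair (Primrec.pair (Primrec.fst.comp Primrec.snd)
      (Primrec.fst.comp Primrec.fst)) (Primrec.snd.comp Primrec.fst))
  exact Primrec.nat_rec' ((primrec_pow 2).comp Primrec.fst) (Primrec.const 0) h

theorem homCount_eq (P : ℕ × List (List (ℕ × Bool))) :
    homCount P = ((Finset.range (2 ^ P.1)).filter (fun a => okAll a P.1 P.2 = true)).card := by
  have key : ∀ N : ℕ, Nat.rec (motive := fun _ => ℕ) 0
      (fun a acc => acc + bif okAll a P.1 P.2 then 1 else 0) N =
      ((Finset.range N).filter (fun a => okAll a P.1 P.2 = true)).card := by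
    intro N
    induction N with
    | zero => simp
    | succ N ih =>
      rw [Finset.range_add_one, Finset.filter_insert]
      show Nat.rec (motive := fun _ => ℕ) 0
        (fun a acc => acc + bif okAll a P.1 P.2 then 1 else 0) N +
        (bif okAll N P.1 P.2 then 1 else 0) = _
      rw [ih]
      rcases h : okAll N P.1 P.2 with _ | _
      · simp
      · simp
  exact key _

/-- The group `ℤ/2`. -/
abbrev Z2 : Type := Multiplicative (ZMod 2)

/-- The nontrivial element or the trivial one. -/
def bz (b : Bool) : Z2 := if b then Multiplicative.ofAdd 1 else 1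

theorem bz_injective : Function.Injective bz := by decide

theorem bz_surj (z : Z2) : ∃ b, bz b = z := by
  revert z; decide

theorem bz_xor (b c : Bool) : bz (xor b c) = bz b * bz c := by
  revert b c; decide

theorem bz_inv (b : Bool) : (bz b)⁻¹ = bz b := by
  revert b; decide

/-- Values of words under a homomorphism to `ℤ/2`. -/
theorem map_evL_bz {m : ℕ} (ψ : FreeGroup (Fin m) →* Z2) (f : ℕ → Bool)
    (hf : ∀ i : Fin m, ψ (FreeGroup.of i) = bz (f i)) (hf0 : ∀ i, m ≤ i → f i = false) (w : Wd) :
    ψ (evL (genL m) w) = bz (w.foldr (fun l acc => xor acc (f l.1)) false) := by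
  have hg : ∀ i, ψ (genL m i) = bz (f i) := by
    intro i
    by_cases hi : i < m
    · rw [genL, dif_pos hi, hf]
    · rw [genL, dif_neg hi, map_one, hf0 i (by omega)]; rfl
  induction w with
  | nil => simp [evL]; rfl
  | cons l w ih =>
    have h1 : evL (genL m) (l :: w) =
        (if l.2 then genL m l.1 else (genL m l.1)⁻¹) * evL (genL m) w := by
      simp [evL]
    rw [h1, map_mul, ih, List.foldr_cons, bz_xor, mul_comm]
    congr 1
    rcases l with ⟨i, _ | _⟩
    · simp [bz_inv, hg]
    · simp [hg]

theorem bitv_of_lt {a m i : ℕ} (h : i < m) : bitv a m i = Nat.testBit a i := by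
  simp [bitv, h, Nat.testBit_eq_decide_div_mod_eq]

theorem bitv_of_ge {a m i : ℕ} (h : m ≤ i) : bitv a m i = false := by
  simp [bitv, Nat.not_lt.2 h]

theorem okAll_iff (a m : ℕ) (R : List (List (ℕ × Bool))) :
    okAll a m R = true ↔ ∀ r ∈ R, par a m r = false := by
  induction R with
  | nil => simp [okAll]
  | cons r R ih =>
    have : okAll a m (r :: R) = (okAll a m R && !(par a m r)) := rfl
    rw [this, Bool.and_eq_true, ih]
    simp only [Bool.not_eq_true', List.forall_mem_cons]
    tauto

/-- The number of homomorphisms from a finitely presented group to `ℤ/2` is computed by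
`homCount`. -/
theorem homCount_eq_card (P : ℕ × List Wd) :
    homCount P = Nat.card (PresentedGroup (relators P.1 P.2) →* Z2) := by
  rw [homCount_eq]
  have hT : ((Finset.range (2 ^ P.1)).filter (fun a => okAll a P.1 P.2 = true)).card =
      Nat.card {a : ℕ // a ∈ (Finset.range (2 ^ P.1)).filter (fun a => okAll a P.1 P.2 = true)} := by
    rw [Nat.card_eq_fintype_card, Fintype.card_coe]
  rw [hT]
  let T := {a : ℕ // a ∈ (Finset.range (2 ^ P.1)).filter (fun a => okAll a P.1 P.2 = true)}
  have hrel : ∀ a : T, ∀ w ∈ relators P.1 P.2,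
      FreeGroup.lift (fun i : Fin P.1 => bz (bitv a.1 P.1 i)) w = 1 := by
    rintro ⟨a, ha⟩ w ⟨r, hr, rfl⟩
    rw [Finset.mem_filter] at ha
    rw [map_evL_bz _ (fun i => bitv a P.1 i) (fun i => by simp) (fun i hi => bitv_of_ge hi)]
    have := (okAll_iff a P.1 P.2).1 ha.2 r hr
    rw [par] at this
    rw [this]; rfl
  let Φ : T → (PresentedGroup (relators P.1 P.2) →* Z2) := fun a =>
    PresentedGroup.toGroup (hrel a)
  refine Nat.card_congr (Equiv.ofBijective Φ ⟨?_, ?_⟩)
  · intro x y hab
    have ha := Finset.mem_filter.1 x.2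
    have hb := Finset.mem_filter.1 y.2
    rw [Finset.mem_range] at ha hb
    apply Subtype.ext
    apply Nat.eq_of_testBit_eq
    intro i
    by_cases hi : i < P.1
    · have h1 : Φ x (PresentedGroup.of ⟨i, hi⟩) = Φ y (PresentedGroup.of ⟨i, hi⟩) := by rw [hab]
      simp only [Φ, PresentedGroup.toGroup.of] at h1
      have h2 := bz_injective h1
      rwa [bitv_of_lt hi, bitv_of_lt hi] at h2
    · rw [Nat.testBit_lt_two_pow, Nat.testBit_lt_two_pow]
      · exact lt_of_lt_of_le hb.1 (Nat.pow_le_pow_right (by norm_num) (by omega))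
      · exact lt_of_lt_of_le ha.1 (Nat.pow_le_pow_right (by norm_num) (by omega))
  · intro ψ
    have hf : ∀ i : Fin P.1, ∃ b, bz b = ψ (PresentedGroup.of i) := fun i => bz_surj _
    choose f hf using hf
    let a : ℕ := Nat.ofBits f
    have ha : ∀ i : Fin P.1, bitv a P.1 i = f i := by
      intro i
      rw [bitv_of_lt i.2, Nat.testBit_ofBits_lt _ _ i.2]
    have hψ : ∀ r ∈ P.2, ψ (PresentedGroup.mk (relators P.1 P.2) (evL (genL P.1) r)) =
        bz (par a P.1 r) := by
      intro r _
      have := map_evL_bz (ψ.comp (PresentedGroup.mk (relators P.1 P.2)))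
        (fun i => bitv a P.1 i) (fun i => by rw [ha, hf]; rfl) (fun i hi => bitv_of_ge hi) r
      exact this
    have hmem : a ∈ (Finset.range (2 ^ P.1)).filter (fun a => okAll a P.1 P.2 = true) := by
      rw [Finset.mem_filter, Finset.mem_range]
      refine ⟨Nat.ofBits_lt_two_pow _, ?_⟩
      rw [okAll_iff]
      intro r hr
      have h1 : (PresentedGroup.mk (relators P.1 P.2) (evL (genL P.1) r)) = 1 :=
        PresentedGroup.one_of_mem ⟨r, hr, rfl⟩
      have h2 := hψ r hr
      rw [h1, map_one] at h2
      exact bz_injective h2.symm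
    refine ⟨⟨a, hmem⟩, ?_⟩
    apply PresentedGroup.ext
    intro i
    simp only [Φ, PresentedGroup.toGroup.of, ha, hf]

/-- **(A1)** -/
theorem exists_homCount : ∃ c : ℕ × List Wd → ℕ, Computable c ∧
    ∀ P, c P = Nat.card (PresentedGroup (relators P.1 P.2) →* Multiplicative (ZMod 2)) :=
  ⟨homCount, primrec_homCount.to_comp, homCount_eq_card⟩

end Pool.Agent.Lib.MP_c6644d_al
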