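import Mathlib

/-!
MP_c6644d_al, group level (helper50): the free-by-cyclic groups
`K = F₂ ⋊ ℤ`, `t x t⁻¹ = x`, `t y t⁻¹ = y x`, and `G = F₃ ⋊ ℤ`, in addition `t z t⁻¹ = y⁻¹ z`.
-/

set_option autoImplicit false

open FreeGroup (of)

namespace FBC

/-! ### general semidirect products with `ℤ` -/

/-- `N ⋊ ℤ`, the generator of `ℤ` acts as `α` -/
abbrev ZP {N : Type} [Group N] (α : MulAut N) : Type :=
  N ⋊[zpowersHom (MulAut N) α] Multiplicative ℤ

variable {N P : Type} [Group N] [Group P]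

/-- the stable letter -/
def tt (α : MulAut N) : ZP α := SemidirectProduct.inr (Multiplicative.ofAdd (1 : ℤ))

theorem tt_conj (α : MulAut N) (n : N) :
    tt α * SemidirectProduct.inl n * (tt α)⁻¹ = (SemidirectProduct.inl (α n) : ZP α) := by
  have := SemidirectProduct.inl_aut (φ := zpowersHom (MulAut N) α) (Multiplicative.ofAdd (1 : ℤ)) n
  rw [tt, ← map_inv, ← this]
  simp

theorem tt_mul (α : MulAut N) (n : N) :
    tt α * SemidirectProduct.inl n = (SemidirectProduct.inl (α n) : ZP α) * tt α := by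
  rw [← tt_conj, inv_mul_cancel_right]

/-- homomorphisms out of `N ⋊ ℤ` -/
theorem exists_zlift (α : MulAut N) (f : N →* P) (T : P) (h : ∀ n, T * f n * T⁻¹ = f (α n)) :
    ∃ F : ZP α →* P, (∀ n, F (SemidirectProduct.inl n) = f n) ∧ F (tt α) = T := by
  have hz : ∀ (k : ℤ) (n : N), T ^ k * f n * (T ^ k)⁻¹ = f ((α ^ k) n) := by
    intro k
    induction k using Int.induction_on with
    | zero => intro n; simp
    | succ k ih =>
      intro n
      have e1 : T ^ ((k : ℤ) + 1) = T ^ (k : ℤ) * T := zpow_add_one T k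
      have e2 : α ^ ((k : ℤ) + 1) = α ^ (k : ℤ) * α := zpow_add_one α k
      rw [e1, e2, MulAut.mul_apply, ← ih (α n), ← h n]
      group
    | pred k ih =>
      intro n
      have e1 : T ^ (-(k : ℤ) - 1) = T ^ (-(k : ℤ)) * T⁻¹ := zpow_sub_one T (-k)
      have e2 : α ^ (-(k : ℤ) - 1) = α ^ (-(k : ℤ)) * α⁻¹ := zpow_sub_one α (-k)
      have e3 : T⁻¹ * f n * T = f (α⁻¹ n) := by
        have := h (α⁻¹ n)
        rw [MulAut.apply_inv_self] at this
        rw [← this]
        group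
      rw [e1, e2, MulAut.mul_apply, ← ih (α⁻¹ n), ← e3]
      group
  refine ⟨SemidirectProduct.lift f (zpowersHom P T) ?_, ?_, ?_⟩
  · intro g
    ext n
    have := hz (Multiplicative.toAdd g) n
    exact this.symm
  · intro n
    exact SemidirectProduct.lift_inl _ _ _ n
  · rw [tt, SemidirectProduct.lift_inr]
    simp

theorem ZP_ext {α : MulAut N} {f g : ZP α →* P}
    (h1 : ∀ n, f (SemidirectProduct.inl n) = g (SemidirectProduct.inl n))
    (h2 : f (tt α) = g (tt α)) : f = g := by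
  apply SemidirectProduct.hom_ext
  · ext n
    exact h1 n
  · apply MonoidHom.ext_mint
    exact h2

/-! ### the automorphisms -/

/-- `x ↦ x`, `y ↦ y x` -/
def a2 : MulAut (FreeGroup (Fin 2)) :=
  MonoidHom.toMulEquiv (FreeGroup.lift ![of 0, of 1 * of 0]) (FreeGroup.lift ![of 0, of 1 * (of 0)⁻¹])
    (by ext i; fin_cases i <;> simp) (by ext i; fin_cases i <;> simp)

/-- `x ↦ x`, `y ↦ y x`, `z ↦ y⁻¹ z` -/
def a3 : MulAut (FreeGroup (Fin 3)) :=
  MonoidHom.toMulEquiv (FreeGroup.lift ![of 0, of 1 * of 0, (of 1)⁻¹ * of 2])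
    (FreeGroup.lift ![of 0, of 1 * (of 0)⁻¹, of 1 * (of 0)⁻¹ * of 2])
    (by ext i; fin_cases i <;> simp [mul_assoc]) (by ext i; fin_cases i <;> simp [mul_assoc])

theorem a2_0 : a2 (of 0) = of 0 := by simp [a2]
theorem a2_1 : a2 (of 1) = of 1 * of 0 := by simp [a2]
theorem a3_0 : a3 (of 0) = of 0 := by simp [a3]
theorem a3_1 : a3 (of 1) = of 1 * of 0 := by simp [a3]
theorem a3_2 : a3 (of 2) = (of 1)⁻¹ * of 2 := by simp [a3]

/-- `K = F₂ ⋊ ℤ` -/
abbrev GK : Type := ZP a2

/-- `G = F₃ ⋊ ℤ` -/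
abbrev GG : Type := ZP a3

/-- generators of `K` -/
def kx : GK := SemidirectProduct.inl (of 0)
def ky : GK := SemidirectProduct.inl (of 1)
def kt : GK := tt a2
def kc : GK := ky * kt

/-- generators of `G` -/
def gx : GG := SemidirectProduct.inl (of 0)
def gy : GG := SemidirectProduct.inl (of 1)
def gz : GG := SemidirectProduct.inl (of 2)
def gt : GG := tt a3
def gc : GG := gy * gt

theorem kt_kx : kt * kx = kx * kt := by
  rw [kt, kx, tt_mul, a2_0]

theorem kt_ky : kt * ky = ky * kx * kt := by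
  rw [kt, kx, ky, tt_mul, a2_1, map_mul]

theorem kt_kc : kt * kc = kc * (kx * kt) := by
  rw [kc, ← mul_assoc, kt_ky, ← mul_assoc (ky * kt) kx kt, mul_assoc ky kt kx, kt_kx]
  simp only [mul_assoc]

theorem gt_gx : gt * gx = gx * gt := by
  rw [gt, gx, tt_mul, a3_0]

theorem gt_gy : gt * gy = gy * gx * gt := by
  rw [gt, gx, gy, tt_mul, a3_1, map_mul]

theorem gt_gz : gt * gz = gy⁻¹ * gz * gt := by
  rw [gt, gy, gz, tt_mul, a3_2, map_mul, map_inv]

theorem gc_gz : gc * gz = gz * gt := by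
  rw [gc, mul_assoc, gt_gz, ← mul_assoc, ← mul_assoc, mul_inv_cancel, one_mul]

/-- `u = z x z⁻¹` commutes with `c` -/
def gu : GG := gz * gx * gz⁻¹

theorem gc_gu : gc * gu = gu * gc := by
  have h1 : gc = gz * gt * gz⁻¹ := by rw [← gc_gz, mul_inv_cancel_right]
  have h2 : gz * gt * gz⁻¹ * (gz * gx * gz⁻¹) = gz * (gt * gx) * gz⁻¹ := by group
  have h3 : gz * gx * gz⁻¹ * (gz * gt * gz⁻¹) = gz * (gx * gt) * gz⁻¹ := by group
  rw [h1, gu, h2, h3, gt_gx]

/-! ### homomorphisms out of `K` and `G` -/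

theorem exists_Khom (X Y T : P) (h0 : T * X = X * T) (h1 : T * Y = Y * X * T) :
    ∃ F : GK →* P, F kx = X ∧ F ky = Y ∧ F kt = T := by
  obtain ⟨F, h2, h3⟩ := exists_zlift a2 (FreeGroup.lift ![X, Y]) T (by
    intro n
    have : ((MulAut.conj T).toMonoidHom.comp (FreeGroup.lift ![X, Y])) =
        (FreeGroup.lift ![X, Y]).comp a2.toMonoidHom := by
      ext i
      fin_cases i
      · simp [a2_0, h0]
      · simp [a2_1, h1]
    exact DFunLike.congr_fun this n)
  refine ⟨F, ?_, ?_, h3⟩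
  · rw [kx, h2]; simp
  · rw [ky, h2]; simp

theorem exists_Ghom (X Y Z T : P) (h0 : T * X = X * T) (h1 : T * Y = Y * X * T)
    (h2 : T * Z = Y⁻¹ * Z * T) :
    ∃ F : GG →* P, F gx = X ∧ F gy = Y ∧ F gz = Z ∧ F gt = T := by
  obtain ⟨F, h3, h4⟩ := exists_zlift a3 (FreeGroup.lift ![X, Y, Z]) T (by
    intro n
    have : ((MulAut.conj T).toMonoidHom.comp (FreeGroup.lift ![X, Y, Z])) =
        (FreeGroup.lift ![X, Y, Z]).comp a3.toMonoidHom := by
      ext i
      fin_cases i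
      · simp [a3_0, h0]
      · simp [a3_1, h1]
      · simp [a3_2, h2]
    exact DFunLike.congr_fun this n)
  refine ⟨F, ?_, ?_, ?_, h4⟩
  · rw [gx, h3]; simp
  · rw [gy, h3]; simp
  · rw [gz, h3]; simp

theorem Khom_ext {f g : GK →* P} (h0 : f kx = g kx) (h1 : f ky = g ky) (h2 : f kt = g kt) :
    f = g := by
  apply ZP_ext
  · intro n
    have : f.comp SemidirectProduct.inl = g.comp SemidirectProduct.inl := by
      ext i
      fin_cases i
      · exact h0
      · exact h1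
    exact DFunLike.congr_fun this n
  · exact h2

end FBC
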