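import Pool.Agent.Lib.MP_c6644d_al.Stmt
import Pool.Agent.Lib.MP_c6644d_al.GDefs

/-!
MP_c6644d_al: the literal question follows from the abstract version for one group.
-/

set_option autoImplicit false

namespace Pool.Agent.Lib.MP_c6644d_al

/-- a finite presentation gives an isomorphism with a presented group -/
theorem IsPresentation.iso {Γ : Type} [Group Γ] {T : List Γ} {R : List Wd} {H : Subgroup Γ}
    (h : IsPresentation T R H) : Nonempty (PresentedGroup (relators T.length R) ≃* H) := by
  obtain ⟨h1, h2⟩ := h
  have h3 : (FreeGroup.lift T.get).range = H := by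
    rw [← h1, FreeGroup.range_lift_eq_closure]
    congr 1
    ext s
    simp only [Set.mem_range, Set.mem_setOf_eq, List.mem_iff_get]
  have e1 : PresentedGroup (relators T.length R) ≃*
      FreeGroup (Fin T.length) ⧸ (FreeGroup.lift T.get).ker :=
    QuotientGroup.quotientMulEquivOfEq h2.symm
  have e2 := QuotientGroup.quotientKerEquivRange (FreeGroup.lift T.get)
  exact ⟨(e1.trans e2).trans (MulEquiv.subgroupCongr h3)⟩

/-- words for the automorphism `x ↦ x`, `y ↦ y x`, `z ↦ y⁻¹ z` -/
def Φ3 : List Wd := [[(1, true)], [(2, true), (1, true)], [(2, false), (3, true)]]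

theorem describes_Φ3 : Describes Φ3 FBC.a3 := by
  refine ⟨by unfold Φ3; decide, rfl, ?_⟩
  intro i
  fin_cases i
  · simp [Φ3, evL, xL, FBC.a3_0]
  · simp [Φ3, evL, xL, FBC.a3_1]
  · simp [Φ3, evL, xL, FBC.a3_2]

/-- there is no algorithm which, for one fixed group, finds the isomorphism type (as a finite
presentation) of the subgroup generated by given words -/
def NoAbstract {n : ℕ} (φ : MulAut (FreeGroup (Fin n))) : Prop :=
  ¬ ∃ F : List Wd →. ℕ × List Wd, Partrec F ∧
    ∀ S : List Wd, Valid n S →
      ∃ o ∈ F S, Nonempty (PresentedGroup (relators o.1 o.2) ≃* sub φ S)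

theorem literal_of_abstract (h : NoAbstract FBC.a3) :
    ¬ ∃ f : ℕ × List Wd × List Wd →. List Wd × List Wd, Partrec f ∧ Solves f := by
  rintro ⟨f, hf, hs⟩
  apply h
  refine ⟨fun S => (f (3, Φ3, S)).map fun o => (o.1.length, o.2), ?_, ?_⟩
  · have h1 : Partrec fun S : List Wd => f (3, Φ3, S) :=
      hf.comp ((Computable.const 3).pair ((Computable.const Φ3).pair Computable.id))
    have h2 : Computable₂ fun (_ : List Wd) (o : List Wd × List Wd) => (o.1.length, o.2) :=
      ((Computable.list_length.comp (Computable.fst.comp Computable.snd)).pair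
        (Computable.snd.comp Computable.snd)).to₂
    exact h1.map h2
  · intro S hS
    obtain ⟨o, ho, h2⟩ := hs 3 (by norm_num) FBC.a3 Φ3 S describes_Φ3 hS
    have h3 := h2.iso
    rw [List.length_map] at h3
    exact ⟨(o.1.length, o.2), Part.mem_map _ ho, h3⟩

end Pool.Agent.Lib.MP_c6644d_al
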