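import Pool.Agent.Lib.MP_c6644d_al.Alg1
import Pool.Agent.Lib.MP_c6644d_al.Literal

/-!
# The algorithm layer: from an undecidable family of subgroups to `NoAbstract`
-/

namespace Pool.Agent.Lib.MP_c6644d_al

/-- The test words: fixed words and one word with two blocks of `t`. -/
def testWords (S0 : List Wd) (w1 w2 w3 : Wd) (m : ℕ) : List Wd :=
  S0 ++ [w1 ++ List.replicate (3 ^ (2 * m)) (0, true) ++ w2 ++
    List.replicate (3 ^ (2 * m)) (0, false) ++ w3]

theorem primrec_replicate {α : Type*} [Primcodable α] (a : α) {f : ℕ → ℕ} (hf : Primrec f) :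
    Primrec fun m => List.replicate (f m) a := by
  have h0 : Primrec₂ (fun (_ : ℕ) (p : ℕ × List α) => a :: p.2) :=
    Primrec.list_cons.comp (Primrec.const a) (Primrec.snd.comp Primrec.snd)
  have h := Primrec.nat_rec' hf (Primrec.const ([] : List α)) h0
  refine h.of_eq fun m => ?_
  induction f m with
  | zero => rfl
  | succ n ih =>
    rw [List.replicate_succ, ← ih]

theorem primrec_testWords (S0 : List Wd) (w1 w2 w3 : Wd) : Primrec (testWords S0 w1 w2 w3) := by
  have hp : Primrec (fun m : ℕ => 3 ^ (2 * m)) :=
    (primrec_pow 3).comp (Primrec.nat_mul.comp (Primrec.const 2) Primrec.id)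
  have h1 := primrec_replicate ((0, true) : ℕ × Bool) hp
  have h2 := primrec_replicate ((0, false) : ℕ × Bool) hp
  have h3 : Primrec (fun m : ℕ => w1 ++ List.replicate (3 ^ (2 * m)) ((0, true) : ℕ × Bool) ++ w2 ++
      List.replicate (3 ^ (2 * m)) ((0, false) : ℕ × Bool) ++ w3) :=
    Primrec.list_append.comp (Primrec.list_append.comp (Primrec.list_append.comp
      (Primrec.list_append.comp (Primrec.const w1) h1) (Primrec.const w2)) h2) (Primrec.const w3)
  exact Primrec.list_append.comp (Primrec.const S0)
    (Primrec.list_cons.comp h3 (Primrec.const []))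

/-- Isomorphic groups have the same number of homomorphisms to `ℤ/2`. -/
theorem card_hom_congr {A B : Type*} [Group A] [Group B] (e : A ≃* B) :
    Nat.card (A →* Z2) = Nat.card (B →* Z2) :=
  Nat.card_congr
    { toFun := fun f => f.comp e.symm.toMonoidHom
      invFun := fun f => f.comp e.toMonoidHom
      left_inv := fun f => by ext x; simp
      right_inv := fun f => by ext x; simp }

/-- **(A3)** If the number of homomorphisms to `ℤ/2` of the subgroups generated by the test words
decides a non computable predicate, then there is no algorithm which finds presentations. -/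
theorem noAbstract_of_card (S0 : List Wd) (w1 w2 w3 : Wd)
    (hv : ∀ m, Valid 3 (testWords S0 w1 w2 w3 m)) (R : ℕ → Prop)
    (hR : ¬ ComputablePred R) (N0 : ℕ) (hN0 : 0 < N0)
    (h1 : ∀ m, R m → Nat.card (sub FBC.a3 (testWords S0 w1 w2 w3 m) →*
      Multiplicative (ZMod 2)) ≤ 2 * N0)
    (h2 : ∀ m, ¬ R m → Nat.card (sub FBC.a3 (testWords S0 w1 w2 w3 m) →*
      Multiplicative (ZMod 2)) = 4 * N0) : NoAbstract FBC.a3 := by
  rintro ⟨F, hF, hs⟩
  apply hR
  choose G hG1 hG2 using fun m => hs (testWords S0 w1 w2 w3 m) (hv m)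
  have hGc : Computable G := by
    have h : Partrec fun m => F (testWords S0 w1 w2 w3 m) :=
      hF.comp (primrec_testWords S0 w1 w2 w3).to_comp
    exact h.of_eq fun m => Part.eq_some_iff.2 (hG1 m)
  let c : ℕ → ℕ := fun m => homCount (G m)
  have hc : Computable c := primrec_homCount.to_comp.comp hGc
  have hcard : ∀ m, c m = Nat.card (sub FBC.a3 (testWords S0 w1 w2 w3 m) →*
      Multiplicative (ZMod 2)) := by
    intro m
    obtain ⟨e⟩ := hG2 m
    show homCount _ = _
    rw [homCount_eq_card]
    exact card_hom_congr e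
  have hiff : ∀ m, c m ≤ 2 * N0 ↔ R m := by
    intro m
    constructor
    · intro h
      by_contra hn
      have := h2 m hn
      rw [← hcard] at this
      omega
    · intro h
      rw [hcard]
      exact h1 m h
  have hle : Computable (fun m => decide (c m ≤ 2 * N0)) :=
    (Primrec.nat_le.decide.to_comp).comp hc (Computable.const (2 * N0))
  have hp : ComputablePred (fun m => c m ≤ 2 * N0) := ⟨inferInstance, hle⟩
  exact hp.of_eq hiff

end Pool.Agent.Lib.MP_c6644d_al
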