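import Pool.Agent.Lib.MP_c6644d_al.Alg1

/-!
# The algorithm layer for partial algorithms
-/

namespace Pool.Agent.Lib.MP_c6644d_al

/-- A partial recursive function which halts on a computable sequence of inputs gives a
computable sequence of outputs. -/
theorem exists_total {α β : Type*} [Primcodable α] [Primcodable β] {F : α →. β} (hF : Partrec F)
    {S : ℕ → α} (hS : Computable S) {Q : ℕ → β → Prop} (hd : ∀ m, ∃ o ∈ F (S m), Q m o) :
    ∃ G : ℕ → β, Computable G ∧ ∀ m, Q m (G m) := by
  choose G hG hQ using hd
  refine ⟨G, ?_, hQ⟩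
  have h1 : Partrec fun m => F (S m) := hF.comp hS
  have h2 : Partrec fun m => (Part.some (G m) : Part β) :=
    h1.of_eq fun m => Part.eq_some_iff.2 (hG m)
  exact h2

/-- `List.replicate` of a fixed element. -/
theorem primrec_replicate' {α : Type*} [Primcodable α] (a : α) {f : ℕ → ℕ} (hf : Primrec f) :
    Primrec fun m => List.replicate (f m) a := by
  have h0 : Primrec₂ (fun (_ : ℕ) (p : ℕ × List α) => a :: p.2) :=
    Primrec.list_cons.comp (Primrec.const a) (Primrec.snd.comp Primrec.snd)
  have h := Primrec.nat_rec' hf (Primrec.const ([] : List α)) h0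
  refine h.of_eq fun m => ?_
  induction f m with
  | zero => rfl
  | succ n ih =>
    rw [List.replicate_succ, ← ih]

/-- **(A2)** computability of the test words, for an arbitrary alphabet. -/
theorem computable_words {α : Type*} [Primcodable α] (S0 : List (List α)) (w1 w2 w3 : List α)
    (a b : α) : Computable fun m : ℕ => S0 ++ [w1 ++ List.replicate (3 ^ (2 * m)) a ++ w2 ++
      List.replicate (3 ^ (2 * m)) b ++ w3] := by
  have hp : Primrec (fun m : ℕ => 3 ^ (2 * m)) :=
    (primrec_pow 3).comp (Primrec.nat_mul.comp (Primrec.const 2) Primrec.id)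
  have h1 := primrec_replicate' a hp
  have h2 := primrec_replicate' b hp
  have h3 : Primrec (fun m : ℕ => w1 ++ List.replicate (3 ^ (2 * m)) a ++ w2 ++
      List.replicate (3 ^ (2 * m)) b ++ w3) :=
    Primrec.list_append.comp (Primrec.list_append.comp (Primrec.list_append.comp
      (Primrec.list_append.comp (Primrec.const w1) h1) (Primrec.const w2)) h2) (Primrec.const w3)
  exact (Primrec.list_append.comp (Primrec.const S0)
    (Primrec.list_cons.comp h3 (Primrec.const []))).to_comp

/-- **(A3)** -/
theorem alg_contradiction (R : ℕ → Prop) (hR : ¬ ComputablePred R) (G : ℕ → ℕ × List Wd)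
    (hG : Computable G) (N0 : ℕ) (hN0 : 0 < N0)
    (h1 : ∀ m, R m → Nat.card (PresentedGroup (relators (G m).1 (G m).2) →*
      Multiplicative (ZMod 2)) ≤ 2 * N0)
    (h2 : ∀ m, ¬ R m → Nat.card (PresentedGroup (relators (G m).1 (G m).2) →*
      Multiplicative (ZMod 2)) = 4 * N0) : False := by
  apply hR
  let c : ℕ → ℕ := fun m => homCount (G m)
  have hc : Computable c := primrec_homCount.to_comp.comp hG
  have hcard : ∀ m, c m = Nat.card (PresentedGroup (relators (G m).1 (G m).2) →*
      Multiplicative (ZMod 2)) := fun m => homCount_eq_card (G m)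
  have hiff : ∀ m, c m ≤ 2 * N0 ↔ R m := by
    intro m
    constructor
    · intro h
      by_contra hn
      have := h2 m hn
      rw [← hcard] at this
      omega
    · intro h
      rw [hcard]
      exact h1 m h
  have hle : Computable (fun m => decide (c m ≤ 2 * N0)) :=
    (Primrec.nat_le.decide.to_comp).comp hc (Computable.const (2 * N0))
  have hp : ComputablePred (fun m => c m ≤ 2 * N0) := ⟨inferInstance, hle⟩
  exact hp.of_eq hiff

end Pool.Agent.Lib.MP_c6644d_al
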