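import Pool.Agent.Lib.MP_c6644d_al.Literal

/-!
MP_c6644d_al: comparison of the two conventions for words and relators.
-/

set_option autoImplicit false

namespace Pool.Agent.Lib.MP_c6644d_al

/-! ### words -/

theorem evL_nil {Γ : Type} [Group Γ] (ℓ : ℕ → Γ) : evL ℓ [] = 1 := rfl

theorem evL_cons {Γ : Type} [Group Γ] (ℓ : ℕ → Γ) (a : ℕ × Bool) (w : Wd) :
    evL ℓ (a :: w) = (if a.2 then ℓ a.1 else (ℓ a.1)⁻¹) * evL ℓ w := rfl

theorem map_evL {Γ Δ : Type} [Group Γ] [Group Δ] (ℓ : ℕ → Γ) (f : Γ →* Δ) (w : Wd) :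
    f (evL ℓ w) = evL (fun i => f (ℓ i)) w := by
  induction w with
  | nil => rw [evL_nil, evL_nil, map_one]
  | cons a w ih =>
    rw [evL_cons, evL_cons, map_mul, ih]
    cases a.2 <;> simp

theorem mk_eq_evL (w : Wd) : (FreeGroup.mk w : FreeGroup ℕ) = evL FreeGroup.of w := by
  induction w with
  | nil => rfl
  | cons a w ih =>
    rw [evL_cons, ← ih]
    obtain ⟨i, b⟩ := a
    cases b
    · simp [FreeGroup.of, FreeGroup.inv_mk, FreeGroup.invRev, FreeGroup.mul_mk]
    · simp [FreeGroup.of, FreeGroup.mul_mk]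

/-- the letters `x, y, z, t` are `1, 2, 3, 0` -/
def cl (a : Fin 4 × Bool) : ℕ × Bool := ((![1, 2, 3, 0] : Fin 4 → ℕ) a.1, a.2)

def cw (w : List (Fin 4 × Bool)) : Wd := w.map cl

theorem primrec_cl : Primrec cl := Primrec.dom_finite cl

theorem primrec_cw : Primrec cw :=
  Primrec.list_map Primrec.id (primrec_cl.comp Primrec.snd).to₂

theorem value_cw (w : List (Fin 4 × Bool)) :
    value FBC.a3 (cw w) =
      FreeGroup.lift ![FBC.gx, FBC.gy, FBC.gz, FBC.gt] (FreeGroup.mk w) := by
  have hl : ∀ a : Fin 4, letter FBC.a3 ((![1, 2, 3, 0] : Fin 4 → ℕ) a) =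
      (![FBC.gx, FBC.gy, FBC.gz, FBC.gt] : Fin 4 → FBC.GG) a := by
    intro a
    fin_cases a <;> rfl
  rw [FreeGroup.lift_mk]
  unfold value evL cw
  rw [List.map_map]
  congr 1
  apply List.map_congr_left
  intro a _
  show (if a.2 then letter FBC.a3 (cl a).1 else (letter FBC.a3 (cl a).1)⁻¹) = _
  have h5 : letter FBC.a3 (cl a).1 = (![FBC.gx, FBC.gy, FBC.gz, FBC.gt] : Fin 4 → FBC.GG) a.1 :=
    hl a.1
  rw [h5]
  cases a.2 <;> rfl

theorem sub_cw (S : List (List (Fin 4 × Bool))) :
    sub FBC.a3 (S.map cw) = Subgroup.closure {g | ∃ v ∈ S,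
      FreeGroup.lift ![FBC.gx, FBC.gy, FBC.gz, FBC.gt] (FreeGroup.mk v) = g} := by
  unfold sub
  congr 1
  ext g
  simp only [List.mem_map, exists_exists_and_eq_and, value_cw, Set.mem_ofPred_eq]

/-! ### relators -/

/-- the relators in the free group on `ℕ` -/
def relN (m : ℕ) (R : List Wd) : Set (FreeGroup ℕ) :=
  {w | ∃ i, m ≤ i ∧ w = FreeGroup.of i} ∪ {w | ∃ r ∈ R, w = FreeGroup.mk r}

theorem exists_presEquiv (m : ℕ) (R : List Wd) :
    Nonempty (PresentedGroup (relators m R) ≃* PresentedGroup (relN m R)) := by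
  have h1 : ∀ r ∈ relators m R,
      FreeGroup.lift (fun i : Fin m => (PresentedGroup.of (rels := relN m R) (i : ℕ))) r = 1 := by
    rintro r ⟨w, hw, rfl⟩
    rw [map_evL]
    have h2 : (fun i => FreeGroup.lift
        (fun i : Fin m => (PresentedGroup.of (rels := relN m R) (i : ℕ))) (genL m i)) =
        fun i => PresentedGroup.mk (relN m R) (FreeGroup.of i) := by
      funext i
      unfold genL
      split_ifs with h
      · rw [FreeGroup.lift_apply_of]
        rfl
      · rw [map_one]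
        symm
        exact PresentedGroup.one_of_mem (Or.inl ⟨i, not_lt.1 h, rfl⟩)
    rw [h2, ← map_evL FreeGroup.of (PresentedGroup.mk (relN m R)), ← mk_eq_evL]
    exact PresentedGroup.one_of_mem (Or.inr ⟨w, hw, rfl⟩)
  have h3 : ∀ r ∈ relN m R,
      FreeGroup.lift (fun i : ℕ => PresentedGroup.mk (relators m R) (genL m i)) r = 1 := by
    rintro r (⟨i, hi, rfl⟩ | ⟨w, hw, rfl⟩)
    · rw [FreeGroup.lift_apply_of, genL, dif_neg (not_lt.2 hi), map_one]
    · rw [mk_eq_evL, map_evL]
      have h4 : (fun i => FreeGroup.lift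
          (fun i : ℕ => PresentedGroup.mk (relators m R) (genL m i)) (FreeGroup.of i)) =
          fun i => PresentedGroup.mk (relators m R) (genL m i) := by
        funext i
        rw [FreeGroup.lift_apply_of]
      rw [h4, ← map_evL]
      exact PresentedGroup.one_of_mem ⟨w, hw, rfl⟩
  refine ⟨MonoidHom.toMulEquiv (PresentedGroup.toGroup h1) (PresentedGroup.toGroup h3) ?_ ?_⟩
  · apply PresentedGroup.ext
    intro i
    rw [MonoidHom.comp_apply, PresentedGroup.toGroup.of, PresentedGroup.toGroup.of]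
    unfold genL
    rw [dif_pos i.2]
    rfl
  · apply PresentedGroup.ext
    intro i
    rw [MonoidHom.comp_apply, PresentedGroup.toGroup.of]
    unfold genL
    split_ifs with h
    · have : (PresentedGroup.mk (relators m R) (FreeGroup.of ⟨i, h⟩)) =
        PresentedGroup.of (rels := relators m R) ⟨i, h⟩ := rfl
      rw [this, PresentedGroup.toGroup.of]
      rfl
    · rw [map_one, map_one]
      symm
      exact PresentedGroup.one_of_mem (Or.inl ⟨i, not_lt.1 h, rfl⟩)

end Pool.Agent.Lib.MP_c6644d_al
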