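import Pool.Agent.Lib.MP_c6644d_al.GHom

/-!
MP_c6644d_al, group level (helper50): counting homomorphisms to the group with two elements.
-/

set_option autoImplicit false

namespace FBC

/-- the group with two elements -/
abbrev C2 : Type := Multiplicative (ZMod 2)

theorem finite_hom {Γ I : Type} [Group Γ] [Finite I] (f : I → Γ) :
    Finite (Subgroup.closure (Set.range f) →* C2) := by
  have : Finite (I → C2) := inferInstance
  refine Finite.of_injective (β := I → C2) (fun ψ i => ψ ⟨f i, Subgroup.subset_closure ⟨i, rfl⟩⟩) ?_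
  intro ψ ψ' h
  apply MonoidHom.ext
  rintro ⟨l, hl⟩
  induction hl using Subgroup.closure_induction with
  | mem x hx =>
    obtain ⟨i, rfl⟩ := hx
    exact congrFun h i
  | one =>
    have h1 : (⟨1, one_mem _⟩ : Subgroup.closure (Set.range f)) = 1 := rfl
    rw [h1, map_one, map_one]
  | mul x y hx hy ih1 ih2 =>
    have h1 : (⟨x * y, mul_mem hx hy⟩ : Subgroup.closure (Set.range f)) = ⟨x, hx⟩ * ⟨y, hy⟩ := rfl
    rw [h1, map_mul, map_mul, ih1, ih2]
  | inv x hx ih =>
    have h1 : (⟨x⁻¹, inv_mem hx⟩ : Subgroup.closure (Set.range f)) = ⟨x, hx⟩⁻¹ := rfl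
    rw [h1, map_inv, map_inv, ih]

/-- inclusion of `H` -/
noncomputable def incl (H : Subgroup GK) (g : Bool → GK) : H →* LG H g :=
  { toFun := fun h => ⟨iota (h : GK), iota_mem_LG H g h.2⟩
    map_one' := by
      apply Subtype.ext
      simp
    map_mul' := by
      intro a b
      apply Subtype.ext
      simp }

theorem LG_hom_ext {H : Subgroup GK} {g : Bool → GK} {ψ ψ' : LG H g →* C2}
    (h1 : ∀ h, ψ (incl H g h) = ψ' (incl H g h))
    (h2 : ∀ b, ψ ⟨ucj (g b), ucj_mem_LG H g b⟩ = ψ' ⟨ucj (g b), ucj_mem_LG H g b⟩) : ψ = ψ' := by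
  have hle : LG H g ≤ (MonoidHom.eqLocus ψ ψ').map (LG H g).subtype := by
    apply sup_le
    · rintro _ ⟨h, hh, rfl⟩
      exact ⟨incl H g ⟨h, hh⟩, h1 ⟨h, hh⟩, rfl⟩
    · rw [Subgroup.closure_le]
      rintro _ ⟨b, rfl⟩
      exact ⟨⟨ucj (g b), ucj_mem_LG H g b⟩, h2 b, rfl⟩
  apply MonoidHom.ext
  intro l
  obtain ⟨l', h3, h4⟩ := hle l.2
  have h5 : l' = l := Subtype.ext h4
  rw [← h5]
  exact h3

/-- restriction to the generators -/
noncomputable def res (H : Subgroup GK) (g : Bool → GK) (ψ : LG H g →* C2) :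
    (H →* C2) × (Bool → C2) :=
  (ψ.comp (incl H g), fun b => ψ ⟨ucj (g b), ucj_mem_LG H g b⟩)

theorem res_injective (H : Subgroup GK) (g : Bool → GK) : Function.Injective (res H g) := by
  intro ψ ψ' h
  apply LG_hom_ext
  · intro k
    exact DFunLike.congr_fun (congrArg Prod.fst h) k
  · intro b
    exact congrFun (congrArg Prod.snd h) b

theorem card_C2 : Nat.card C2 = 2 := by
  rw [Nat.card_eq_fintype_card]
  exact ZMod.card 2

theorem card_unreach (H : Subgroup GK) (g : Bool → GK)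
    (h1 : ∀ b, ∀ h ∈ H, (g b)⁻¹ * h * g b ∈ Bc → h = 1)
    (h2 : ∀ b, ∀ h ∈ H, (g b)⁻¹ * h * g (!b) ∉ Bc) :
    Nat.card (LG H g →* C2) = 4 * Nat.card (H →* C2) := by
  have hb : Function.Bijective (res H g) := by
    refine ⟨res_injective H g, ?_⟩
    rintro ⟨χ, m⟩
    obtain ⟨ψ, h3, h4⟩ := LG_extend H g h1 h2 χ m
    refine ⟨ψ, Prod.ext ?_ ?_⟩
    · apply MonoidHom.ext
      intro k
      exact h3 k
    · funext b
      exact h4 b
  have h5 : Nat.card Bool = 2 := by
    rw [Nat.card_eq_fintype_card, Fintype.card_bool]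
  rw [Nat.card_congr (Equiv.ofBijective _ hb), Nat.card_prod, Nat.card_fun, card_C2, h5]
  ring

theorem card_reach (H : Subgroup GK) (g : Bool → GK) (hf : Finite (H →* C2))
    (h1 : ∃ h ∈ H, ucj (g false) = iota h * ucj (g true) * (iota h)⁻¹) :
    Nat.card (LG H g →* C2) ≤ 2 * Nat.card (H →* C2) := by
  obtain ⟨h, hh, e⟩ := h1
  have hinj : Function.Injective
      (fun ψ : LG H g →* C2 => ((res H g ψ).1, (res H g ψ).2 true)) := by
    intro ψ ψ' hψ
    have e1 : (res H g ψ).1 = (res H g ψ').1 := (Prod.ext_iff.1 hψ).1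
    have e2 : (res H g ψ).2 true = (res H g ψ').2 true := (Prod.ext_iff.1 hψ).2
    apply res_injective
    refine Prod.ext e1 ?_
    funext b
    cases b
    · have e3 : (⟨ucj (g false), ucj_mem_LG H g false⟩ : LG H g) =
          incl H g ⟨h, hh⟩ * ⟨ucj (g true), ucj_mem_LG H g true⟩ * (incl H g ⟨h, hh⟩)⁻¹ :=
        Subtype.ext e
      have e4 : ∀ χ : LG H g →* C2, (res H g χ).2 false = (res H g χ).2 true := by
        intro χ
        show χ _ = χ _
        rw [e3, map_mul, map_mul, map_inv, mul_comm (χ (incl H g ⟨h, hh⟩)), mul_inv_cancel_right]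
      rw [e4, e4]
      exact e2
    · exact e2
  have : Finite ((H →* C2) × C2) := inferInstance
  have h3 := Nat.card_le_card_of_injective _ hinj
  rw [Nat.card_prod, card_C2] at h3
  rw [mul_comm]
  exact h3

end FBC
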