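import Pool.Agent.Lib.MP_c6644d_al.GHom

/-!
MP_c6644d_al, group level (helper50): words in the generators of `G`.
-/

set_option autoImplicit false

namespace FBC

/-- the element of `G` given by a word in `x, y, z, t` (the letters `0, 1, 2, 3`) -/
def ev (w : List (Fin 4 × Bool)) : GG := FreeGroup.lift ![gx, gy, gz, gt] (FreeGroup.mk w)

theorem ev_append (v w : List (Fin 4 × Bool)) : ev (v ++ w) = ev v * ev w := by
  rw [ev, ev, ev, ← map_mul, FreeGroup.mul_mk]

theorem ev_single (i : Fin 4) (b : Bool) :
    ev [(i, b)] = cond b (![gx, gy, gz, gt] i) (![gx, gy, gz, gt] i)⁻¹ := by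
  simp [ev]

theorem ev_nil : ev [] = 1 := by
  simp [ev]

theorem ev_rep_true (v : ℕ) : ev (List.replicate v (3, true)) = gt ^ v := by
  induction v with
  | zero => simp [ev_nil]
  | succ v ih =>
    rw [List.replicate_succ', ev_append, ih, ev_single, pow_succ]
    rfl

theorem ev_rep_false (v : ℕ) : ev (List.replicate v (3, false)) = (gt ^ v)⁻¹ := by
  induction v with
  | zero => simp [ev_nil]
  | succ v ih =>
    rw [List.replicate_succ', ev_append, ih, ev_single, pow_succ, mul_inv_rev]
    show (gt ^ v)⁻¹ * gt⁻¹ = gt⁻¹ * (gt ^ v)⁻¹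
    rw [← mul_inv_rev, ← mul_inv_rev, ← pow_succ, ← pow_succ']

theorem ev_u : ev [(2, true), (0, true), (2, false)] = gu := by
  have h : ([(2, true), (0, true), (2, false)] : List (Fin 4 × Bool)) =
      [(2, true)] ++ [(0, true)] ++ [(2, false)] := rfl
  rw [h, ev_append, ev_append, ev_single, ev_single, ev_single]
  rfl

theorem exists_word (k : GK) : ∃ w, ev w = iota k := by
  let R : Subgroup GG := (FreeGroup.lift ![gx, gy, gz, gt]).range
  have hR : ∀ i : Fin 4, ![gx, gy, gz, gt] i ∈ R := fun i => ⟨FreeGroup.of i, by simp⟩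
  have h1 : ∀ n : FreeGroup (Fin 2), (SemidirectProduct.inl n : GK) ∈ R.comap iota := by
    intro n
    induction n using FreeGroup.induction_on with
    | C1 => rw [map_one]; exact one_mem _
    | of i =>
      fin_cases i
      · show iota kx ∈ R
        rw [iota_kx]
        exact hR 0
      · show iota ky ∈ R
        rw [iota_ky]
        exact hR 1
    | inv_of i h => rw [map_inv]; exact inv_mem h
    | mul a b ha hb => rw [map_mul]; exact mul_mem ha hb
  have h2 : ∀ m : Multiplicative ℤ, (SemidirectProduct.inr m : GK) ∈ R.comap iota := by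
    intro m
    have e : (SemidirectProduct.inr m : GK) = kt ^ (Multiplicative.toAdd m) := by
      rw [kt, tt, ← map_zpow, ← ofAdd_zsmul]
      simp
    rw [e]
    apply zpow_mem
    show iota kt ∈ R
    rw [iota_kt]
    exact hR 3
  have h3 : k ∈ R.comap iota := by
    rw [← SemidirectProduct.inl_left_mul_inr_right k]
    exact mul_mem (h1 _) (h2 _)
  obtain ⟨a, ha⟩ := h3
  refine ⟨a.toWord, ?_⟩
  rw [ev, FreeGroup.mk_toWord]
  exact ha

/-- a word for the image of an element of `K` -/
noncomputable def wd (k : GK) : List (Fin 4 × Bool) := (exists_word k).choose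

theorem ev_wd (k : GK) : ev (wd k) = iota k := (exists_word k).choose_spec

/-- the subgroup generated by the elements given by a finite list of words -/
def evs (S : List (List (Fin 4 × Bool))) : Subgroup GG :=
  Subgroup.closure {x | ∃ u ∈ S, ev u = x}

end FBC
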