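import Pool.Agent.Lib.MP_c6644d_al.GStab
import Pool.Agent.Lib.MP_c6644d_al.GCount
import Pool.Agent.Lib.MP_c6644d_al.GWords

/-!
MP_c6644d_al, group level (helper50): main theorem of the group level.
-/

set_option autoImplicit false

open StateTransition

namespace FBC

section Facts

variable {M : RM} {Om : Type} {rho : GK →* (Equiv.Perm Om)ᵐᵒᵖ} {j : M.A × ℤ → Om}

/-- if `c ^ i` moves the configuration `C` (without predecessor) to `D`, then `D` is reachable -/
theorem reach_of_zpow (ha : IsAct M rho j) {C D : M.A × ℤ} (hC : ∀ c, M.step c ≠ some C)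
    {i : ℤ} (h : act rho (j C) (kc ^ i) = j D) : Reaches M.step C D := by
  obtain ⟨n, rfl | rfl⟩ := i.eq_nat_or_neg
  · rw [zpow_natCast] at h
    exact iterO_reaches (ha.hi n C D h)
  · rw [zpow_neg, zpow_natCast] at h
    have h1 : act rho (j D) (kc ^ n) = j C := by
      have := act_inv h
      rwa [inv_inv] at this
    cases n with
    | zero =>
      have h2 := ha.hi 0 D C h1
      have h3 : D = C := by simpa [iterO] using h2
      rw [h3]
      exact Relation.ReflTransGen.refl
    | succ n =>
      obtain ⟨e, _, h2⟩ := iterO_succ_last (ha.hi (n + 1) D C h1)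
      exact absurd h2 (hC e)

/-- `c ^ i` fixes no configuration with infinite forward orbit -/
theorem zpow_fix (ha : IsAct M rho j) {D : M.A × ℤ}
    (hD : {c | Reaches M.step D c}.Infinite ∨ ∀ c, M.step c ≠ some D) {i : ℤ}
    (h : act rho (j D) (kc ^ i) = j D) : i = 0 := by
  have key : ∀ n : ℕ, act rho (j D) (kc ^ (n + 1)) = j D → False := by
    intro n h1
    have h2 := ha.hi (n + 1) D D h1
    rcases hD with hD | hD
    · exact hD (periodic_finite h2)
    · obtain ⟨e, _, h3⟩ := iterO_succ_last h2
      exact hD e h3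
  obtain ⟨n, rfl | rfl⟩ := i.eq_nat_or_neg
  · cases n with
    | zero => rfl
    | succ n =>
      rw [zpow_natCast] at h
      exact absurd h (key n)
  · cases n with
    | zero => rfl
    | succ n =>
      rw [zpow_neg, zpow_natCast] at h
      have h1 := act_inv h
      rw [inv_inv] at h1
      exact absurd h1 (key n)

end Facts

/-- the last word -/
noncomputable def lastWord (w w' : List (Fin 4 × Bool)) (v : ℕ) : List (Fin 4 × Bool) :=
  w ++ List.replicate v (3, true) ++ [(2, true), (0, true), (2, false)] ++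
    List.replicate v (3, false) ++ w'

theorem group_main (M : RM) (a0 mk : M.A) (hpk : M.p mk = 1)
    (hno : ∀ c n, M.step c ≠ some (a0, n)) (hr : ∃ v, Reaches M.step (a0, 1) (mk, v)) :
    ∃ (S0 : List (List (Fin 4 × Bool))) (w w' : List (Fin 4 × Bool)) (N0 : ℕ), 0 < N0 ∧
      ∀ v : ℕ,
        (Reaches M.step (a0, 1) (mk, (v : ℤ)) →
          Nat.card (evs (S0 ++ [lastWord w w' v]) →* C2) ≤ 2 * N0) ∧
        (¬ Reaches M.step (a0, 1) (mk, (v : ℤ)) →
          {c | Reaches M.step (mk, (v : ℤ)) c}.Infinite →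
          Nat.card (evs (S0 ++ [lastWord w w' v]) →* C2) = 4 * N0) := by
  classical
  obtain ⟨Om, rho, j, i1, i2, i3, i4, i5⟩ := exists_action M
  have ha : IsAct M rho j := ⟨i1, i2, i3, i4, i5⟩
  have : Finite M.A := M.fin
  have : Fintype (Idx M) := Fintype.ofFinite _
  set V := Val M rho j a0 with hV
  set gv := gvw M rho j a0 with hgv
  set H := Hsub M V gv with hH
  have hVa0 : V a0 := ⟨1, act_one _⟩
  have hVstep : ∀ {c d : M.A × ℤ}, V c.1 → M.step c = some d → V d.1 :=
    fun {c d} h1 h2 => val_step ha h1 h2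
  have hVmk : V mk := by
    obtain ⟨v, hv⟩ := hr
    exact (pos_reaches (gv := gv) (fun {c d} h1 h2 => hVstep h1 h2) hVa0 hv).1
  have hfin : Finite (H →* C2) := finite_hom (hgen M V gv)
  set C : M.A × ℤ := (a0, 1) with hC
  let S0 : List (List (Fin 4 × Bool)) :=
    ((Finset.univ : Finset (Idx M)).toList.map fun i => wd (hgen M V gv i)) ++
      [wd (pos M gv C) ++ [(2, true), (0, true), (2, false)] ++ wd (pos M gv C)⁻¹]
  refine ⟨S0, wd (gv mk), wd (gv mk)⁻¹, Nat.card (H →* C2), Nat.card_pos, ?_⟩
  intro v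
  set D : M.A × ℤ := (mk, (v : ℤ)) with hD
  let g : Bool → GK := fun b => cond b (pos M gv C) (pos M gv D)
  have hposD : pos M gv D = gv mk * kt ^ v := by
    simp [pos, hD, tr, hpk]
  have hevC : ev (wd (pos M gv C) ++ [(2, true), (0, true), (2, false)] ++ wd (pos M gv C)⁻¹) =
      ucj (g true) := by
    rw [ev_append, ev_append, ev_wd, ev_wd, ev_u, map_inv]
    rfl
  have hevD : ev (lastWord (wd (gv mk)) (wd (gv mk)⁻¹) v) = ucj (g false) := by
    have e1 : ucj (g false) = iota (pos M gv D) * gu * (iota (pos M gv D))⁻¹ := rfl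
    rw [e1, hposD, lastWord, ev_append, ev_append, ev_append, ev_append, ev_wd, ev_wd, ev_u,
      ev_rep_true, ev_rep_false, map_inv, map_mul, map_pow, iota_kt, mul_inv_rev]
    simp only [mul_assoc]
  -- the subgroup
  have hL : evs (S0 ++ [lastWord (wd (gv mk)) (wd (gv mk)⁻¹) v]) = LG H g := by
    apply le_antisymm
    · rw [evs, Subgroup.closure_le]
      rintro _ ⟨u, hu, rfl⟩
      rw [List.mem_append] at hu
      rcases hu with hu | hu
      · rw [List.mem_append] at hu
        rcases hu with hu | hu
        · rw [List.mem_map] at hu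
          obtain ⟨i, _, rfl⟩ := hu
          rw [ev_wd]
          exact iota_mem_LG H g (Subgroup.subset_closure (Set.mem_range_self i))
        · rw [List.mem_singleton] at hu
          rw [hu, hevC]
          exact ucj_mem_LG H g true
      · rw [List.mem_singleton] at hu
        rw [hu, hevD]
        exact ucj_mem_LG H g false
    · apply sup_le
      · rw [hH, Hsub, MonoidHom.map_closure, Subgroup.closure_le]
        rintro _ ⟨_, ⟨i, rfl⟩, rfl⟩
        apply Subgroup.subset_closure
        refine ⟨wd (hgen M V gv i), ?_, ev_wd _⟩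
        rw [List.mem_append]
        left
        rw [List.mem_append]
        left
        exact List.mem_map.2 ⟨i, by simp, rfl⟩
      · rw [Subgroup.closure_le]
        rintro _ ⟨b, rfl⟩
        apply Subgroup.subset_closure
        cases b
        · refine ⟨_, ?_, hevD⟩
          simp
        · refine ⟨_, ?_, hevC⟩
          simp [S0]
  have hposCact : act rho (j (a0, 0)) (pos M gv C) = j C := act_pos ha hVa0
  have hposDact : act rho (j (a0, 0)) (pos M gv D) = j D := act_pos ha hVmk
  have hCno : ∀ c, M.step c ≠ some C := fun c => hno c 1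
  have hg : ∀ b, act rho (j (a0, 0)) (g b) = j (cond b C D) := by
    intro b
    cases b
    · exact hposDact
    · exact hposCact
  have hstab : ∀ h ∈ H, act rho (j (a0, 0)) h = j (a0, 0) := fun h hh => H_stab ha hh
  -- the basic computation
  have hbasic : ∀ b b' : Bool, ∀ h ∈ H, ∀ i : ℤ, (g b)⁻¹ * h * g b' = kc ^ i →
      act rho (j (cond b C D)) (kc ^ i) = j (cond b' C D) := by
    intro b b' h hh i he
    have e1 : g b * kc ^ i = h * g b' := by
      rw [← he]; group
    rw [← hg b, ← act_mul, e1, act_mul, hstab h hh, hg b']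
  rw [hL]
  constructor
  · intro hreach
    obtain ⟨_, i, h, hh, e1⟩ := pos_reaches (gv := gv) (fun {c d} h1 h2 => hVstep h1 h2) hVa0 hreach
    apply card_reach H g hfin
    refine ⟨h⁻¹, inv_mem hh, ?_⟩
    have e2 : pos M gv D = h⁻¹ * (pos M gv C * kc ^ i) := by
      rw [e1]; group
    have e3 : gc ^ i * gu * (gc ^ i)⁻¹ = gu := by
      have : Commute gc gu := gc_gu
      rw [(this.pow_left i).eq, mul_inv_cancel_right]
    show iota (pos M gv D) * gu * (iota (pos M gv D))⁻¹ =
      iota h⁻¹ * (iota (pos M gv C) * gu * (iota (pos M gv C))⁻¹) * (iota h⁻¹)⁻¹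
    rw [e2, map_mul, map_mul, map_pow, iota_kc]
    calc iota h⁻¹ * (iota (pos M gv C) * gc ^ i) * gu * (iota h⁻¹ * (iota (pos M gv C) * gc ^ i))⁻¹
        = iota h⁻¹ * (iota (pos M gv C) * (gc ^ i * gu * (gc ^ i)⁻¹) * (iota (pos M gv C))⁻¹) *
          (iota h⁻¹)⁻¹ := by group
      _ = _ := by rw [e3]
  · intro hnr hinf
    apply card_unreach
    · rintro b h hh ⟨i, hi⟩
      have e1 : (g b)⁻¹ * h * g b = kc ^ (Multiplicative.toAdd i) := hi.symm
      have e2 := hbasic b b h hh _ e1
      have e3 : Multiplicative.toAdd i = 0 := by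
        cases b
        · exact zpow_fix ha (Or.inl hinf) e2
        · exact zpow_fix ha (Or.inr hCno) e2
      rw [e3, zpow_zero] at e1
      have e4 : h = g b * ((g b)⁻¹ * h * g b) * (g b)⁻¹ := by group
      rw [e4, e1]
      group
    · rintro b h hh ⟨i, hi⟩
      have e1 : (g b)⁻¹ * h * g (!b) = kc ^ (Multiplicative.toAdd i) := hi.symm
      have e2 := hbasic b (!b) h hh _ e1
      cases b
      · have e3 : act rho (j C) (kc ^ (-(Multiplicative.toAdd i))) = j D := by
          rw [zpow_neg]
          exact act_inv e2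
        exact hnr (reach_of_zpow ha hCno e3)
      · exact hnr (reach_of_zpow ha hCno e2)

end FBC
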