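import Pool.Agent.Lib.MP_c6644d_al.RRec

/-!
# A universal reversible program

`g` is a total injective primitive recursive function with `{m | 2 m ∈ range g}` not computable;
the program `Q` maps `(t, 0, 0, …)` to `(0, g t, 0, …)`.
-/

namespace Pool.Agent.Lib.MP_c6644d_al

namespace RProg

open Nat.Partrec (Code)
open Nat.Partrec.Code (evaln eval)

/-- Program number `m` halts on input `0` within `s` steps. -/
def HaltsIn (m s : ℕ) : Bool := (evaln s (Denumerable.ofNat Code m) 0).isSome

/-- Program number `m` halts on input `0` at exactly step `s`. -/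
def HaltsAt (m s : ℕ) : Bool := HaltsIn m s && !(HaltsIn m (s - 1))

/-- The enumeration function. -/
def enumG (t : ℕ) : ℕ := bif HaltsAt t.unpair.1 t.unpair.2 then 2 * t.unpair.1 else 2 * t + 1

theorem haltsIn_mono {m s s' : ℕ} (h : s ≤ s') (hs : HaltsIn m s = true) : HaltsIn m s' = true := by
  rw [HaltsIn, Option.isSome_iff_exists] at hs ⊢
  obtain ⟨a, ha⟩ := hs
  exact ⟨a, Nat.Partrec.Code.evaln_mono h ha⟩

theorem haltsIn_zero (m : ℕ) : HaltsIn m 0 = false := by
  simp [HaltsIn, evaln]

theorem haltsAt_unique {m s s' : ℕ} (h : HaltsAt m s = true) (h' : HaltsAt m s' = true) :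
    s = s' := by
  simp only [HaltsAt, Bool.and_eq_true, Bool.not_eq_true'] at h h'
  by_contra hne
  rcases lt_or_gt_of_ne hne with hlt | hlt
  · have := haltsIn_mono (show s ≤ s' - 1 by omega) h.1
    rw [h'.2] at this
    exact absurd this (by simp)
  · have := haltsIn_mono (show s' ≤ s - 1 by omega) h'.1
    rw [h.2] at this
    exact absurd this (by simp)

theorem exists_haltsAt {m : ℕ} : (∃ s, HaltsAt m s = true) ↔ ∃ s, HaltsIn m s = true := by
  constructor
  · rintro ⟨s, hs⟩
    simp only [HaltsAt, Bool.and_eq_true] at hs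
    exact ⟨s, hs.1⟩
  · intro h
    classical
    let s := Nat.find h
    refine ⟨s, ?_⟩
    have h1 : HaltsIn m s = true := Nat.find_spec h
    have h0 : s ≠ 0 := by
      intro h0
      rw [h0, haltsIn_zero] at h1
      exact absurd h1 (by simp)
    have h2 : ¬ HaltsIn m (s - 1) = true := Nat.find_min h (by omega)
    simp only [HaltsAt, h1, Bool.true_and, Bool.not_eq_true']
    simpa using h2

theorem enumG_injective : Function.Injective enumG := by
  intro t t' h
  simp only [enumG] at h
  rcases hb : HaltsAt t.unpair.1 t.unpair.2 with _ | _ <;>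
    rcases hb' : HaltsAt t'.unpair.1 t'.unpair.2 with _ | _ <;> simp only [hb, hb', cond_true, cond_false] at h
  · omega
  · omega
  · omega
  · have h1 : t.unpair.1 = t'.unpair.1 := by omega
    rw [h1] at hb
    have h2 := haltsAt_unique hb hb'
    rw [← Nat.pair_unpair t, ← Nat.pair_unpair t', h1, h2]

theorem mem_range_enumG {m : ℕ} : (∃ t, enumG t = 2 * m) ↔ ∃ s, HaltsIn m s = true := by
  rw [← exists_haltsAt]
  constructor
  · rintro ⟨t, ht⟩
    simp only [enumG] at ht
    rcases hb : HaltsAt t.unpair.1 t.unpair.2 with _ | _ <;> simp only [hb, cond_true, cond_false] at ht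
    · omega
    · refine ⟨t.unpair.2, ?_⟩
      have : t.unpair.1 = m := by omega
      rwa [this] at hb
  · rintro ⟨s, hs⟩
    refine ⟨Nat.pair m s, ?_⟩
    simp [enumG, hs]

theorem primrec_haltsIn : Primrec₂ HaltsIn := by
  have h1 : Primrec (fun p : ℕ × ℕ => ((p.2, Denumerable.ofNat Code p.1), 0) :
      ℕ × ℕ → (ℕ × Code) × ℕ) :=
    (Primrec.pair (Primrec.pair Primrec.snd ((Primrec.ofNat Code).comp Primrec.fst))
      (Primrec.const 0))
  exact Primrec.option_isSome.comp (Nat.Partrec.Code.primrec_evaln.comp h1)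

theorem primrec_enumG : Primrec enumG := by
  have hu : Primrec (fun t : ℕ => t.unpair) := Primrec.unpair
  have h1 : Primrec (fun t : ℕ => HaltsIn t.unpair.1 t.unpair.2) :=
    primrec_haltsIn.comp (Primrec.fst.comp hu) (Primrec.snd.comp hu)
  have h2 : Primrec (fun t : ℕ => HaltsIn t.unpair.1 (t.unpair.2 - 1)) :=
    primrec_haltsIn.comp (Primrec.fst.comp hu)
      (Primrec.nat_sub.comp (Primrec.snd.comp hu) (Primrec.const 1))
  have h3 : Primrec (fun t : ℕ => HaltsAt t.unpair.1 t.unpair.2) :=
    Primrec.and.comp h1 (Primrec.not.comp h2)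
  exact Primrec.cond h3 (Primrec.nat_mul.comp (Primrec.const 2) (Primrec.fst.comp hu))
    (Primrec.succ.comp (Primrec.nat_mul.comp (Primrec.const 2) Primrec.id))

theorem not_computable_enumG : ¬ ComputablePred (fun m : ℕ => ∃ t, enumG t = 2 * m) := by
  intro h
  refine ComputablePred.halting_problem 0 ?_
  have h2 : (fun c : Code => (eval c 0).Dom) ≤₀ (fun m : ℕ => ∃ t, enumG t = 2 * m) := by
    refine ⟨Encodable.encode, Computable.encode, fun c => ?_⟩
    show (eval c 0).Dom ↔ ∃ t, enumG t = 2 * Encodable.encode c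
    rw [mem_range_enumG]
    constructor
    · intro hd
      obtain ⟨s, hs⟩ := Nat.Partrec.Code.evaln_complete.1 (Part.get_mem hd)
      refine ⟨s, ?_⟩
      rw [HaltsIn, Option.isSome_iff_exists]
      refine ⟨(eval c 0).get hd, ?_⟩
      rw [Denumerable.ofNat_encode]
      exact hs
    · rintro ⟨s, hs⟩
      rw [HaltsIn, Option.isSome_iff_exists, Denumerable.ofNat_encode] at hs
      obtain ⟨a, ha⟩ := hs
      exact Part.dom_iff_mem.2 ⟨a, Nat.Partrec.Code.evaln_sound ha⟩
  exact ComputablePred.computable_of_manyOneReducible h2 h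

theorem clean_enumG : Clean 1 (fun x => enumG (x 0)) := by
  have h : Nat.Primrec' (fun v : List.Vector ℕ 1 => enumG v.head) :=
    Nat.Primrec'.prim_iff₁.2 primrec_enumG
  have := clean_of_primrec' h
  convert this using 2
  simp [List.Vector.head_ofFn]

/-- **The universal reversible program**, with the shape of the program: `Q = PG ; inv B` where
`B = loop 0 D P 2` searches for the preimage; for `y ∉ range g` the search runs through infinitely
many states (`u k 0 = k`). -/
theorem exists_program' : ∃ (PG D P : RProg) (g : ℕ → ℕ), Function.Injective g ∧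
    ¬ ComputablePred (fun m : ℕ => ∃ t, g t = 2 * m) ∧
    (∀ t, Ev (seq PG (inv (loop 0 D P 2))) (fun i => if i = 0 then t else 0)
      (fun i => if i = 1 then g t else 0)) ∧
    ∀ y, (∀ t, g t ≠ y) → ∃ u c : ℕ → (ℕ → ℕ), Ev D (fun i => if i = 1 then y else 0) (u 0) ∧
      ∀ k, u k 2 ≠ 0 ∧ Ev P (u k) (c k) ∧ c k 0 ≠ 0 ∧ Ev D (c k) (u (k + 1)) ∧ u k 0 = k := by
  obtain ⟨PG, hPG⟩ := clean_enumG (fun _ => 0) 1 2 (fun _ => by omega) (fun _ => by omega)
    (by omega)
  have hc : Clean 2 (fun x => (enumG (x 0) - x 1) + (x 1 - enumG (x 0))) := by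
    have h1 : Clean 2 (fun x => enumG (x 0)) := Clean.comp1 (F := enumG) clean_enumG (clean_proj 2 0)
    exact (h1.sub (clean_proj 2 1)).add ((clean_proj 2 1).sub h1)
  obtain ⟨PD, hPD⟩ := hc ![0, 1] 2 3 (fun k => by fin_cases k <;> simp)
    (fun k => by fin_cases k <;> simp) (by omega)
  let st : ℕ → ℕ → ℕ → (ℕ → ℕ) := fun x y z i =>
    if i = 0 then x else if i = 1 then y else if i = 2 then z else 0
  have hZ : ∀ x y z, Z 3 (st x y z) := by
    intro x y z j hj
    have h1 : j ≠ 0 := by omega
    have h2 : j ≠ 1 := by omega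
    have h3 : j ≠ 2 := by omega
    simp [st, h1, h2, h3]
  have eD : ∀ x y, Ev PD (st x y 0) (st x y ((enumG x - y) + (y - enumG x))) := by
    intro x y
    have := hPD _ (hZ x y 0)
    convert this using 1
    funext r
    simp [st, Function.update_apply]
    split_ifs <;> first | rfl | omega
  have eP : ∀ x y, Ev (seq (inv PD) (inc 0)) (st x y ((enumG x - y) + (y - enumG x)))
      (st (x + 1) y 0) := by
    intro x y
    refine ⟨_, (eD _ _).inv, ?_⟩
    show _ = Function.update _ _ _
    funext r
    simp only [st, Function.update_apply]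
    split_ifs <;> first | rfl | omega
  have hB : ∀ t, Ev (loop 0 PD (seq (inv PD) (inc 0)) 2) (st 0 (enumG t) 0)
      (st t (enumG t) 0) := by
    intro t
    have := loop_intro (i := 0) (j := 2) (D := PD) (P := seq (inv PD) (inc 0))
      (s := st 0 (enumG t) 0) t
      (fun k => st k (enumG t) ((enumG k - enumG t) + (enumG t - enumG k)))
      (fun k => st (k + 1) (enumG t) 0) (by simp [st]) (eD _ _)
      (by
        intro k hk
        refine ⟨?_, eP _ _, by simp [st], eD _ _⟩
        have hne : enumG k ≠ enumG t := fun h => hk.ne (enumG_injective h)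
        simp [st]; omega)
      (by simp [st])
    simpa using this
  have e1 : ∀ y, (fun i => if i = 1 then y else 0) = st 0 y 0 := by
    intro y
    funext r
    simp only [st]
    split_ifs <;> first | rfl | omega
  refine ⟨PG, PD, seq (inv PD) (inc 0), enumG, enumG_injective, not_computable_enumG,
    fun t => ?_, fun y hy => ?_⟩
  · have e0 : (fun i => if i = 0 then t else 0) = st t 0 0 := by
      funext r; simp [st]
    rw [e0, e1]
    refine ⟨st t (enumG t) 0, ?_, (hB t).inv⟩
    have := hPG (st t 0 0) (fun j hj => by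
      have h1 : j ≠ 0 := by omega
      have h2 : j ≠ 1 := by omega
      simp [st, h1, h2])
    convert this using 1
    funext r
    simp [st, Function.update_apply]
    split_ifs <;> first | rfl | omega
  · rw [e1]
    refine ⟨fun k => st k y ((enumG k - y) + (y - enumG k)), fun k => st (k + 1) y 0, eD _ _,
      fun k => ⟨?_, eP _ _, by simp [st], eD _ _, by simp [st]⟩⟩
    have := hy k
    simp [st]; omega

/-- The universal reversible program, short form. -/
theorem exists_program : ∃ (Q : RProg) (g : ℕ → ℕ), Function.Injective g ∧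
    ¬ ComputablePred (fun m : ℕ => ∃ t, g t = 2 * m) ∧
    ∀ t, Ev Q (fun i => if i = 0 then t else 0) (fun i => if i = 1 then g t else 0) := by
  obtain ⟨PG, D, P, g, h1, h2, h3, -⟩ := exists_program'
  exact ⟨_, g, h1, h2, h3⟩

end RProg

end Pool.Agent.Lib.MP_c6644d_al
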