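import Pool.Agent.Lib.MP_c6644d_al.Cycle
import Pool.Agent.Lib.MP_c6644d_al.RUniv

set_option autoImplicit false

/-!
# MP_c6644d_al: the universal residue machine
-/

namespace FBC

open StateTransition Relation Pool.Agent.Lib.MP_c6644d_al

theorem enc_inj {K i : ℕ} (hi : i < K) : ∀ (n : ℕ) {r r' : ℕ → ℕ}, r i = n →
    enc K r = enc K r' → r i = r' i := by
  intro n
  induction n with
  | zero =>
    intro r r' h0 h
    by_contra hc
    have h1 : r' i ≠ 0 := fun h2 => hc (h0.trans h2.symm)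
    have h2 : pr i ∣ enc K r := h ▸ (enc_dvd hi r').2 h1
    exact (enc_dvd hi r).1 h2 h0
  | succ n ih =>
    intro r r' h0 h
    have hr : r i ≠ 0 := by omega
    have hr' : r' i ≠ 0 := (enc_dvd hi r').1 (h ▸ (enc_dvd hi r).2 hr)
    rw [enc_pred hi hr, enc_pred hi hr'] at h
    have h1 := Nat.eq_of_mul_eq_mul_left (pr_prime i).pos h
    have h2 := ih (r := Function.update r i (r i - 1)) (r' := Function.update r' i (r' i - 1))
      (by simp [h0]) h1
    simp only [Function.update_self] at h2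
    omega

/-- The iterations of a loop. -/
theorem loop_iter {K : ℕ} {D P : Frag K} {i j : ℕ} {hi : i < K} {hj : j < K} {r : ℕ → ℕ}
    (h0 : r i = 0) (u c : ℕ → ℕ → ℕ) (hu : D.Run r (u 0))
    (h : ∀ k, u k j ≠ 0 ∧ P.Run (u k) (c k) ∧ c k i ≠ 0 ∧ D.Run (c k) (u (k + 1))) (k : ℕ) :
    ReflTransGen (Frag.loop i D P j hi hj).Step (Sum.inl 0, r)
      (Sum.inr (Sum.inl D.tgt), u k) := by
  have e1 : (Frag.loop i D P j hi hj).Step (Sum.inl 0, r) (Sum.inl 1, r) :=
    ⟨Kind.zero i, Frag.LEdge.entry, h0, rfl⟩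
  have e2 : ∀ x : ℕ → ℕ, (Frag.loop i D P j hi hj).Step (Sum.inl 1, x)
      (Sum.inr (Sum.inl D.src), x) := fun x => ⟨Kind.nop, Frag.LEdge.goD, rfl⟩
  induction k with
  | zero => exact ((ReflTransGen.single e1).tail (e2 r)).trans (Frag.loop_D hu)
  | succ k ih =>
    obtain ⟨ha, hc1, hc2, hc3⟩ := h k
    have f1 : (Frag.loop i D P j hi hj).Step (Sum.inr (Sum.inl D.tgt), u k)
      (Sum.inr (Sum.inr P.src), u k) := ⟨Kind.pos j, Frag.LEdge.goP, ha, rfl⟩
    have f2 : (Frag.loop i D P j hi hj).Step (Sum.inr (Sum.inr P.tgt), c k)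
      (Sum.inl 1, c k) := ⟨Kind.pos i, Frag.LEdge.back, hc2, rfl⟩
    exact ((((ih.tail f1).trans (Frag.loop_P hc1)).tail f2).tail (e2 (c k))).trans
      (Frag.loop_D hc3)

/-- **The universal residue machine.** -/
theorem exists_RM : ∃ (M : RM) (a0 mk : M.A) (g : ℕ → ℕ),
    M.p a0 = 1 ∧ M.q a0 = 1 ∧ M.p mk = 1 ∧ M.q mk = 1 ∧
    (∀ c n, M.step c ≠ some (a0, n)) ∧
    (¬ ComputablePred (fun m : ℕ => ∃ t, g t = 2 * m)) ∧
    (∀ v : ℤ, Reaches M.step (a0, 1) (mk, v) ↔ ∃ t, v = 3 ^ g t) ∧
    ∀ y, (∀ t, g t ≠ y) → {c | Reaches M.step (mk, 3 ^ y) c}.Infinite := by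
  obtain ⟨PG, D, P, g, -, hg, hQ, hy⟩ := RProg.exists_program'
  let B : RProg := RProg.loop 0 D P 2
  let Q : RProg := RProg.seq PG B.inv
  obtain ⟨K0, hK0⟩ := exists_below Q
  obtain ⟨K, hK, hK2⟩ : ∃ K, Q.Below K ∧ 3 ≤ K :=
    ⟨max K0 3, below_mono (le_max_left _ _) Q hK0, le_max_right _ _⟩
  have hpos : 0 < K := by omega
  have hB : B.Below K := by
    have := below_inv B.inv hK.2
    rwa [RProg.inv_inv] at this
  let G : RProg := RProg.seq (RProg.seq B PG.inv) (RProg.inc 0)
  have hG : G.Below K := ⟨⟨hB, below_inv PG hK.1⟩, hpos⟩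
  let M : RCM := cyc (frag K Q hK) (frag K G hG) hpos
  have hin : ∀ (k : Kind) (s : M.S), ¬ M.Edge s k (Sum.inl 0) := by
    intro k s h
    have h' : CEdge (frag K Q hK) (frag K G hG) s k (Sum.inl 0) := h
    cases h'
  have hmk : M.Edge (Sum.inl 2) Kind.nop (Sum.inr (Sum.inr (frag K G hG).src)) := CEdge.goG
  have e2 : ∀ y, (enc K (fun i => if i = 1 then y else 0) : ℤ) = 3 ^ y := by
    intro y
    rw [enc_single (by omega : 1 < K), pr_one]
    push_cast
    rfl
  refine ⟨M.toRM, (Sum.inl 0, false), (Sum.inl 2, true), g, M.toRM_p_in _, M.toRM_q_in_one hin,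
    M.toRM_p_out hmk, M.toRM_q_out _, ?_, hg, ?_, ?_⟩
  · intro c n
    exact M.toRM.step_ne (fun a μ ν => M.toRM_start hin a μ ν) c n
  · intro v
    have key := cyc_marks (F := frag K Q hK) (G := frag K G hG) (h0 := hpos)
      (fun t i => if i = 0 then t else 0) (fun t i => if i = 1 then g t else 0)
      (fun t => frag_run Q hK (hQ t)) ?_ (by simp) (by simp) v
    · have e1 : (enc K (fun i => if i = 0 then 0 else 0) : ℤ) = 1 := by
        rw [enc_single hpos]
        simp
      rw [e1] at key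
      refine key.trans ?_
      simp only [e2]
    · intro t
      apply frag_run
      have h1 := (hQ t).inv
      simp only [RProg.inv] at h1
      have h2 : RProg.Ev (RProg.seq B PG.inv) (fun i => if i = 1 then g t else 0)
          (fun i => if i = 0 then t else 0) := by
        obtain ⟨m, h3, h4⟩ := h1
        refine ⟨m, ?_, h4⟩
        have h5 : RProg.Ev B.inv.inv (fun i => if i = 1 then g t else 0) m := h3
        rwa [RProg.inv_inv] at h5
      refine ⟨_, h2, ?_⟩
      show _ = _
      funext i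
      by_cases hi : i = 0
      · subst hi
        simp
      · simp [hi]
  · intro y hyg
    obtain ⟨u, c, hu0, hu⟩ := hy y hyg
    have hiter : ∀ k, ReflTransGen (frag K B hB).Step
        (Sum.inl 0, fun i => if i = 1 then y else 0)
        (Sum.inr (Sum.inl (frag K D hB.2.2.1).tgt), u k) := by
      intro k
      exact loop_iter (by simp) u c (frag_run D hB.2.2.1 hu0)
        (fun k => ⟨(hu k).1, frag_run P hB.2.2.2 (hu k).2.1, (hu k).2.2.1,
          frag_run D hB.2.2.1 (hu k).2.2.2.1⟩) k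
    have hG1 : ∀ k, ReflTransGen (frag K G hG).Step
        ((frag K G hG).src, fun i => if i = 1 then y else 0)
        (Sum.inl (Sum.inl (Sum.inr (Sum.inl (frag K D hB.2.2.1).tgt))), u k) := by
      intro k
      exact Frag.seq_left (G := Frag.single (Kind.inc 0) hpos)
        (Frag.seq_left (G := frag K PG.inv (below_inv PG hK.1)) (hiter k))
    have hM : ∀ k, Reaches M.toRM.step ((Sum.inl 2, true), 3 ^ y)
        ((Sum.inr (Sum.inr (Sum.inl (Sum.inl (Sum.inr (Sum.inl (frag K D hB.2.2.1).tgt))))), true),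
          (enc K (u k) : ℤ)) := by
      intro k
      have h1 : M.toRM.step ((Sum.inl 2, true), (enc K (fun i => if i = 1 then y else 0) : ℤ))
          = some ((Sum.inr (Sum.inr (frag K G hG).src), false),
            (enc K (fun i => if i = 1 then y else 0) : ℤ)) := M.toRM_out hmk rfl
      have h2 : M.toRM.step ((Sum.inr (Sum.inr (frag K G hG).src), false),
            (enc K (fun i => if i = 1 then y else 0) : ℤ))
          = some ((Sum.inr (Sum.inr (frag K G hG).src), true),
            (enc K (fun i => if i = 1 then y else 0) : ℤ)) := M.toRM_in _ _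
      have h3 := nm_G (F := frag K Q hK) (G := frag K G hG) (h0 := hpos) (hG1 k)
      have h4 : Reaches M.toRM.step ((Sum.inr (Sum.inr (frag K G hG).src), true),
            (enc K (fun i => if i = 1 then y else 0) : ℤ))
          ((Sum.inr (Sum.inr (Sum.inl (Sum.inl (Sum.inr (Sum.inl
            (frag K D hB.2.2.1).tgt))))), true), (enc K (u k) : ℤ)) := by
        refine ReflTransGen.mono ?_ _ _ h3
        rintro a b ⟨hab, -⟩
        exact hab
      rw [e2] at h1 h2 h4
      exact ReflTransGen.head h1 (ReflTransGen.head h2 h4)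
    refine Set.infinite_of_injective_forall_mem (f := fun k =>
      (((Sum.inr (Sum.inr (Sum.inl (Sum.inl (Sum.inr (Sum.inl
            (frag K D hB.2.2.1).tgt))))), true), (enc K (u k) : ℤ)) : M.toRM.A × ℤ)) ?_ hM
    intro k l hkl
    have h1 : (enc K (u k) : ℤ) = (enc K (u l) : ℤ) := (Prod.ext_iff.1 hkl).2
    have h2 : enc K (u k) = enc K (u l) := by exact_mod_cast h1
    have h3 := enc_inj hpos _ rfl h2
    rw [(hu k).2.2.2.2, (hu l).2.2.2.2] at h3
    exact h3

end FBC
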