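import Pool.Agent.Lib.MP_c6644d_al.Alg2
import Pool.Agent.Lib.MP_c6644d_al.Bridge
import Pool.Agent.Lib.MP_c6644d_al.GMain
import Pool.Agent.Lib.MP_c6644d_al.Machine

/-!
MP_c6644d_al: final assembly.
-/

set_option autoImplicit false

namespace Pool.Agent.Lib.MP_c6644d_al

open StateTransition

theorem cw_append (u v : List (Fin 4 × Bool)) : cw (u ++ v) = cw u ++ cw v := List.map_append

theorem cw_le (w : List (Fin 4 × Bool)) : ∀ a ∈ cw w, a.1 ≤ 3 := by
  intro a ha
  obtain ⟨b, -, rfl⟩ := List.mem_map.1 ha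
  obtain ⟨i, s⟩ := b
  fin_cases i <;> simp [cl]

theorem testWords_eq (S0 : List (List (Fin 4 × Bool))) (w w' : List (Fin 4 × Bool)) (m : ℕ) :
    testWords (S0.map cw) (cw w) (cw [(2, true), (0, true), (2, false)]) (cw w') m =
      (S0 ++ [FBC.lastWord w w' (3 ^ (2 * m))]).map cw := by
  have h1 : cw (List.replicate (3 ^ (2 * m)) (3, true)) =
      List.replicate (3 ^ (2 * m)) (0, true) := by
    simp [cw, cl]
  have h2 : cw (List.replicate (3 ^ (2 * m)) (3, false)) =
      List.replicate (3 ^ (2 * m)) (0, false) := by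
    simp [cw, cl]
  rw [testWords, List.map_append, List.map_cons, List.map_nil, FBC.lastWord, cw_append, cw_append,
    cw_append, cw_append, h1, h2]

theorem sub_testWords (S0 : List (List (Fin 4 × Bool))) (w w' : List (Fin 4 × Bool)) (m : ℕ) :
    sub FBC.a3 (testWords (S0.map cw) (cw w) (cw [(2, true), (0, true), (2, false)]) (cw w') m) =
      FBC.evs (S0 ++ [FBC.lastWord w w' (3 ^ (2 * m))]) := by
  rw [testWords_eq, sub_cw]
  rfl

theorem no_abstract : NoAbstract FBC.a3 := by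
  obtain ⟨M, a0, mk, g, -, -, h3, -, h5, h6, h7, h8⟩ := FBC.exists_RM
  obtain ⟨S0, w, w', N0, hN0, hcount⟩ :=
    FBC.group_main M a0 mk h3 h5 ⟨3 ^ g 0, (h7 _).2 ⟨0, rfl⟩⟩
  have hreach : ∀ m : ℕ, Reaches M.step (a0, 1) (mk, ((3 ^ (2 * m) : ℕ) : ℤ)) ↔
      ∃ t, g t = 2 * m := by
    intro m
    rw [h7]
    constructor
    · rintro ⟨t, ht⟩
      refine ⟨t, ?_⟩
      have h : (3 : ℕ) ^ (2 * m) = 3 ^ g t := by exact_mod_cast ht
      exact (Nat.pow_right_injective (by norm_num) h).symm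
    · rintro ⟨t, ht⟩
      exact ⟨t, by rw [ht]; push_cast; rfl⟩
  refine noAbstract_of_card (S0.map cw) (cw w) (cw [(2, true), (0, true), (2, false)]) (cw w') ?_
    (fun m => ∃ t, g t = 2 * m) h6 N0 hN0 ?_ ?_
  · intro m v hv a ha
    rw [testWords_eq, List.mem_map] at hv
    obtain ⟨u, -, rfl⟩ := hv
    exact cw_le u a ha
  · intro m hm
    rw [sub_testWords]
    exact (hcount _).1 ((hreach m).2 hm)
  · intro m hm
    rw [sub_testWords]
    refine (hcount _).2 (fun h => hm ((hreach m).1 h)) ?_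
    have h := h8 (2 * m) (fun t ht => hm ⟨t, ht⟩)
    push_cast
    exact h

end Pool.Agent.Lib.MP_c6644d_al
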