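import Pool.Agent.Lib.MP_c6644d_al.Frag

set_option autoImplicit false

/-!
# MP_c6644d_al: the cyclic machine `init → head → F → mark → G → head`
-/

namespace FBC

open StateTransition Relation

/-- The marked points on a deterministic orbit. -/
theorem marks {σ : Type*} (f : σ → Option σ) (Mk : σ → Prop) (c0 : σ) (m n : ℕ → σ)
    (_hm : ∀ t, Mk (m t)) (h0 : ReflTransGen (fun a b => f a = some b ∧ ¬ Mk a) c0 (m 0))
    (hn : ∀ t, f (m t) = some (n t))
    (hs : ∀ t, ReflTransGen (fun a b => f a = some b ∧ ¬ Mk a) (n t) (m (t + 1)))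
    {c : σ} (hc : Mk c) : Reaches f c0 c ↔ ∃ t, c = m t := by
  have hmono : ∀ {a b : σ}, ReflTransGen (fun a b => f a = some b ∧ ¬ Mk a) a b →
      Reaches f a b := by
    intro a b h
    refine ReflTransGen.mono ?_ _ _ h
    rintro x y ⟨hxy, -⟩
    exact hxy
  constructor
  · intro h
    have key : ∀ t, ReflTransGen (fun a b => f a = some b ∧ ¬ Mk a) c0 (m t) →
        ∃ t', c = m t' := by
      refine ReflTransGen.head_induction_on (r := fun a b => b ∈ f a)
        (motive := fun x _ => ∀ t, ReflTransGen (fun a b => f a = some b ∧ ¬ Mk a) x (m t) →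
        ∃ t', c = m t') h ?_ ?_
      · intro t ht
        rcases ReflTransGen.cases_head ht with h1 | ⟨y, ⟨-, h1⟩, -⟩
        · exact ⟨t, h1⟩
        · exact (h1 hc).elim
      · intro x y hxy _ ih t ht
        have hxy' : f x = some y := hxy
        rcases ReflTransGen.cases_head ht with h1 | ⟨y', ⟨h1, -⟩, h2⟩
        · have h3 := hn t
          rw [← h1, hxy'] at h3
          have h4 : y = n t := Option.some.inj h3
          exact ih (t + 1) (h4 ▸ hs t)
        · rw [hxy'] at h1
          have h4 : y = y' := Option.some.inj h1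
          exact ih t (h4 ▸ h2)
    exact key 0 h0
  · rintro ⟨t, rfl⟩
    clear hc
    induction t with
    | zero => exact hmono h0
    | succ t ih => exact (ih.tail (hn t)).trans (hmono (hs t))

section Cyc

variable {K : ℕ} (F G : Frag K)

/-- edges of the cyclic machine -/
inductive CEdge : Fin 3 ⊕ (F.S ⊕ G.S) → Kind → Fin 3 ⊕ (F.S ⊕ G.S) → Prop
  | entry : CEdge (Sum.inl 0) (Kind.zero 0) (Sum.inl 1)
  | goF : CEdge (Sum.inl 1) Kind.nop (Sum.inr (Sum.inl F.src))
  | inF {a k b} : F.Edge a k b → CEdge (Sum.inr (Sum.inl a)) k (Sum.inr (Sum.inl b))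
  | mark : CEdge (Sum.inr (Sum.inl F.tgt)) Kind.nop (Sum.inl 2)
  | goG : CEdge (Sum.inl 2) Kind.nop (Sum.inr (Sum.inr G.src))
  | inG {a k b} : G.Edge a k b → CEdge (Sum.inr (Sum.inr a)) k (Sum.inr (Sum.inr b))
  | back : CEdge (Sum.inr (Sum.inr G.tgt)) (Kind.pos 0) (Sum.inl 1)

/-- The cyclic machine. -/
def cyc (h0 : 0 < K) : RCM where
  S := Fin 3 ⊕ (F.S ⊕ G.S)
  fin := by
    have := F.fin
    have := G.fin
    infer_instance
  K := K
  Edge := CEdge F G
  bd := by
    intro s k t h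
    cases h with
    | entry => exact h0
    | goF => trivial
    | inF h => exact F.bd h
    | mark => trivial
    | goG => trivial
    | inG h => exact G.bd h
    | back => exact h0
  det := by
    intro s k t k' t' h h'
    cases h with
    | entry =>
      cases h' with
      | entry => exact Or.inl ⟨rfl, rfl⟩
    | goF =>
      cases h' with
      | goF => exact Or.inl ⟨rfl, rfl⟩
    | inF h =>
      cases h' with
      | inF h' =>
        rcases F.det h h' with ⟨rfl, rfl⟩ | h1
        · exact Or.inl ⟨rfl, rfl⟩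
        · exact Or.inr h1
      | mark => exact (F.tgt_out h).elim
    | mark =>
      cases h' with
      | inF h' => exact (F.tgt_out h').elim
      | mark => exact Or.inl ⟨rfl, rfl⟩
    | goG =>
      cases h' with
      | goG => exact Or.inl ⟨rfl, rfl⟩
    | inG h =>
      cases h' with
      | inG h' =>
        rcases G.det h h' with ⟨rfl, rfl⟩ | h1
        · exact Or.inl ⟨rfl, rfl⟩
        · exact Or.inr h1
      | back => exact (G.tgt_out h).elim
    | back =>
      cases h' with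
      | inG h' => exact (G.tgt_out h').elim
      | back => exact Or.inl ⟨rfl, rfl⟩
  rev := by
    intro s k t k' s' h h'
    cases h with
    | entry =>
      cases h' with
      | entry => exact Or.inl ⟨rfl, rfl⟩
      | back => exact Or.inr rfl
    | goF =>
      cases h' with
      | goF => exact Or.inl ⟨rfl, rfl⟩
      | inF h' => exact (F.src_in h').elim
    | inF h =>
      cases h' with
      | inF h' =>
        rcases F.rev h h' with ⟨rfl, rfl⟩ | h1
        · exact Or.inl ⟨rfl, rfl⟩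
        · exact Or.inr h1
      | goF => exact (F.src_in h).elim
    | mark =>
      cases h' with
      | mark => exact Or.inl ⟨rfl, rfl⟩
    | goG =>
      cases h' with
      | inG h' => exact (G.src_in h').elim
      | goG => exact Or.inl ⟨rfl, rfl⟩
    | inG h =>
      cases h' with
      | inG h' =>
        rcases G.rev h h' with ⟨rfl, rfl⟩ | h1
        · exact Or.inl ⟨rfl, rfl⟩
        · exact Or.inr h1
      | goG => exact (G.src_in h).elim
    | back =>
      cases h' with
      | entry => exact Or.inr rfl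
      | back => exact Or.inl ⟨rfl, rfl⟩

variable {F G} {h0 : 0 < K}

/-- steps of the residue machine which do not start at the mark -/
def NM (F G : Frag K) (h0 : 0 < K) (a b : (cyc F G h0).toRM.A × ℤ) : Prop :=
  (cyc F G h0).toRM.step a = some b ∧ ¬ a.1 = (Sum.inl 2, true)

theorem nm_step {c c' : (cyc F G h0).S × (ℕ → ℕ)} (h : (cyc F G h0).Step c c')
    (hc : c.1 ≠ Sum.inl 2) :
    ReflTransGen (NM F G h0) ((c.1, true), (enc K c.2 : ℤ)) ((c'.1, true), (enc K c'.2 : ℤ)) := by
  obtain ⟨k, hk, hr⟩ := h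
  have h1 : NM F G h0 ((c.1, true), (enc K c.2 : ℤ)) ((c'.1, false), (enc K c'.2 : ℤ)) := by
    refine ⟨(cyc F G h0).toRM_out hk hr, ?_⟩
    intro h2
    exact hc (Prod.ext_iff.1 h2).1
  have h2 : NM F G h0 ((c'.1, false), (enc K c'.2 : ℤ)) ((c'.1, true), (enc K c'.2 : ℤ)) := by
    refine ⟨(cyc F G h0).toRM_in _ _, ?_⟩
    intro h2
    exact absurd (Prod.ext_iff.1 h2).2 (by simp)
  exact (ReflTransGen.single h1).tail h2

theorem nm_F {c c' : F.S × (ℕ → ℕ)} (h : ReflTransGen F.Step c c') :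
    ReflTransGen (NM F G h0) (((Sum.inr (Sum.inl c.1) : Fin 3 ⊕ (F.S ⊕ G.S)), true),
      (enc K c.2 : ℤ)) (((Sum.inr (Sum.inl c'.1) : Fin 3 ⊕ (F.S ⊕ G.S)), true),
      (enc K c'.2 : ℤ)) := by
  induction h with
  | refl => exact ReflTransGen.refl
  | @tail a b _ h ih =>
    obtain ⟨k, h1, h2⟩ := h
    refine ih.trans (nm_step (F := F) (G := G) (h0 := h0) (c := (Sum.inr (Sum.inl a.1), a.2))
      (c' := (Sum.inr (Sum.inl b.1), b.2)) ⟨k, CEdge.inF h1, h2⟩ ?_)
    exact Sum.inr_ne_inl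

theorem nm_G {c c' : G.S × (ℕ → ℕ)} (h : ReflTransGen G.Step c c') :
    ReflTransGen (NM F G h0) (((Sum.inr (Sum.inr c.1) : Fin 3 ⊕ (F.S ⊕ G.S)), true),
      (enc K c.2 : ℤ)) (((Sum.inr (Sum.inr c'.1) : Fin 3 ⊕ (F.S ⊕ G.S)), true),
      (enc K c'.2 : ℤ)) := by
  induction h with
  | refl => exact ReflTransGen.refl
  | @tail a b _ h ih =>
    obtain ⟨k, h1, h2⟩ := h
    refine ih.trans (nm_step (F := F) (G := G) (h0 := h0) (c := (Sum.inr (Sum.inr a.1), a.2))
      (c' := (Sum.inr (Sum.inr b.1), b.2)) ⟨k, CEdge.inG h1, h2⟩ ?_)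
    exact Sum.inr_ne_inl

theorem nm_head {r m : ℕ → ℕ} (hF : F.Run r m) :
    ReflTransGen (NM F G h0) (((Sum.inl 1 : Fin 3 ⊕ (F.S ⊕ G.S)), true), (enc K r : ℤ))
      (((Sum.inl 2 : Fin 3 ⊕ (F.S ⊕ G.S)), true), (enc K m : ℤ)) := by
  have h1 : ReflTransGen (NM F G h0) (((Sum.inl 1 : Fin 3 ⊕ (F.S ⊕ G.S)), true), (enc K r : ℤ))
      (((Sum.inr (Sum.inl F.src) : Fin 3 ⊕ (F.S ⊕ G.S)), true), (enc K r : ℤ)) :=
    nm_step (c := (Sum.inl 1, r)) (c' := (Sum.inr (Sum.inl F.src), r))
      ⟨Kind.nop, CEdge.goF, rfl⟩ (by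
        intro h
        have := Sum.inl.inj h
        exact absurd this (by decide))
  have h2 : ReflTransGen (NM F G h0) (((Sum.inr (Sum.inl F.tgt) : Fin 3 ⊕ (F.S ⊕ G.S)), true),
      (enc K m : ℤ)) (((Sum.inl 2 : Fin 3 ⊕ (F.S ⊕ G.S)), true), (enc K m : ℤ)) :=
    nm_step (c := (Sum.inr (Sum.inl F.tgt), m)) (c' := (Sum.inl 2, m))
      ⟨Kind.nop, CEdge.mark, rfl⟩ Sum.inr_ne_inl
  exact (h1.trans (nm_F hF)).trans h2

/-- The marked configurations on the orbit of `(init, enc (r 0))`. -/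
theorem cyc_marks (r m : ℕ → ℕ → ℕ) (hF : ∀ t, F.Run (r t) (m t))
    (hG : ∀ t, G.Run (m t) (r (t + 1))) (hr0 : r 0 0 = 0) (hr : ∀ t, r (t + 1) 0 ≠ 0) (v : ℤ) :
    Reaches (cyc F G h0).toRM.step ((Sum.inl 0, false), (enc K (r 0) : ℤ))
      ((Sum.inl 2, true), v) ↔ ∃ t, v = (enc K (m t) : ℤ) := by
  have key := marks (cyc F G h0).toRM.step (fun a => a.1 = (Sum.inl 2, true))
    ((Sum.inl 0, false), (enc K (r 0) : ℤ)) (fun t => ((Sum.inl 2, true), (enc K (m t) : ℤ)))
    (fun t => ((Sum.inr (Sum.inr G.src), false), (enc K (m t) : ℤ))) (fun t => rfl) ?_ ?_ ?_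
    (c := ((Sum.inl 2, true), v)) rfl
  · rw [key]
    constructor
    · rintro ⟨t, ht⟩
      exact ⟨t, (Prod.ext_iff.1 ht).2⟩
    · rintro ⟨t, ht⟩
      exact ⟨t, by rw [ht]⟩
  · have h1 : NM F G h0 ((Sum.inl 0, false), (enc K (r 0) : ℤ))
        ((Sum.inl 0, true), (enc K (r 0) : ℤ)) := by
      refine ⟨(cyc F G h0).toRM_in _ _, ?_⟩
      intro h2
      exact absurd (Prod.ext_iff.1 h2).2 (by simp)
    have h2 : ReflTransGen (NM F G h0) (((Sum.inl 0 : Fin 3 ⊕ (F.S ⊕ G.S)), true),
        (enc K (r 0) : ℤ)) (((Sum.inl 1 : Fin 3 ⊕ (F.S ⊕ G.S)), true), (enc K (r 0) : ℤ)) :=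
      nm_step (c := (Sum.inl 0, r 0)) (c' := (Sum.inl 1, r 0))
        ⟨Kind.zero 0, CEdge.entry, hr0, rfl⟩ (by
          intro h
          have := Sum.inl.inj h
          exact absurd this (by decide))
    exact ((ReflTransGen.single h1).trans h2).trans (nm_head (hF 0))
  · intro t
    exact (cyc F G h0).toRM_out (s := Sum.inl 2) (k := Kind.nop)
      (t := Sum.inr (Sum.inr G.src)) CEdge.goG rfl
  · intro t
    have h1 : NM F G h0 ((Sum.inr (Sum.inr G.src), false), (enc K (m t) : ℤ))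
        ((Sum.inr (Sum.inr G.src), true), (enc K (m t) : ℤ)) := by
      refine ⟨(cyc F G h0).toRM_in _ _, ?_⟩
      intro h2
      exact absurd (Prod.ext_iff.1 h2).2 (by simp)
    have h2 : ReflTransGen (NM F G h0) (((Sum.inr (Sum.inr G.tgt) : Fin 3 ⊕ (F.S ⊕ G.S)), true),
        (enc K (r (t + 1)) : ℤ)) (((Sum.inl 1 : Fin 3 ⊕ (F.S ⊕ G.S)), true),
        (enc K (r (t + 1)) : ℤ)) :=
      nm_step (c := (Sum.inr (Sum.inr G.tgt), r (t + 1))) (c' := (Sum.inl 1, r (t + 1)))
        ⟨Kind.pos 0, CEdge.back, hr t, rfl⟩ Sum.inr_ne_inl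
    exact (((ReflTransGen.single h1).trans (nm_G (hG t))).trans h2).trans (nm_head (hF (t + 1)))

end Cyc

open Pool.Agent.Lib.MP_c6644d_al

theorem below_inv {K : ℕ} (P : RProg) : P.Below K → P.inv.Below K := by
  induction P with
  | skip => exact fun h => h
  | inc i => exact fun h => h
  | dec i => exact fun h => h
  | seq P Q hP hQ => exact fun h => ⟨hQ h.2, hP h.1⟩
  | loop i D P j hD hP => exact fun h => ⟨h.2.1, h.1, hD h.2.2.1, hP h.2.2.2⟩

theorem below_mono {K L : ℕ} (hKL : K ≤ L) (P : RProg) : P.Below K → P.Below L := by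
  induction P with
  | skip => exact fun h => h
  | inc i => exact fun h => lt_of_lt_of_le h hKL
  | dec i => exact fun h => lt_of_lt_of_le h hKL
  | seq P Q hP hQ => exact fun h => ⟨hP h.1, hQ h.2⟩
  | loop i D P j hD hP =>
    exact fun h => ⟨lt_of_lt_of_le h.1 hKL, lt_of_lt_of_le h.2.1 hKL, hD h.2.2.1, hP h.2.2.2⟩

theorem exists_below (P : RProg) : ∃ K, P.Below K := by
  induction P with
  | skip => exact ⟨0, trivial⟩
  | inc i => exact ⟨i + 1, Nat.lt_succ_self i⟩
  | dec i => exact ⟨i + 1, Nat.lt_succ_self i⟩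
  | seq P Q hP hQ =>
    obtain ⟨K, hK⟩ := hP
    obtain ⟨L, hL⟩ := hQ
    exact ⟨max K L, below_mono (le_max_left _ _) P hK, below_mono (le_max_right _ _) Q hL⟩
  | loop i D P j hD hP =>
    obtain ⟨K, hK⟩ := hD
    obtain ⟨L, hL⟩ := hP
    refine ⟨max (max K L) (max (i + 1) (j + 1)), ?_, ?_, ?_, ?_⟩
    · exact lt_of_lt_of_le (Nat.lt_succ_self i)
        ((le_max_left _ _).trans (le_max_right _ _))
    · exact lt_of_lt_of_le (Nat.lt_succ_self j)
        ((le_max_right _ _).trans (le_max_right _ _))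
    · exact below_mono ((le_max_left _ _).trans (le_max_left _ _)) D hK
    · exact below_mono ((le_max_right _ _).trans (le_max_left _ _)) P hL

theorem enc_single {K i : ℕ} (hi : i < K) (n : ℕ) :
    enc K (fun j => if j = i then n else 0) = pr i ^ n := by
  unfold enc
  rw [Finset.prod_eq_single i]
  · simp
  · intro j _ hj
    simp [hj]
  · intro h
    exact (h (Finset.mem_range.2 hi)).elim

/-- **The machine layer.** If `Q` is a structured reversible program with
`Q (t, 0, 0, …) = (0, g t, 0, …)` for all `t` then there is a residue machine with an initial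
vertex `a0` and a vertex `mk` such that the orbit of `(a0, 1)` passes through `(mk, v)` exactly for
`v = 3 ^ g t`. -/
theorem exists_machine (Q : RProg) (g : ℕ → ℕ)
    (hQ : ∀ t, RProg.Ev Q (fun i => if i = 0 then t else 0) (fun i => if i = 1 then g t else 0)) :
    ∃ (M : RM) (a0 mk : M.A), M.p a0 = 1 ∧ M.q a0 = 1 ∧ M.p mk = 1 ∧ M.q mk = 1 ∧
      (∀ c n, M.step c ≠ some (a0, n)) ∧
      ∀ v : ℤ, Reaches M.step (a0, 1) (mk, v) ↔ ∃ t, v = 3 ^ g t := by
  obtain ⟨K0, hK0⟩ := exists_below Q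
  obtain ⟨K, hK, hK2⟩ : ∃ K, Q.Below K ∧ 2 ≤ K :=
    ⟨max K0 2, below_mono (le_max_left _ _) Q hK0, le_max_right _ _⟩
  have hpos : 0 < K := by omega
  let G : RProg := RProg.seq Q.inv (RProg.inc 0)
  have hG : G.Below K := ⟨below_inv Q hK, hpos⟩
  let M : RCM := cyc (frag K Q hK) (frag K G hG) hpos
  have hin : ∀ (k : Kind) (s : M.S), ¬ M.Edge s k (Sum.inl 0) := by
    intro k s h
    have h' : CEdge (frag K Q hK) (frag K G hG) s k (Sum.inl 0) := h
    cases h'
  have hmk : M.Edge (Sum.inl 2) Kind.nop (Sum.inr (Sum.inr (frag K G hG).src)) := CEdge.goG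
  refine ⟨M.toRM, (Sum.inl 0, false), (Sum.inl 2, true), M.toRM_p_in _, M.toRM_q_in_one hin,
    M.toRM_p_out hmk, M.toRM_q_out _, ?_, ?_⟩
  · intro c n
    exact M.toRM.step_ne (fun a μ ν => M.toRM_start hin a μ ν) c n
  · intro v
    have key := cyc_marks (F := frag K Q hK) (G := frag K G hG) (h0 := hpos)
      (fun t i => if i = 0 then t else 0) (fun t i => if i = 1 then g t else 0)
      (fun t => frag_run Q hK (hQ t)) ?_ (by simp) (by simp) v
    · have e1 : (enc K (fun i => if i = 0 then 0 else 0) : ℤ) = 1 := by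
        rw [enc_single hpos]
        simp
      rw [e1] at key
      refine key.trans ?_
      have e2 : ∀ t, (enc K (fun i => if i = 1 then g t else 0) : ℤ) = 3 ^ g t := by
        intro t
        rw [enc_single (by omega : 1 < K), pr_one]
        push_cast
        rfl
      simp only [e2]
    · intro t
      apply frag_run
      refine ⟨_, (hQ t).inv, ?_⟩
      show _ = _
      funext i
      by_cases hi : i = 0
      · subst hi
        simp
      · simp [hi]

end FBC
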