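import Mathlib

/-!
# Structured reversible programs over registers

States are functions `ℕ → ℕ` (register contents). `loop i D P j` is the reversible loop
from `r_i = 0` do `D` loop `P` until `r_j = 0`: the entry requires `r_i = 0`, then `D` is
executed; if `r_j = 0` the loop is left, otherwise `P` is executed, after which `r_i ≠ 0` is
required, then `D` again, and so on.
-/

namespace Pool.Agent.Lib.MP_c6644d_al

/-- Structured reversible programs. -/
inductive RProg : Type
  | skip : RProg
  | inc (i : ℕ) : RProg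
  | dec (i : ℕ) : RProg
  | seq (P Q : RProg) : RProg
  | loop (i : ℕ) (D P : RProg) (j : ℕ) : RProg
  deriving DecidableEq, Repr

namespace RProg

/-- Big-step semantics of a reversible program. -/
def Ev : RProg → (ℕ → ℕ) → (ℕ → ℕ) → Prop
  | skip, s, s' => s' = s
  | inc i, s, s' => s' = Function.update s i (s i + 1)
  | dec i, s, s' => s i ≠ 0 ∧ s' = Function.update s i (s i - 1)
  | seq P Q, s, s' => ∃ m, Ev P s m ∧ Ev Q m s'
  | loop i D P j, s, s' => s i = 0 ∧ s' j = 0 ∧ ∃ u, Ev D s u ∧
      Relation.ReflTransGen (fun a b => a j ≠ 0 ∧ ∃ c, Ev P a c ∧ c i ≠ 0 ∧ Ev D c b) u s'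

/-- The inverse program. -/
def inv : RProg → RProg
  | skip => skip
  | inc i => dec i
  | dec i => inc i
  | seq P Q => seq (inv Q) (inv P)
  | loop i D P j => loop j (inv D) (inv P) i

theorem inv_inv (P : RProg) : inv (inv P) = P := by
  induction P with
  | skip => rfl
  | inc i => rfl
  | dec i => rfl
  | seq P Q hP hQ => simp [inv, hP, hQ]
  | loop i D P j hD hP => simp [inv, hP, hD]

theorem Ev.inv {P : RProg} : ∀ {a b : ℕ → ℕ}, Ev P a b → Ev (inv P) b a := by
  induction P with
  | skip => intro a b h; exact h.symm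
  | inc i =>
    intro a b h
    simp only [Ev] at h
    subst h
    refine ⟨by simp, ?_⟩
    funext k
    by_cases hk : k = i
    · subst hk; simp
    · simp [Function.update_of_ne hk]
  | dec i =>
    intro a b h
    obtain ⟨h0, h⟩ := h
    subst h
    show a = _
    funext k
    by_cases hk : k = i
    · subst hk; simp; omega
    · simp [Function.update_of_ne hk]
  | seq P Q hP hQ =>
    intro a b h
    obtain ⟨m, h1, h2⟩ := h
    exact ⟨m, hQ h2, hP h1⟩
  | loop i D P j hD hP =>
    intro a b h
    obtain ⟨h1, h2, u, hu, hr⟩ := h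
    refine ⟨h2, h1, ?_⟩
    clear h2
    induction hr with
    | refl => exact ⟨a, hD hu, Relation.ReflTransGen.refl⟩
    | tail _ hs ih =>
      obtain ⟨w, hw, hr'⟩ := ih
      obtain ⟨h3, c, hc1, hc2, hc3⟩ := hs
      exact ⟨c, hD hc3, Relation.ReflTransGen.head ⟨hc2, _, hP hc1, h3, hw⟩ hr'⟩

/-- The inverse program computes the inverse relation. -/
theorem ev_inv_iff {P : RProg} {a b : ℕ → ℕ} : Ev (inv P) b a ↔ Ev P a b :=
  ⟨fun h => by simpa [inv_inv] using h.inv, fun h => h.inv⟩

/-- All registers mentioned in the program are `< N`. -/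
def Below (N : ℕ) : RProg → Prop
  | skip => True
  | inc i => i < N
  | dec i => i < N
  | seq P Q => Below N P ∧ Below N Q
  | loop i D P j => i < N ∧ j < N ∧ Below N D ∧ Below N P

end RProg

end Pool.Agent.Lib.MP_c6644d_al
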