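import Pool.Agent.Lib.MP_c6644d_al.RCM
import Pool.Agent.Lib.MP_c6644d_al.RProg

set_option autoImplicit false

/-!
# MP_c6644d_al: fragments of reversible counter machines and the compilation of `RProg`
-/

namespace FBC

open StateTransition Relation

/-- A fragment of a reversible counter machine with one entrance and one exit. -/
structure Frag (K : ℕ) where
  S : Type
  fin : Finite S
  src : S
  tgt : S
  Edge : S → Kind → S → Prop
  bd : ∀ {s k t}, Edge s k t → k.Bd K
  det : ∀ {s k t k' t'}, Edge s k t → Edge s k' t' → (k = k' ∧ t = t') ∨ Kind.Compat k k'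
  rev : ∀ {s k t k' s'}, Edge s k t → Edge s' k' t → (k = k' ∧ s = s') ∨ Kind.Compat k k'
  src_in : ∀ {s k}, ¬ Edge s k src
  tgt_out : ∀ {k t}, ¬ Edge tgt k t

namespace Frag

variable {K : ℕ}

/-- one step -/
def Step (F : Frag K) (c c' : F.S × (ℕ → ℕ)) : Prop := ∃ k, F.Edge c.1 k c'.1 ∧ k.Rel c.2 c'.2

/-- run from the entrance to the exit -/
def Run (F : Frag K) (r r' : ℕ → ℕ) : Prop := ReflTransGen F.Step (F.src, r) (F.tgt, r')

/-- the trivial fragment -/
def skip (K : ℕ) : Frag K where
  S := Unit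
  fin := inferInstance
  src := ()
  tgt := ()
  Edge := fun _ _ _ => False
  bd := fun h => h.elim
  det := fun h => h.elim
  rev := fun h => h.elim
  src_in := fun h => h
  tgt_out := fun h => h

theorem skip_run (r : ℕ → ℕ) : (skip K).Run r r := ReflTransGen.refl

/-- a single operation -/
def single (k : Kind) (hk : k.Bd K) : Frag K where
  S := Bool
  fin := inferInstance
  src := false
  tgt := true
  Edge := fun s k' t => s = false ∧ k' = k ∧ t = true
  bd := by
    rintro s k t ⟨-, rfl, -⟩
    exact hk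
  det := by
    rintro s k t k' t' ⟨-, rfl, rfl⟩ ⟨-, rfl, rfl⟩
    exact Or.inl ⟨rfl, rfl⟩
  rev := by
    rintro s k t k' t' ⟨rfl, rfl, -⟩ ⟨rfl, rfl, -⟩
    exact Or.inl ⟨rfl, rfl⟩
  src_in := by simp
  tgt_out := by simp

theorem single_run {k : Kind} (hk : k.Bd K) {r r' : ℕ → ℕ} (h : k.Rel r r') :
    (single k hk).Run r r' :=
  ReflTransGen.single ⟨k, ⟨rfl, rfl, rfl⟩, h⟩

/-- edges of a composition -/
inductive SEdge (F G : Frag K) : F.S ⊕ G.S → Kind → F.S ⊕ G.S → Prop
  | inF {a k b} : F.Edge a k b → SEdge F G (Sum.inl a) k (Sum.inl b)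
  | go : SEdge F G (Sum.inl F.tgt) Kind.nop (Sum.inr G.src)
  | inG {a k b} : G.Edge a k b → SEdge F G (Sum.inr a) k (Sum.inr b)

/-- composition of fragments -/
def seq (F G : Frag K) : Frag K where
  S := F.S ⊕ G.S
  fin := by
    have := F.fin
    have := G.fin
    infer_instance
  src := Sum.inl F.src
  tgt := Sum.inr G.tgt
  Edge := SEdge F G
  bd := by
    intro s k t h
    cases h with
    | inF h => exact F.bd h
    | go => trivial
    | inG h => exact G.bd h
  det := by
    intro s k t k' t' h h'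
    cases h with
    | inF h =>
      cases h' with
      | inF h' =>
        rcases F.det h h' with ⟨rfl, rfl⟩ | h1
        · exact Or.inl ⟨rfl, rfl⟩
        · exact Or.inr h1
      | go => exact (F.tgt_out h).elim
    | go =>
      cases h' with
      | inF h' => exact (F.tgt_out h').elim
      | go => exact Or.inl ⟨rfl, rfl⟩
    | inG h =>
      cases h' with
      | inG h' =>
        rcases G.det h h' with ⟨rfl, rfl⟩ | h1
        · exact Or.inl ⟨rfl, rfl⟩
        · exact Or.inr h1
  rev := by
    intro s k t k' t' h h'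
    cases h with
    | inF h =>
      cases h' with
      | inF h' =>
        rcases F.rev h h' with ⟨rfl, rfl⟩ | h1
        · exact Or.inl ⟨rfl, rfl⟩
        · exact Or.inr h1
    | go =>
      cases h' with
      | inG h' => exact (G.src_in h').elim
      | go => exact Or.inl ⟨rfl, rfl⟩
    | inG h =>
      cases h' with
      | inG h' =>
        rcases G.rev h h' with ⟨rfl, rfl⟩ | h1
        · exact Or.inl ⟨rfl, rfl⟩
        · exact Or.inr h1
      | go => exact (G.src_in h).elim
  src_in := by
    intro s k h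
    cases h with
    | inF h => exact F.src_in h
  tgt_out := by
    intro k t h
    cases h with
    | inG h => exact G.tgt_out h

theorem seq_left {F G : Frag K} {c c' : F.S × (ℕ → ℕ)} (h : ReflTransGen F.Step c c') :
    ReflTransGen (seq F G).Step (Sum.inl c.1, c.2) (Sum.inl c'.1, c'.2) := by
  induction h with
  | refl => exact ReflTransGen.refl
  | tail _ h ih =>
    obtain ⟨k, h1, h2⟩ := h
    exact ih.tail ⟨k, SEdge.inF h1, h2⟩

theorem seq_right {F G : Frag K} {c c' : G.S × (ℕ → ℕ)} (h : ReflTransGen G.Step c c') :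
    ReflTransGen (seq F G).Step (Sum.inr c.1, c.2) (Sum.inr c'.1, c'.2) := by
  induction h with
  | refl => exact ReflTransGen.refl
  | tail _ h ih =>
    obtain ⟨k, h1, h2⟩ := h
    exact ih.tail ⟨k, SEdge.inG h1, h2⟩

theorem seq_run {F G : Frag K} {r m r' : ℕ → ℕ} (h : F.Run r m) (h' : G.Run m r') :
    (seq F G).Run r r' := by
  have h1 := seq_left (G := G) h
  have h2 := seq_right (F := F) h'
  have h3 : (seq F G).Step (Sum.inl F.tgt, m) (Sum.inr G.src, m) := ⟨Kind.nop, SEdge.go, rfl⟩
  exact (h1.tail h3).trans h2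

/-- edges of a loop -/
inductive LEdge (D P : Frag K) (i j : ℕ) :
    Fin 3 ⊕ (D.S ⊕ P.S) → Kind → Fin 3 ⊕ (D.S ⊕ P.S) → Prop
  | entry : LEdge D P i j (Sum.inl 0) (Kind.zero i) (Sum.inl 1)
  | goD : LEdge D P i j (Sum.inl 1) Kind.nop (Sum.inr (Sum.inl D.src))
  | inD {a k b} : D.Edge a k b → LEdge D P i j (Sum.inr (Sum.inl a)) k (Sum.inr (Sum.inl b))
  | exit : LEdge D P i j (Sum.inr (Sum.inl D.tgt)) (Kind.zero j) (Sum.inl 2)
  | goP : LEdge D P i j (Sum.inr (Sum.inl D.tgt)) (Kind.pos j) (Sum.inr (Sum.inr P.src))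
  | inP {a k b} : P.Edge a k b → LEdge D P i j (Sum.inr (Sum.inr a)) k (Sum.inr (Sum.inr b))
  | back : LEdge D P i j (Sum.inr (Sum.inr P.tgt)) (Kind.pos i) (Sum.inl 1)

/-- the reversible loop from `r i = 0` do `D` loop `P` until `r j = 0` -/
def loop (i : ℕ) (D P : Frag K) (j : ℕ) (hi : i < K) (hj : j < K) : Frag K where
  S := Fin 3 ⊕ (D.S ⊕ P.S)
  fin := by
    have := D.fin
    have := P.fin
    infer_instance
  src := Sum.inl 0
  tgt := Sum.inl 2
  Edge := LEdge D P i j
  bd := by
    intro s k t h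
    cases h with
    | entry => exact hi
    | goD => trivial
    | inD h => exact D.bd h
    | exit => exact hj
    | goP => exact hj
    | inP h => exact P.bd h
    | back => exact hi
  det := by
    intro s k t k' t' h h'
    cases h with
    | entry =>
      cases h' with
      | entry => exact Or.inl ⟨rfl, rfl⟩
    | goD =>
      cases h' with
      | goD => exact Or.inl ⟨rfl, rfl⟩
    | inD h =>
      cases h' with
      | inD h' =>
        rcases D.det h h' with ⟨rfl, rfl⟩ | h1
        · exact Or.inl ⟨rfl, rfl⟩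
        · exact Or.inr h1
      | exit => exact (D.tgt_out h).elim
      | goP => exact (D.tgt_out h).elim
    | exit =>
      cases h' with
      | inD h' => exact (D.tgt_out h').elim
      | exit => exact Or.inl ⟨rfl, rfl⟩
      | goP => exact Or.inr rfl
    | goP =>
      cases h' with
      | inD h' => exact (D.tgt_out h').elim
      | exit => exact Or.inr rfl
      | goP => exact Or.inl ⟨rfl, rfl⟩
    | inP h =>
      cases h' with
      | inP h' =>
        rcases P.det h h' with ⟨rfl, rfl⟩ | h1
        · exact Or.inl ⟨rfl, rfl⟩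
        · exact Or.inr h1
      | back => exact (P.tgt_out h).elim
    | back =>
      cases h' with
      | inP h' => exact (P.tgt_out h').elim
      | back => exact Or.inl ⟨rfl, rfl⟩
  rev := by
    intro s k t k' s' h h'
    cases h with
    | entry =>
      cases h' with
      | entry => exact Or.inl ⟨rfl, rfl⟩
      | back => exact Or.inr rfl
    | goD =>
      cases h' with
      | goD => exact Or.inl ⟨rfl, rfl⟩
      | inD h' => exact (D.src_in h').elim
    | inD h =>
      cases h' with
      | inD h' =>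
        rcases D.rev h h' with ⟨rfl, rfl⟩ | h1
        · exact Or.inl ⟨rfl, rfl⟩
        · exact Or.inr h1
      | goD => exact (D.src_in h).elim
    | exit =>
      cases h' with
      | exit => exact Or.inl ⟨rfl, rfl⟩
    | goP =>
      cases h' with
      | inP h' => exact (P.src_in h').elim
      | goP => exact Or.inl ⟨rfl, rfl⟩
    | inP h =>
      cases h' with
      | inP h' =>
        rcases P.rev h h' with ⟨rfl, rfl⟩ | h1
        · exact Or.inl ⟨rfl, rfl⟩
        · exact Or.inr h1
      | goP => exact (P.src_in h).elim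
    | back =>
      cases h' with
      | entry => exact Or.inr rfl
      | back => exact Or.inl ⟨rfl, rfl⟩
  src_in := by
    intro s k h
    cases h
  tgt_out := by
    intro k t h
    cases h

section Loop

variable {D P : Frag K} {i j : ℕ} {hi : i < K} {hj : j < K}

theorem loop_D {c c' : D.S × (ℕ → ℕ)} (h : ReflTransGen D.Step c c') :
    ReflTransGen (loop i D P j hi hj).Step (Sum.inr (Sum.inl c.1), c.2)
      (Sum.inr (Sum.inl c'.1), c'.2) := by
  induction h with
  | refl => exact ReflTransGen.refl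
  | tail _ h ih =>
    obtain ⟨k, h1, h2⟩ := h
    exact ih.tail ⟨k, LEdge.inD h1, h2⟩

theorem loop_P {c c' : P.S × (ℕ → ℕ)} (h : ReflTransGen P.Step c c') :
    ReflTransGen (loop i D P j hi hj).Step (Sum.inr (Sum.inr c.1), c.2)
      (Sum.inr (Sum.inr c'.1), c'.2) := by
  induction h with
  | refl => exact ReflTransGen.refl
  | tail _ h ih =>
    obtain ⟨k, h1, h2⟩ := h
    exact ih.tail ⟨k, LEdge.inP h1, h2⟩

theorem loop_run {r u r' : ℕ → ℕ} (h0 : r i = 0) (h1 : r' j = 0) (hu : D.Run r u)
    (h : ReflTransGen (fun a b => a j ≠ 0 ∧ ∃ c, P.Run a c ∧ c i ≠ 0 ∧ D.Run c b) u r') :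
    (loop i D P j hi hj).Run r r' := by
  have e1 : (loop i D P j hi hj).Step (Sum.inl 0, r) (Sum.inl 1, r) :=
    ⟨Kind.zero i, LEdge.entry, h0, rfl⟩
  have e2 : ∀ x : ℕ → ℕ, (loop i D P j hi hj).Step (Sum.inl 1, x) (Sum.inr (Sum.inl D.src), x) :=
    fun x => ⟨Kind.nop, LEdge.goD, rfl⟩
  have e3 : ReflTransGen (loop i D P j hi hj).Step (Sum.inl 0, r)
      (Sum.inr (Sum.inl D.tgt), u) :=
    ((ReflTransGen.single e1).tail (e2 r)).trans (loop_D hu)
  have e4 : ReflTransGen (loop i D P j hi hj).Step (Sum.inl 0, r)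
      (Sum.inr (Sum.inl D.tgt), r') := by
    clear h1
    induction h with
    | refl => exact e3
    | @tail a b _ hab ih =>
      obtain ⟨ha, c, hc1, hc2, hc3⟩ := hab
      have f1 : (loop i D P j hi hj).Step (Sum.inr (Sum.inl D.tgt), a)
        (Sum.inr (Sum.inr P.src), a) := ⟨Kind.pos j, LEdge.goP, ha, rfl⟩
      have f2 : (loop i D P j hi hj).Step (Sum.inr (Sum.inr P.tgt), c)
        (Sum.inl 1, c) := ⟨Kind.pos i, LEdge.back, hc2, rfl⟩
      exact ((((ih.tail f1).trans (loop_P hc1)).tail f2).tail (e2 c)).trans (loop_D hc3)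
  exact e4.tail ⟨Kind.zero j, LEdge.exit, h1, rfl⟩

end Loop

end Frag

open Pool.Agent.Lib.MP_c6644d_al

/-- compilation of a structured reversible program -/
def frag (K : ℕ) : (P : RProg) → P.Below K → Frag K
  | RProg.skip, _ => Frag.skip K
  | RProg.inc i, h => Frag.single (Kind.inc i) h
  | RProg.dec i, h => Frag.single (Kind.dec i) h
  | RProg.seq P Q, h => Frag.seq (frag K P h.1) (frag K Q h.2)
  | RProg.loop i D P j, h =>
    Frag.loop i (frag K D h.2.2.1) (frag K P h.2.2.2) j h.1 h.2.1

theorem frag_run {K : ℕ} (P : RProg) : ∀ (h : P.Below K) {r r' : ℕ → ℕ}, RProg.Ev P r r' →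
    (frag K P h).Run r r' := by
  induction P with
  | skip =>
    intro h r r' he
    have : r' = r := he
    subst this
    exact Frag.skip_run _
  | inc i =>
    intro h r r' he
    exact Frag.single_run (k := Kind.inc i) h he
  | dec i =>
    intro h r r' he
    exact Frag.single_run (k := Kind.dec i) h he
  | seq P Q hP hQ =>
    intro h r r' he
    obtain ⟨m, h1, h2⟩ := he
    exact Frag.seq_run (hP h.1 h1) (hQ h.2 h2)
  | loop i D P j hD hP =>
    intro h r r' he
    obtain ⟨h1, h2, u, hu, hr⟩ := he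
    refine Frag.loop_run h1 h2 (hD h.2.2.1 hu) ?_
    refine ReflTransGen.mono ?_ _ _ hr
    rintro a b ⟨ha, c, hc1, hc2, hc3⟩
    exact ⟨ha, c, hP h.2.2.2 hc1, hc2, hD h.2.2.1 hc3⟩

end FBC
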