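import Mathlib

set_option autoImplicit false

/-!
# MP_c6644d_al: residue machines

A residue machine has finitely many vertices `a`, with positive integers `p a`, `q a` (one of them
equal to `1`), and a partial injection `del` from the pairs `(a, μ)`, `μ < p a`, to the pairs
`(b, ν)`, `ν < q b`. A configuration is a pair `(a, n)` with `n : ℤ`; if `n = p a * k + μ` and
`del a μ = (b, ν)` then the next configuration is `(b, q b * k + ν)`.
-/

namespace FBC

open StateTransition

/-- A residue machine. -/
structure RM where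
  /-- vertices -/
  A : Type
  fin : Finite A
  p : A → ℕ
  q : A → ℕ
  hp : ∀ a, 0 < p a
  hq : ∀ a, 0 < q a
  h1 : ∀ a, p a = 1 ∨ q a = 1
  /-- the partial injection -/
  del : A → ℕ → Option (A × ℕ)
  lt : ∀ {a μ b ν}, del a μ = some (b, ν) → μ < p a ∧ ν < q b
  inj : ∀ {a μ a' μ' x}, del a μ = some x → del a' μ' = some x → a = a' ∧ μ = μ'

namespace RM

/-- One step of a residue machine. -/
def step (M : RM) (c : M.A × ℤ) : Option (M.A × ℤ) :=
  (M.del c.1 (c.2 % (M.p c.1 : ℤ)).toNat).map
    fun x => (x.1, (M.q x.1 : ℤ) * (c.2 / (M.p c.1 : ℤ)) + (x.2 : ℤ))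

theorem step_eq_some (M : RM) {a : M.A} {n : ℤ} {b : M.A} {m : ℤ} :
    M.step (a, n) = some (b, m) ↔
      ∃ (k : ℤ) (μ ν : ℕ), M.del a μ = some (b, ν) ∧ n = M.p a * k + μ ∧ m = M.q b * k + ν := by
  have hpa : (0 : ℤ) < (M.p a : ℤ) := by exact_mod_cast M.hp a
  constructor
  · intro h
    simp only [step, Option.map_eq_some_iff, Prod.exists, Prod.mk.injEq] at h
    obtain ⟨b', ν, h1, rfl, rfl⟩ := h
    refine ⟨n / M.p a, (n % (M.p a : ℤ)).toNat, ν, h1, ?_, rfl⟩
    have h0 : 0 ≤ n % (M.p a : ℤ) := Int.emod_nonneg _ hpa.ne'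
    rw [Int.toNat_of_nonneg h0]
    exact (Int.mul_ediv_add_emod n _).symm
  · rintro ⟨k, μ, ν, h, rfl, rfl⟩
    have hμ : μ < M.p a := (M.lt h).1
    have hμ' : (μ : ℤ) < (M.p a : ℤ) := by exact_mod_cast hμ
    have e1 : ((M.p a : ℤ) * k + μ) % (M.p a : ℤ) = μ := by
      rw [Int.mul_add_emod_self_left]
      exact Int.emod_eq_of_lt (by positivity) hμ'
    have e2 : ((M.p a : ℤ) * k + μ) / (M.p a : ℤ) = k := by
      rw [Int.add_comm, Int.add_mul_ediv_left _ _ hpa.ne', Int.ediv_eq_zero_of_lt (by positivity) hμ',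
        zero_add]
    simp only [step, e1, e2, Int.toNat_natCast, h, Option.map_some]

theorem step_none (M : RM) {a : M.A} (h : ∀ μ, M.del a μ = none) (n : ℤ) :
    M.step (a, n) = none := by
  simp [step, h]

theorem step_ne (M : RM) {b : M.A} (h : ∀ a μ ν, M.del a μ ≠ some (b, ν)) (c : M.A × ℤ) (m : ℤ) :
    M.step c ≠ some (b, m) := by
  obtain ⟨a, n⟩ := c
  intro hc
  obtain ⟨k, μ, ν, h', -⟩ := M.step_eq_some.1 hc
  exact h a μ ν h'

section Mirror

open Classical

variable (M : RM) (H : M.A) (hH : M.p H = 1) (hno : ∀ μ, M.del H μ = none)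

/-- The machine `M`, followed (at the vertex `H`) by the inverse of `M`. -/
noncomputable def mirror : RM where
  A := M.A ⊕ M.A
  fin := by
    have := M.fin
    infer_instance
  p := Sum.elim M.p M.q
  q := Sum.elim M.q M.p
  hp := by
    rintro (a | a)
    · exact M.hp a
    · exact M.hq a
  hq := by
    rintro (a | a)
    · exact M.hq a
    · exact M.hp a
  h1 := by
    rintro (a | a)
    · exact M.h1 a
    · exact (M.h1 a).symm
  del := fun s μ => match s with
    | Sum.inl a => if a = H ∧ μ = 0 then some (Sum.inr H, 0)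
        else (M.del a μ).map fun x => (Sum.inl x.1, x.2)
    | Sum.inr b => if h : ∃ x : M.A × ℕ, M.del x.1 x.2 = some (b, μ)
        then some (Sum.inr h.choose.1, h.choose.2) else none
  lt := by
    rintro (a | a) μ (b | b) ν h
    · simp only at h
      split_ifs at h with hc
      · simp at h
      · simp only [Option.map_eq_some_iff, Prod.exists, Prod.mk.injEq, Sum.inl.injEq] at h
        obtain ⟨b', ν', h1, rfl, rfl⟩ := h
        exact M.lt h1
    · simp only at h
      split_ifs at h with hc
      · simp only [Option.some.injEq, Prod.mk.injEq, Sum.inr.injEq] at h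
        obtain ⟨rfl, rfl⟩ := h
        obtain ⟨rfl, rfl⟩ := hc
        exact ⟨M.hp _, M.hp _⟩
      · simp at h
    · simp only at h
      split_ifs at h with hc
      simp at h
    · simp only at h
      split_ifs at h with hc
      simp only [Option.some.injEq, Prod.mk.injEq, Sum.inr.injEq] at h
      obtain ⟨rfl, rfl⟩ := h
      exact (M.lt hc.choose_spec).symm
  inj := by
    rintro (a | a) μ (a' | a') μ' ⟨(b | b), ν⟩ h h'
    · simp only at h h'
      split_ifs at h with hc
      · simp at h
      split_ifs at h' with hc'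
      · simp at h'
      simp only [Option.map_eq_some_iff, Prod.exists, Prod.mk.injEq, Sum.inl.injEq] at h h'
      obtain ⟨b1, ν1, h1, rfl, rfl⟩ := h
      obtain ⟨b2, ν2, h2, rfl, rfl⟩ := h'
      obtain ⟨rfl, rfl⟩ := M.inj h1 h2
      exact ⟨rfl, rfl⟩
    · simp only at h h'
      split_ifs at h with hc
      · split_ifs at h' with hc'
        · obtain ⟨rfl, rfl⟩ := hc
          obtain ⟨rfl, rfl⟩ := hc'
          exact ⟨rfl, rfl⟩
        · simp at h'
      · simp at h
    · simp only at h h'
      split_ifs at h with hc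
      · simp at h
      · split_ifs at h' with hc'
        simp at h'
    · simp only at h h'
      split_ifs at h with hc
      · split_ifs at h' with hc'
        simp only [Option.some.injEq, Prod.mk.injEq, Sum.inr.injEq] at h h'
        exfalso
        have e := hc'.choose_spec
        rw [h'.1, ← h.1, hno] at e
        simp at e
      · simp at h
    · simp only at h h'
      split_ifs at h with hc
      simp at h
    · simp only at h h'
      split_ifs at h' with hc'
      · split_ifs at h with hc
        simp only [Option.some.injEq, Prod.mk.injEq, Sum.inr.injEq] at h h'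
        exfalso
        have e := hc.choose_spec
        rw [h.1, ← h'.1, hno] at e
        simp at e
      · simp at h'
    · simp only at h h'
      split_ifs at h with hc
      simp at h
    · simp only at h h'
      split_ifs at h with hc
      split_ifs at h' with hc'
      simp only [Option.some.injEq, Prod.mk.injEq, Sum.inr.injEq] at h h'
      have e := hc.choose_spec
      have e' := hc'.choose_spec
      rw [h.1, h.2] at e
      rw [h'.1, h'.2, e] at e'
      simp only [Option.some.injEq, Prod.mk.injEq] at e'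
      exact ⟨by rw [e'.1], e'.2⟩

theorem mirror_inl {a : M.A} {n : ℤ} {b : M.A} {m : ℤ} (h : M.step (a, n) = some (b, m)) :
    (M.mirror H hH hno).step (Sum.inl a, n) = some (Sum.inl b, m) := by
  obtain ⟨k, μ, ν, hd, hn, hm⟩ := M.step_eq_some.1 h
  refine ((M.mirror H hH hno).step_eq_some).2 ⟨k, μ, ν, ?_, hn, hm⟩
  have hc : ¬ (a = H ∧ μ = 0) := by
    rintro ⟨rfl, rfl⟩
    rw [hno] at hd
    simp at hd
  simp only [mirror, hc, if_false, hd, Option.map_some]

theorem mirror_link (n : ℤ) :
    (M.mirror H hH hno).step (Sum.inl H, n) = some (Sum.inr H, n) := by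
  refine ((M.mirror H hH hno).step_eq_some).2 ⟨n, 0, 0, ?_, ?_, ?_⟩
  · simp [mirror]
  · simp [mirror, hH]
  · simp [mirror, hH]

theorem mirror_inr {a : M.A} {n : ℤ} {b : M.A} {m : ℤ} (h : M.step (a, n) = some (b, m)) :
    (M.mirror H hH hno).step (Sum.inr b, m) = some (Sum.inr a, n) := by
  obtain ⟨k, μ, ν, hd, hn, hm⟩ := M.step_eq_some.1 h
  refine ((M.mirror H hH hno).step_eq_some).2 ⟨k, ν, μ, ?_, hm, hn⟩
  have hc : ∃ x : M.A × ℕ, M.del x.1 x.2 = some (b, ν) := ⟨(a, μ), hd⟩
  have e := M.inj hc.choose_spec hd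
  simp only [mirror, hc, dif_pos]
  rw [← e.1, ← e.2]

theorem mirror_reaches {a : M.A} {n m : ℤ} (h : Reaches M.step (a, n) (H, m)) :
    Reaches (M.mirror H hH hno).step (Sum.inl a, n) (Sum.inr a, n) := by
  have h1 : ∀ {c d : M.A × ℤ}, Reaches M.step c d →
      Reaches (M.mirror H hH hno).step (Sum.inl c.1, c.2) (Sum.inl d.1, d.2) := by
    intro c d hcd
    induction hcd with
    | refl => exact Relation.ReflTransGen.refl
    | @tail d e _ hde ih =>
      obtain ⟨d1, d2⟩ := d
      obtain ⟨e1, e2⟩ := e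
      exact ih.tail (M.mirror_inl H hH hno hde)
  have h2 : ∀ {c d : M.A × ℤ}, Reaches M.step c d →
      Reaches (M.mirror H hH hno).step (Sum.inr d.1, d.2) (Sum.inr c.1, c.2) := by
    intro c d hcd
    induction hcd with
    | refl => exact Relation.ReflTransGen.refl
    | @tail d e _ hde ih =>
      obtain ⟨d1, d2⟩ := d
      obtain ⟨e1, e2⟩ := e
      exact Relation.ReflTransGen.head (M.mirror_inr H hH hno hde) ih
  exact ((h1 h).tail (M.mirror_link H hH hno m)).trans (h2 h)

theorem mirror_reaches_rev {a : M.A} {n : ℤ} {d : (M.mirror H hH hno).A × ℤ}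
    (h : Reaches (M.mirror H hH hno).step (Sum.inl a, n) d) :
    (∃ b m, d = (Sum.inl b, m) ∧ Reaches M.step (a, n) (b, m)) ∨
      ∃ m, Reaches M.step (a, n) (H, m) := by
  induction h with
  | refl => exact Or.inl ⟨a, n, rfl, Relation.ReflTransGen.refl⟩
  | @tail d e _ hde ih =>
    rcases ih with ⟨b, m, rfl, h1⟩ | h1
    · obtain ⟨e1, e2⟩ := e
      obtain ⟨k, μ, ν, hd, hn, hm⟩ := ((M.mirror H hH hno).step_eq_some).1 hde
      simp only [mirror] at hd
      split_ifs at hd with hc
      · exact Or.inr ⟨m, hc.1 ▸ h1⟩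
      · simp only [Option.map_eq_some_iff, Prod.exists, Prod.mk.injEq] at hd
        obtain ⟨b', ν', h2, rfl, rfl⟩ := hd
        refine Or.inl ⟨b', e2, rfl, h1.tail ?_⟩
        exact M.step_eq_some.2 ⟨k, μ, ν', h2, hn, hm⟩
    · exact Or.inr h1

/-- The mirror machine goes from `(a, n)` to its mirror image iff `M` goes from `(a, n)` to `H`. -/
theorem mirror_iff {a : M.A} {n : ℤ} :
    Reaches (M.mirror H hH hno).step (Sum.inl a, n) (Sum.inr a, n) ↔
      ∃ m, Reaches M.step (a, n) (H, m) := by
  constructor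
  · intro h
    rcases M.mirror_reaches_rev H hH hno h with ⟨b, m, h1, -⟩ | h1
    · exact absurd (congrArg Prod.fst h1) Sum.inr_ne_inl
    · exact h1
  · rintro ⟨m, h⟩
    exact M.mirror_reaches H hH hno h

theorem mirror_start {a : M.A} (h : ∀ a' μ ν, M.del a' μ ≠ some (a, ν))
    (c : (M.mirror H hH hno).A × ℤ) (n : ℤ) :
    (M.mirror H hH hno).step c ≠ some (Sum.inl a, n) := by
  apply step_ne
  rintro (b | b) μ ν hd
  · simp only [mirror] at hd
    split_ifs at hd with hc
    · simp at hd
    · simp only [Option.map_eq_some_iff, Prod.exists, Prod.mk.injEq, Sum.inl.injEq] at hd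
      obtain ⟨b', ν', h2, rfl, rfl⟩ := hd
      exact h _ _ _ h2
  · simp only [mirror] at hd
    split_ifs at hd with hc
    simp at hd

theorem mirror_end {a : M.A} (h : ∀ a' μ ν, M.del a' μ ≠ some (a, ν)) (n : ℤ) :
    (M.mirror H hH hno).step (Sum.inr a, n) = none := by
  apply step_none
  intro μ
  have hc : ¬ ∃ x : M.A × ℕ, M.del x.1 x.2 = some (a, μ) := by
    rintro ⟨x, hx⟩
    exact h _ _ _ hx
  simp only [mirror, hc, dif_neg, not_false_eq_true]

end Mirror

end RM

end FBC
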