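import Pool.Agent.Lib.MP_c6644d_al.GDefs
import Pool.Agent.Lib.MP_c6644d_al.RM

set_option autoImplicit false

/-!
# MP_c6644d_al: the action of `K = F₂ ⋊ ℤ` extending a residue machine

`t` is the translation by `p a`, `x t` the translation by `q a`, and `c` extends one step of the
machine. Two free parts `wp`, `wm` (copies of `ℤ × ℤ`) absorb the configurations without successor
and supply the missing predecessors; orbits which leave the core stay in `wp`.
-/

namespace FBC

open MulOpposite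

/-- `i` steps -/
def iterO (M : RM) : ℕ → M.A × ℤ → Option (M.A × ℤ)
  | 0, c => some c
  | i + 1, c => (M.step c).bind (iterO M i)

/-- the set acted on -/
inductive Om (A : Type) : Type
  | core (a : A) (n : ℤ)
  | wp (n s : ℤ)
  | wm (n s : ℤ)

namespace Act

variable (M : RM)

/-- missing outgoing classes -/
def Md : Type := {x : M.A × ℕ // x.2 < M.p x.1 ∧ M.del x.1 x.2 = none}

/-- missing incoming classes -/
def Mr : Type := {x : M.A × ℕ // x.2 < M.q x.1 ∧ ∀ a μ, M.del a μ ≠ some x}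

theorem exists_be : Nonempty (Md M ⊕ ℤ ≃ ℤ) := by
  have := M.fin
  have : Countable (Md M) := by unfold Md; infer_instance
  exact nonempty_equiv_of_countable

theorem exists_ga : Nonempty (ℤ ≃ Mr M ⊕ ℤ) := by
  have := M.fin
  have : Countable (Mr M) := by unfold Mr; infer_instance
  exact nonempty_equiv_of_countable

noncomputable def be : Md M ⊕ ℤ ≃ ℤ := (exists_be M).some

noncomputable def ga : ℤ ≃ Mr M ⊕ ℤ := (exists_ga M).some

/-- translation `t` -/
def T : Equiv.Perm (Om M.A) where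
  toFun := fun w => match w with
    | Om.core a n => Om.core a (n + M.p a)
    | Om.wp n s => Om.wp (n + 1) s
    | Om.wm n s => Om.wm (n + 1) s
  invFun := fun w => match w with
    | Om.core a n => Om.core a (n - M.p a)
    | Om.wp n s => Om.wp (n - 1) s
    | Om.wm n s => Om.wm (n - 1) s
  left_inv := by rintro (⟨a, n⟩ | ⟨n, s⟩ | ⟨n, s⟩) <;> simp
  right_inv := by rintro (⟨a, n⟩ | ⟨n, s⟩ | ⟨n, s⟩) <;> simp

/-- translation `x t` -/
def V : Equiv.Perm (Om M.A) where
  toFun := fun w => match w with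
    | Om.core a n => Om.core a (n + M.q a)
    | Om.wp n s => Om.wp n (s + 1)
    | Om.wm n s => Om.wm n (s + 1)
  invFun := fun w => match w with
    | Om.core a n => Om.core a (n - M.q a)
    | Om.wp n s => Om.wp n (s - 1)
    | Om.wm n s => Om.wm n (s - 1)
  left_inv := by rintro (⟨a, n⟩ | ⟨n, s⟩ | ⟨n, s⟩) <;> simp
  right_inv := by rintro (⟨a, n⟩ | ⟨n, s⟩ | ⟨n, s⟩) <;> simp

@[simp] theorem T_core (a : M.A) (n : ℤ) : T M (Om.core a n) = Om.core a (n + M.p a) := rfl
@[simp] theorem T_wp (n s : ℤ) : T M (Om.wp n s) = Om.wp (n + 1) s := rfl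
@[simp] theorem T_wm (n s : ℤ) : T M (Om.wm n s) = Om.wm (n + 1) s := rfl
@[simp] theorem V_core (a : M.A) (n : ℤ) : V M (Om.core a n) = Om.core a (n + M.q a) := rfl
@[simp] theorem V_wp (n s : ℤ) : V M (Om.wp n s) = Om.wp n (s + 1) := rfl
@[simp] theorem V_wm (n s : ℤ) : V M (Om.wm n s) = Om.wm n (s + 1) := rfl

theorem T_V (w : Om M.A) : T M (V M w) = V M (T M w) := by
  rcases w with (⟨a, n⟩ | ⟨n, s⟩ | ⟨n, s⟩)
  · simp only [T_core, V_core, Om.core.injEq, true_and]
    ring
  · simp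
  · simp

theorem step_none_iff (a : M.A) (n : ℤ) :
    M.step (a, n) = none ↔ M.del a (n % (M.p a : ℤ)).toNat = none := by
  simp [RM.step]

/-- the class of `(a, n)` as an element of `Md` -/
def cls (a : M.A) (n : ℤ) (h : M.step (a, n) = none) : Md M :=
  ⟨(a, (n % (M.p a : ℤ)).toNat), by
    have hpa : (0 : ℤ) < (M.p a : ℤ) := by exact_mod_cast M.hp a
    have h1 := Int.emod_lt_of_pos n hpa
    have h0 := Int.emod_nonneg n hpa.ne'
    dsimp only
    omega, (step_none_iff M a n).1 h⟩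

open Classical in
/-- the map `c` -/
noncomputable def Cf (w : Om M.A) : Om M.A := match w with
  | Om.core a n => if h : M.step (a, n) = none then
      Om.wp (be M (Sum.inl (cls M a n h))) (n / (M.p a : ℤ))
    else Om.core ((M.step (a, n)).get (Option.isSome_iff_ne_none.2 h)).1
      ((M.step (a, n)).get (Option.isSome_iff_ne_none.2 h)).2
  | Om.wp n s => Om.wp (be M (Sum.inr s)) n
  | Om.wm n s => match ga M s with
    | Sum.inl y => Om.core y.1.1 ((M.q y.1.1 : ℤ) * n + y.1.2)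
    | Sum.inr n' => Om.wm n' n

theorem Cf_some {a : M.A} {n : ℤ} {b : M.A} {m : ℤ} (h : M.step (a, n) = some (b, m)) :
    Cf M (Om.core a n) = Om.core b m := by
  have h1 : ¬ M.step (a, n) = none := by simp [h]
  simp only [Cf, h1, dif_neg, not_false_eq_true]
  simp [h]

theorem Cf_none {a : M.A} {n : ℤ} (h : M.step (a, n) = none) :
    Cf M (Om.core a n) = Om.wp (be M (Sum.inl (cls M a n h))) (n / (M.p a : ℤ)) := by
  simp only [Cf, h, dif_pos]

theorem Cf_wp (n s : ℤ) : Cf M (Om.wp n s) = Om.wp (be M (Sum.inr s)) n := rfl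

theorem Cf_inl {n s : ℤ} {y : Mr M} (h : ga M s = Sum.inl y) :
    Cf M (Om.wm n s) = Om.core y.1.1 ((M.q y.1.1 : ℤ) * n + y.1.2) := by
  simp only [Cf, h]

theorem Cf_inr {n s n' : ℤ} (h : ga M s = Sum.inr n') : Cf M (Om.wm n s) = Om.wm n' n := by
  simp only [Cf, h]

/-- `c (w t) = (c w) x t` -/
theorem Cf_T (w : Om M.A) : Cf M (T M w) = V M (Cf M w) := by
  rcases w with (⟨a, n⟩ | ⟨n, s⟩ | ⟨n, s⟩)
  · have hpa : (0 : ℤ) < (M.p a : ℤ) := by exact_mod_cast M.hp a
    rcases h : M.step (a, n) with _ | ⟨b, m⟩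
    · have h' : M.step (a, n + M.p a) = none := by
        rw [step_none_iff] at h ⊢
        rw [Int.add_emod_right]
        exact h
      rw [T_core, Cf_none M h', Cf_none M h, V_wp]
      have e1 : cls M a (n + M.p a) h' = cls M a n h := by
        apply Subtype.ext
        simp only [cls, Int.add_emod_right]
      have e2 : (n + (M.p a : ℤ)) / (M.p a : ℤ) = n / (M.p a : ℤ) + 1 := by
        rw [Int.add_ediv_of_dvd_right (dvd_refl _), Int.ediv_self hpa.ne']
      rw [e1, e2]
    · have h' : M.step (a, n + M.p a) = some (b, m + M.q b) := by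
        obtain ⟨k, μ, ν, hd, h1, h2⟩ := M.step_eq_some.1 h
        exact M.step_eq_some.2 ⟨k + 1, μ, ν, hd, by rw [h1]; ring, by rw [h2]; ring⟩
      rw [T_core, Cf_some M h', Cf_some M h, V_core]
  · rfl
  · rcases h : ga M s with y | n'
    · rw [T_wm, Cf_inl M h, Cf_inl M h, V_core]
      congr 1
      ring
    · rw [T_wm, Cf_inr M h, Cf_inr M h, V_wm]

theorem quo_unique {q : ℕ} {k k' : ℤ} {ν ν' : ℕ} (hν : ν < q) (hν' : ν' < q)
    (h : (q : ℤ) * k + ν = (q : ℤ) * k' + ν') : k = k' ∧ ν = ν' := by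
  have hq : (0 : ℤ) < (q : ℤ) := by exact_mod_cast (Nat.zero_le ν).trans_lt hν
  have e : ∀ (k : ℤ) (ν : ℕ), ν < q → ((q : ℤ) * k + ν) / (q : ℤ) = k := by
    intro k ν h
    have h' : (ν : ℤ) < (q : ℤ) := by exact_mod_cast h
    rw [Int.add_comm, Int.add_mul_ediv_left _ _ hq.ne', Int.ediv_eq_zero_of_lt (by positivity) h',
      zero_add]
  have h1 := e k ν hν
  have h2 := e k' ν' hν'
  rw [h, h2] at h1
  subst h1
  refine ⟨rfl, ?_⟩
  have : (ν : ℤ) = (ν' : ℤ) := by linarith
  exact_mod_cast this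

theorem Cf_inj : Function.Injective (Cf M) := by
  intro w w' hw
  rcases w with (⟨a, n⟩ | ⟨n, s⟩ | ⟨n, s⟩) <;> rcases w' with (⟨a', n'⟩ | ⟨n', s'⟩ | ⟨n', s'⟩)
  · rcases h : M.step (a, n) with _ | ⟨b, m⟩ <;> rcases h' : M.step (a', n') with _ | ⟨b', m'⟩
    · rw [Cf_none M h, Cf_none M h'] at hw
      simp only [Om.wp.injEq, EmbeddingLike.apply_eq_iff_eq, Sum.inl.injEq] at hw
      obtain ⟨h1, h2⟩ := hw
      have h3 := congrArg Subtype.val h1
      simp only [cls, Prod.mk.injEq] at h3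
      obtain ⟨rfl, h3⟩ := h3
      have hpa : (0 : ℤ) < (M.p a : ℤ) := by exact_mod_cast M.hp a
      have e1 := Int.emod_nonneg n hpa.ne'
      have e2 := Int.emod_nonneg n' hpa.ne'
      have h4 : n % (M.p a : ℤ) = n' % (M.p a : ℤ) := by omega
      rw [← Int.mul_ediv_add_emod n (M.p a : ℤ), ← Int.mul_ediv_add_emod n' (M.p a : ℤ), h2, h4]
    · rw [Cf_none M h, Cf_some M h'] at hw
      simp at hw
    · rw [Cf_some M h, Cf_none M h'] at hw
      simp at hw
    · rw [Cf_some M h, Cf_some M h'] at hw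
      simp only [Om.core.injEq] at hw
      obtain ⟨rfl, rfl⟩ := hw
      obtain ⟨k, μ, ν, hd, h1, h2⟩ := M.step_eq_some.1 h
      obtain ⟨k', μ', ν', hd', h1', h2'⟩ := M.step_eq_some.1 h'
      obtain ⟨rfl, rfl⟩ := quo_unique (M.lt hd).2 (M.lt hd').2 (h2.symm.trans h2')
      obtain ⟨rfl, rfl⟩ := M.inj hd hd'
      rw [h1, h1']
  · rcases h : M.step (a, n) with _ | ⟨b, m⟩
    · rw [Cf_none M h, Cf_wp] at hw
      simp at hw
    · rw [Cf_some M h, Cf_wp] at hw
      simp at hw
  · rcases h : M.step (a, n) with _ | ⟨b, m⟩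
    · rw [Cf_none M h] at hw
      rcases h' : ga M s' with y | r
      · rw [Cf_inl M h'] at hw
        simp at hw
      · rw [Cf_inr M h'] at hw
        simp at hw
    · rw [Cf_some M h] at hw
      rcases h' : ga M s' with y | r
      · rw [Cf_inl M h'] at hw
        exfalso
        simp only [Om.core.injEq] at hw
        obtain ⟨h3, h4⟩ := hw
        obtain ⟨k, μ, ν, hd, h1, h2⟩ := M.step_eq_some.1 h
        subst h3
        obtain ⟨-, h6⟩ := quo_unique (M.lt hd).2 y.2.1 (h2.symm.trans h4)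
        apply y.2.2 a μ
        rw [hd, h6]
      · rw [Cf_inr M h'] at hw
        simp at hw
  · rcases h : M.step (a', n') with _ | ⟨b, m⟩
    · rw [Cf_none M h, Cf_wp] at hw
      simp at hw
    · rw [Cf_some M h, Cf_wp] at hw
      simp at hw
  · rw [Cf_wp, Cf_wp] at hw
    simp only [Om.wp.injEq, EmbeddingLike.apply_eq_iff_eq, Sum.inr.injEq] at hw
    rw [hw.1, hw.2]
  · rw [Cf_wp] at hw
    rcases h' : ga M s' with y | r
    · rw [Cf_inl M h'] at hw
      simp at hw
    · rw [Cf_inr M h'] at hw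
      simp at hw
  · rcases h : M.step (a', n') with _ | ⟨b, m⟩
    · rw [Cf_none M h] at hw
      rcases h' : ga M s with y | r
      · rw [Cf_inl M h'] at hw
        simp at hw
      · rw [Cf_inr M h'] at hw
        simp at hw
    · rw [Cf_some M h] at hw
      rcases h' : ga M s with y | r
      · rw [Cf_inl M h'] at hw
        exfalso
        simp only [Om.core.injEq] at hw
        obtain ⟨h3, h4⟩ := hw
        obtain ⟨k, μ, ν, hd, h1, h2⟩ := M.step_eq_some.1 h
        subst h3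
        obtain ⟨-, h6⟩ := quo_unique (M.lt hd).2 y.2.1 (h2.symm.trans h4.symm)
        apply y.2.2 a' μ
        rw [hd, h6]
      · rw [Cf_inr M h'] at hw
        simp at hw
  · rw [Cf_wp] at hw
    rcases h' : ga M s with y | r
    · rw [Cf_inl M h'] at hw
      simp at hw
    · rw [Cf_inr M h'] at hw
      simp at hw
  · rcases h : ga M s with y | r <;> rcases h' : ga M s' with y' | r'
    · rw [Cf_inl M h, Cf_inl M h'] at hw
      simp only [Om.core.injEq] at hw
      obtain ⟨h1, h2⟩ := hw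
      have hy : y.1.2 < M.q y'.1.1 := h1 ▸ y.2.1
      rw [h1] at h2
      obtain ⟨rfl, h3⟩ := quo_unique hy y'.2.1 h2
      have h4 : y = y' := Subtype.ext (Prod.ext h1 h3)
      rw [h4, ← h'] at h
      rw [(ga M).injective h]
    · rw [Cf_inl M h, Cf_inr M h'] at hw
      simp at hw
    · rw [Cf_inr M h, Cf_inl M h'] at hw
      simp at hw
    · rw [Cf_inr M h, Cf_inr M h'] at hw
      simp only [Om.wm.injEq] at hw
      obtain ⟨rfl, rfl⟩ := hw
      rw [← h'] at h
      rw [(ga M).injective h]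

theorem Cf_surj : Function.Surjective (Cf M) := by
  rintro (⟨b, m⟩ | ⟨n, s⟩ | ⟨n, s⟩)
  · have hqb : (0 : ℤ) < (M.q b : ℤ) := by exact_mod_cast M.hq b
    have h0 := Int.emod_nonneg m hqb.ne'
    have h1 := Int.emod_lt_of_pos m hqb
    have hm : m = (M.q b : ℤ) * (m / M.q b) + ((m % (M.q b : ℤ)).toNat : ℤ) := by
      rw [Int.toNat_of_nonneg h0]
      exact (Int.mul_ediv_add_emod m _).symm
    by_cases h : ∃ a μ, M.del a μ = some (b, (m % (M.q b : ℤ)).toNat)
    · obtain ⟨a, μ, hd⟩ := h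
      refine ⟨Om.core a ((M.p a : ℤ) * (m / M.q b) + μ), ?_⟩
      exact Cf_some M (M.step_eq_some.2 ⟨m / M.q b, μ, _, hd, rfl, hm⟩)
    · push Not at h
      let y : Mr M := ⟨(b, (m % (M.q b : ℤ)).toNat), by dsimp only; omega, h⟩
      refine ⟨Om.wm (m / M.q b) ((ga M).symm (Sum.inl y)), ?_⟩
      rw [Cf_inl M (y := y) (by simp)]
      exact congrArg (Om.core b) hm.symm
  · rcases h : (be M).symm n with ⟨⟨a, μ⟩, h1, h2⟩ | r
    · refine ⟨Om.core a ((M.p a : ℤ) * s + μ), ?_⟩
      dsimp only at h1 h2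
      have hpa : (0 : ℤ) < (M.p a : ℤ) := by exact_mod_cast M.hp a
      have h1' : (μ : ℤ) < (M.p a : ℤ) := by exact_mod_cast h1
      have e1 : ((M.p a : ℤ) * s + μ) % (M.p a : ℤ) = μ := by
        rw [Int.mul_add_emod_self_left]
        exact Int.emod_eq_of_lt (by positivity) h1'
      have e2 : ((M.p a : ℤ) * s + μ) / (M.p a : ℤ) = s := by
        rw [Int.add_comm, Int.add_mul_ediv_left _ _ hpa.ne',
          Int.ediv_eq_zero_of_lt (by positivity) h1', zero_add]
      have h3 : M.step (a, (M.p a : ℤ) * s + μ) = none := by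
        rw [step_none_iff, e1, Int.toNat_natCast]
        exact h2
      rw [Cf_none M h3, e2]
      have h4 : cls M a ((M.p a : ℤ) * s + μ) h3 = ⟨(a, μ), h1, h2⟩ := by
        apply Subtype.ext
        simp only [cls, e1, Int.toNat_natCast]
      rw [h4, ← h, Equiv.apply_symm_apply]
    · refine ⟨Om.wp s r, ?_⟩
      rw [Cf_wp, ← h, Equiv.apply_symm_apply]
  · refine ⟨Om.wm s ((ga M).symm (Sum.inr n)), ?_⟩
    exact Cf_inr M (by simp)

/-- `c` as a permutation -/
noncomputable def C : Equiv.Perm (Om M.A) := Equiv.ofBijective (Cf M) ⟨Cf_inj M, Cf_surj M⟩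

theorem C_apply (w : Om M.A) : C M w = Cf M w := rfl

theorem C_wp_pow (i : ℕ) : ∀ n s : ℤ, ∃ n' s', (C M ^ i) (Om.wp n s) = Om.wp n' s' := by
  induction i with
  | zero => exact fun n s => ⟨n, s, rfl⟩
  | succ i ih =>
    intro n s
    obtain ⟨n', s', h⟩ := ih (be M (Sum.inr s)) n
    exact ⟨n', s', by rw [pow_succ, Equiv.Perm.mul_apply, C_apply, Cf_wp, h]⟩

theorem C_iter (i : ℕ) : ∀ c c2 : M.A × ℤ, (C M ^ i) (Om.core c.1 c.2) = Om.core c2.1 c2.2 →
    iterO M i c = some c2 := by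
  induction i with
  | zero =>
    intro c c2 h
    simp only [pow_zero, Equiv.Perm.coe_one, id_eq, Om.core.injEq] at h
    simp only [iterO, Option.some.injEq]
    exact Prod.ext h.1 h.2
  | succ i ih =>
    intro c c2 h
    rw [pow_succ, Equiv.Perm.mul_apply, C_apply] at h
    rcases hs : M.step c with _ | c'
    · exfalso
      rw [Cf_none M (show M.step (c.1, c.2) = none from hs)] at h
      obtain ⟨n', s', h'⟩ := C_wp_pow M i (be M (Sum.inl (cls M c.1 c.2 hs)))
        (c.2 / (M.p c.1 : ℤ))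
      rw [h'] at h
      simp at h
    · rw [Cf_some M (show M.step (c.1, c.2) = some (c'.1, c'.2) from hs)] at h
      simp only [iterO, hs, Option.bind_some]
      exact ih c' c2 h

end Act

open Act

theorem exists_action (M : RM) : ∃ (Om : Type) (rho : GK →* (Equiv.Perm Om)ᵐᵒᵖ)
    (j : M.A × ℤ → Om), Function.Injective j ∧
    (∀ a n, (rho kt).unop (j (a, n)) = j (a, n + M.p a)) ∧
    (∀ a n, (rho (kx * kt)).unop (j (a, n)) = j (a, n + M.q a)) ∧
    (∀ c c2, M.step c = some c2 → (rho kc).unop (j c) = j c2) ∧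
    (∀ (i : ℕ) c c2, (rho (kc ^ i)).unop (j c) = j c2 → iterO M i c = some c2) := by
  have hTV : T M * V M = V M * T M := Equiv.ext (T_V M)
  have hCT : C M * T M = V M * C M := Equiv.ext (Cf_T M)
  have hTX : op (T M) * op (V M * (T M)⁻¹) = op (V M * (T M)⁻¹) * op (T M) := by
    rw [← op_mul, ← op_mul, inv_mul_cancel_right, ← mul_assoc, hTV, mul_inv_cancel_right]
  have hTY : op (T M) * (op (C M) * (op (T M))⁻¹)
      = op (C M) * (op (T M))⁻¹ * op (V M * (T M)⁻¹) * op (T M) := by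
    have e1 : op (T M) * op (C M) = op (C M) * op (V M) := by
      rw [← op_mul, ← op_mul, hCT]
    have e2 : (op (T M))⁻¹ * op (V M * (T M)⁻¹) * op (T M) = op (V M) * (op (T M))⁻¹ := by
      rw [mul_assoc, ← hTX, ← mul_assoc, inv_mul_cancel, one_mul, op_mul, op_inv]
      rw [← op_inv, ← op_mul, ← op_mul]
      congr 1
      rw [mul_inv_eq_iff_eq_mul, mul_assoc, ← hTV, inv_mul_cancel_left]
    rw [← mul_assoc, e1, mul_assoc (op (C M)) (op (V M)), ← e2]
    simp only [mul_assoc]
  obtain ⟨rho, hx, hy, ht⟩ := exists_Khom (op (V M * (T M)⁻¹)) (op (C M) * (op (T M))⁻¹)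
    (op (T M)) hTX hTY
  have hxt : rho (kx * kt) = op (V M) := by
    rw [map_mul, hx, ht, ← hTX, ← op_mul, inv_mul_cancel_right]
  have hc : rho kc = op (C M) := by
    rw [kc, map_mul, hy, ht, inv_mul_cancel_right]
  refine ⟨Om M.A, rho, fun c => Om.core c.1 c.2, ?_, ?_, ?_, ?_, ?_⟩
  · intro c c' h
    simp only [Om.core.injEq] at h
    exact Prod.ext h.1 h.2
  · intro a n
    rw [ht]
    rfl
  · intro a n
    rw [hxt]
    rfl
  · intro c c2 h
    rw [hc]
    exact Cf_some M h
  · intro i c c2 h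
    rw [map_pow, hc, ← op_pow] at h
    exact C_iter M i c c2 h

end FBC
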