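import Pool.Agent.Lib.MP_c6644d_al.GPing

/-!
MP_c6644d_al, group level (helper50): homomorphisms extend from `H`, `u true`, `u false` to the
subgroup of the HNN extension generated by them.
-/

set_option autoImplicit false

open HNNExtension

namespace FBC

variable {K : Type} [Group K] {A B : Subgroup K}

/-- the subgroup generated by `H` and the two elements `u b` -/
def Lsub (φ : A ≃* B) (H : Subgroup K) (x : K) (g : Bool → K) : Subgroup (HNNExtension K A B φ) :=
  H.map of ⊔ Subgroup.closure (Set.range fun b => uel A B φ x (g b))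

/-- generator of the `b`-th cyclic factor -/
def Fam.gen (H : Subgroup K) (b : Bool) : Fam H (some b) := Multiplicative.ofAdd (1 : ℤ)

theorem famHom_gen (φ : A ≃* B) (H : Subgroup K) (x : K) (g : Bool → K) (b : Bool) :
    famHom φ H x g (some b) (Fam.gen H b) = uel A B φ x (g b) :=
  zpow_one (uel A B φ x (g b))

/-- element of the first factor -/
def Fam.emb (H : Subgroup K) (h : H) : Fam H none := h

theorem famHom_emb (φ : A ≃* B) (H : Subgroup K) (x : K) (g : Bool → K) (h : H) :
    famHom φ H x g none (Fam.emb H h) = of (h : K) := rfl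

theorem Lsub_eq_range (φ : A ≃* B) (H : Subgroup K) (x : K) (g : Bool → K) :
    Lsub φ H x g = (Monoid.CoprodI.lift (famHom φ H x g)).range := by
  rw [Monoid.CoprodI.range_eq_iSup]
  apply le_antisymm
  · refine sup_le ?_ ?_
    · refine le_trans ?_ (le_iSup _ none)
      rintro _ ⟨h, hh, rfl⟩
      exact ⟨Fam.emb H ⟨h, hh⟩, rfl⟩
    · rw [Subgroup.closure_le]
      rintro _ ⟨b, rfl⟩
      refine (le_iSup (fun o => (famHom φ H x g o).range) (some b)) ?_
      exact ⟨Fam.gen H b, famHom_gen φ H x g b⟩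
  · refine iSup_le ?_
    rintro (_ | b)
    · rintro _ ⟨h, rfl⟩
      have h2 : (show H from h).1 ∈ H := (show H from h).2
      exact Subgroup.mem_sup_left (Subgroup.mem_map_of_mem of h2)
    · rintro _ ⟨n, rfl⟩
      apply Subgroup.mem_sup_right
      have : famHom φ H x g (some b) n =
          uel A B φ x (g b) ^ (Multiplicative.toAdd (show Multiplicative ℤ from n)) := rfl
      rw [this]
      exact zpow_mem (Subgroup.subset_closure (Set.mem_range_self b)) _

theorem of_mem_Lsub (φ : A ≃* B) (H : Subgroup K) (x : K) (g : Bool → K) {h : K} (hh : h ∈ H) :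
    of h ∈ Lsub φ H x g := Subgroup.mem_sup_left (Subgroup.mem_map_of_mem of hh)

theorem uel_mem_Lsub (φ : A ≃* B) (H : Subgroup K) (x : K) (g : Bool → K) (b : Bool) :
    uel A B φ x (g b) ∈ Lsub φ H x g :=
  Subgroup.mem_sup_right (Subgroup.subset_closure ⟨b, rfl⟩)

/-- the homomorphisms on the factors -/
def famTo {M : Type} [Group M] (H : Subgroup K) (χ : H →* M) (m : Bool → M) :
    ∀ o, Fam H o →* M
  | none => χ
  | some b => zpowersHom M (m b)

theorem famTo_gen {M : Type} [Group M] (H : Subgroup K) (χ : H →* M) (m : Bool → M) (b : Bool) :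
    famTo H χ m (some b) (Fam.gen H b) = m b := zpow_one (m b)

theorem famTo_emb {M : Type} [Group M] (H : Subgroup K) (χ : H →* M) (m : Bool → M) (h : H) :
    famTo H χ m none (Fam.emb H h) = χ h := rfl

theorem hom_extend (φ : A ≃* B) (H : Subgroup K) (x : K) (g : Bool → K)
    (hx : ∀ n : ℤ, n ≠ 0 → x ^ n ∉ A)
    (h1 : ∀ b, ∀ h ∈ H, (g b)⁻¹ * h * g b ∈ B → h = 1)
    (h2 : ∀ b, ∀ h ∈ H, (g b)⁻¹ * h * g (!b) ∉ B)
    {M : Type} [Group M] (χ : H →* M) (m : Bool → M) :
    ∃ ψ : Lsub φ H x g →* M, (∀ h : H, ψ ⟨of (h : K), of_mem_Lsub φ H x g h.2⟩ = χ h) ∧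
      ∀ b, ψ ⟨uel A B φ x (g b), uel_mem_Lsub φ H x g b⟩ = m b := by
  have hinj := famHom_injective (φ := φ) H x g hx h1 h2
  let e : Monoid.CoprodI (Fam H) ≃* (Monoid.CoprodI.lift (famHom φ H x g)).range :=
    MonoidHom.ofInjective hinj
  let e' : Lsub φ H x g ≃* (Monoid.CoprodI.lift (famHom φ H x g)).range :=
    MulEquiv.subgroupCongr (Lsub_eq_range φ H x g)
  let ψ : Lsub φ H x g →* M :=
    (Monoid.CoprodI.lift (famTo H χ m)).comp (e.symm.toMonoidHom.comp e'.toMonoidHom)
  refine ⟨ψ, fun h => ?_, fun b => ?_⟩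
  · have h3 : e' ⟨of (h : K), of_mem_Lsub φ H x g h.2⟩ =
        e (Monoid.CoprodI.of (Fam.emb H h)) := by
      apply Subtype.ext
      show of (h : K) = Monoid.CoprodI.lift (famHom φ H x g) _
      rw [Monoid.CoprodI.lift_of, famHom_emb]
    show Monoid.CoprodI.lift (famTo H χ m) (e.symm (e' _)) = _
    rw [h3, MulEquiv.symm_apply_apply, Monoid.CoprodI.lift_of, famTo_emb]
  · have h3 : e' ⟨uel A B φ x (g b), uel_mem_Lsub φ H x g b⟩ =
        e (Monoid.CoprodI.of (Fam.gen H b)) := by
      apply Subtype.ext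
      show uel A B φ x (g b) = Monoid.CoprodI.lift (famHom φ H x g) _
      rw [Monoid.CoprodI.lift_of, famHom_gen]
    show Monoid.CoprodI.lift (famTo H χ m) (e.symm (e' _)) = _
    rw [h3, MulEquiv.symm_apply_apply, Monoid.CoprodI.lift_of, famTo_gen]

end FBC
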