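import Pool.Agent.Lib.MP_c6644d_al.GExt
import Pool.Agent.Lib.MP_c6644d_al.GDefs

/-!
MP_c6644d_al, group level (helper50): `G` maps to the HNN extension of `K`; the number of
homomorphisms to a finite abelian group from the subgroup generated by `H ≤ K` and two conjugates
of `u`.
-/

set_option autoImplicit false

open HNNExtension (t)

namespace FBC

/-- `⟨t⟩` -/
abbrev At : Subgroup GK := (zpowersHom GK kt).range

/-- `⟨c⟩` -/
abbrev Bc : Subgroup GK := (zpowersHom GK kc).range

theorem right_kt (n : ℤ) : SemidirectProduct.rightHom (kt ^ n) = Multiplicative.ofAdd n := by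
  rw [map_zpow]
  simp [kt, tt, ← ofAdd_zsmul]

theorem right_kc (n : ℤ) : SemidirectProduct.rightHom (kc ^ n) = Multiplicative.ofAdd n := by
  rw [map_zpow]
  simp [kc, ky, kt, tt, ← ofAdd_zsmul]

theorem right_kx (n : ℤ) : SemidirectProduct.rightHom (kx ^ n) = 1 := by
  rw [map_zpow]
  simp [kx]

theorem kt_inj : Function.Injective (zpowersHom GK kt) := by
  intro a b h
  have h1 : kt ^ (Multiplicative.toAdd a) = kt ^ (Multiplicative.toAdd b) := h
  have h2 := congrArg SemidirectProduct.rightHom h1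
  rw [right_kt, right_kt] at h2
  exact h2

theorem kc_inj : Function.Injective (zpowersHom GK kc) := by
  intro a b h
  have h1 : kc ^ (Multiplicative.toAdd a) = kc ^ (Multiplicative.toAdd b) := h
  have h2 := congrArg SemidirectProduct.rightHom h1
  rw [right_kc, right_kc] at h2
  exact h2

theorem kx_zpow_ne {n : ℤ} (hn : n ≠ 0) : kx ^ n ∉ At := by
  rintro ⟨k, hk⟩
  have h1 : kt ^ (Multiplicative.toAdd k) = kx ^ n := hk
  have h2 := congrArg SemidirectProduct.rightHom h1
  rw [right_kt, right_kx] at h2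
  have h3 : kx ^ n = 1 := by
    rw [← h1]
    have : Multiplicative.toAdd k = 0 := by
      have := congrArg Multiplicative.toAdd h2
      simpa using this
    rw [this, zpow_zero]
  have h4 : (FreeGroup.of (0 : Fin 2)) ^ n = 1 := by
    apply SemidirectProduct.inl_injective (φ := zpowersHom (MulAut (FreeGroup (Fin 2))) a2)
    rw [map_zpow, map_one]
    exact h3
  have h5 := congrArg (FreeGroup.lift (fun _ : Fin 2 => Multiplicative.ofAdd (1 : ℤ))) h4
  rw [map_zpow, FreeGroup.lift_apply_of, ← ofAdd_zsmul] at h5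
  apply hn
  have := congrArg Multiplicative.toAdd h5
  simpa using this

/-- the isomorphism `t ↦ c` -/
noncomputable def phi : At ≃* Bc :=
  (MonoidHom.ofInjective kt_inj).symm.trans (MonoidHom.ofInjective kc_inj)

theorem phi_kt (h : kt ∈ At) : ((phi ⟨kt, h⟩ : Bc) : GK) = kc := by
  have e : (⟨kt, h⟩ : At) = MonoidHom.ofInjective kt_inj (Multiplicative.ofAdd 1) := by
    apply Subtype.ext
    show kt = kt ^ (1 : ℤ)
    simp
  rw [e, phi, MulEquiv.trans_apply, MulEquiv.symm_apply_apply]
  show kc ^ (1 : ℤ) = kc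
  simp

theorem kt_mem : kt ∈ At := ⟨Multiplicative.ofAdd 1, by simp⟩

/-- the HNN extension of `K` -/
abbrev HK : Type := HNNExtension GK At Bc phi

theorem t_kt : (t : HK) * HNNExtension.of kt = HNNExtension.of kc * t := by
  have := HNNExtension.t_mul_of (φ := phi) ⟨kt, kt_mem⟩
  rw [phi_kt] at this
  exact this

theorem exists_iota_Phi : ∃ (ι : GK →* GG) (Φ : GG →* HK),
    ι kx = gx ∧ ι ky = gy ∧ ι kt = gt ∧ (∀ k, Φ (ι k) = HNNExtension.of k) ∧ Φ gz = t ∧
      Φ gx = HNNExtension.of kx := by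
  obtain ⟨ι, h1, h2, h3⟩ := exists_Khom gx gy gt gt_gx gt_gy
  obtain ⟨Φ, h4, h5, h6, h7⟩ := exists_Ghom (P := HK) (HNNExtension.of kx) (HNNExtension.of ky) t
    (HNNExtension.of kt) (by rw [← map_mul, kt_kx, map_mul])
    (by rw [← map_mul, kt_ky, map_mul, map_mul]) (by
      rw [mul_assoc, t_kt, kc, map_mul, ← mul_assoc, ← mul_assoc, inv_mul_cancel, one_mul])
  refine ⟨ι, Φ, h1, h2, h3, ?_, h6, h4⟩
  have : Φ.comp ι = HNNExtension.of := by
    apply Khom_ext
    · rw [MonoidHom.comp_apply, h1, h4]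
    · rw [MonoidHom.comp_apply, h2, h5]
    · rw [MonoidHom.comp_apply, h3, h7]
  intro k
  exact DFunLike.congr_fun this k

/-- the embedding of `K` in `G` -/
noncomputable def iota : GK →* GG := exists_iota_Phi.choose

/-- the map from `G` to the HNN extension -/
noncomputable def Phi : GG →* HK := exists_iota_Phi.choose_spec.choose

theorem iota_kx : iota kx = gx := exists_iota_Phi.choose_spec.choose_spec.1
theorem iota_ky : iota ky = gy := exists_iota_Phi.choose_spec.choose_spec.2.1
theorem iota_kt : iota kt = gt := exists_iota_Phi.choose_spec.choose_spec.2.2.1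
theorem Phi_iota (k : GK) : Phi (iota k) = HNNExtension.of k :=
  exists_iota_Phi.choose_spec.choose_spec.2.2.2.1 k
theorem Phi_gz : Phi gz = t := exists_iota_Phi.choose_spec.choose_spec.2.2.2.2.1
theorem Phi_gx : Phi gx = HNNExtension.of kx := exists_iota_Phi.choose_spec.choose_spec.2.2.2.2.2

theorem iota_kc : iota kc = gc := by rw [kc, map_mul, iota_ky, iota_kt, gc]

/-- the conjugate of `u` by (the image of) `g` -/
noncomputable def ucj (g : GK) : GG := iota g * gu * (iota g)⁻¹

theorem Phi_ucj (g : GK) : Phi (ucj g) = uel At Bc phi kx g := by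
  rw [ucj, gu, map_mul, map_mul, map_mul, map_mul, map_inv, map_inv, Phi_iota, Phi_gz, Phi_gx, uel]
  simp only [mul_assoc]

/-- the subgroup of `G` generated by `H ≤ K` and the elements `ucj (g b)` -/
noncomputable def LG (H : Subgroup GK) (g : Bool → GK) : Subgroup GG :=
  H.map iota ⊔ Subgroup.closure (Set.range fun b => ucj (g b))

theorem iota_mem_LG (H : Subgroup GK) (g : Bool → GK) {h : GK} (hh : h ∈ H) :
    iota h ∈ LG H g := Subgroup.mem_sup_left (Subgroup.mem_map_of_mem iota hh)

theorem ucj_mem_LG (H : Subgroup GK) (g : Bool → GK) (b : Bool) : ucj (g b) ∈ LG H g :=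
  Subgroup.mem_sup_right (Subgroup.subset_closure (Set.mem_range_self b))

theorem LG_map (H : Subgroup GK) (g : Bool → GK) : (LG H g).map Phi = Lsub phi H kx g := by
  rw [LG, Lsub, Subgroup.map_sup, MonoidHom.map_closure, Subgroup.map_map]
  congr 1
  · congr 1
    ext k
    exact Phi_iota k
  · congr 1
    rw [← Set.range_comp]
    congr 1
    funext b
    exact Phi_ucj (g b)

/-- homomorphisms extend to the subgroup generated by `H` and the two conjugates of `u` -/
theorem LG_extend (H : Subgroup GK) (g : Bool → GK)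
    (h1 : ∀ b, ∀ h ∈ H, (g b)⁻¹ * h * g b ∈ Bc → h = 1)
    (h2 : ∀ b, ∀ h ∈ H, (g b)⁻¹ * h * g (!b) ∉ Bc)
    {M : Type} [Group M] (χ : H →* M) (m : Bool → M) :
    ∃ ψ : LG H g →* M, (∀ h : H, ψ ⟨iota (h : GK), iota_mem_LG H g h.2⟩ = χ h) ∧
      ∀ b, ψ ⟨ucj (g b), ucj_mem_LG H g b⟩ = m b := by
  obtain ⟨ψ, h3, h4⟩ := hom_extend phi H kx g (fun n hn => kx_zpow_ne hn) h1 h2 χ m
  have hmem : ∀ l : LG H g, Phi (l : GG) ∈ Lsub phi H kx g := by
    intro l
    rw [← LG_map]
    exact Subgroup.mem_map_of_mem Phi l.2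
  let π : LG H g →* Lsub phi H kx g :=
    { toFun := fun l => ⟨Phi l, hmem l⟩
      map_one' := by
        apply Subtype.ext
        simp
      map_mul' := by
        intro a b
        apply Subtype.ext
        simp }
  refine ⟨ψ.comp π, fun h => ?_, fun b => ?_⟩
  · rw [← h3 h]
    show ψ _ = ψ _
    congr 1
    apply Subtype.ext
    exact Phi_iota _
  · rw [← h4 b]
    show ψ _ = ψ _
    congr 1
    apply Subtype.ext
    exact Phi_ucj _

end FBC
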