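import Pool.Agent.Lib.MP_c6644d_al.GDefs
import Pool.Agent.Lib.MP_c6644d_al.RM

/-!
MP_c6644d_al, group level (helper50): the finitely generated subgroup `H` of `K` belonging to a
residue machine and the words `pos c` of the configurations; `pos c * kc ∈ H * pos c'` if the
machine goes from `c` to `c'` in one step.
-/

set_option autoImplicit false

open StateTransition

namespace FBC

/-- translation by one at the vertex `a` -/
def tr (M : RM) (a : M.A) : GK := if M.p a = 1 then kt else kx * kt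

theorem tr_kt (M : RM) (a : M.A) : Commute (tr M a) kt := by
  unfold tr
  split_ifs
  · exact Commute.refl _
  · exact (show Commute kx kt from kt_kx.symm).mul_left (Commute.refl _)

theorem tr_ks (M : RM) (a : M.A) : Commute (tr M a) (kx * kt) := by
  unfold tr
  split_ifs
  · exact (show Commute kt kx from kt_kx).mul_right (Commute.refl _)
  · exact Commute.refl _

theorem kt_ks : Commute kt (kx * kt) := (show Commute kt kx from kt_kx).mul_right (Commute.refl _)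

theorem kt_zpow_kc (k : ℤ) : kt ^ k * kc = kc * (kx * kt) ^ k := by
  have h : kt = kc * (kx * kt) * kc⁻¹ := by rw [← kt_kc, mul_inv_cancel_right]
  have h2 : kt ^ k = kc * (kx * kt) ^ k * kc⁻¹ := by
    rw [← conj_zpow, ← h]
  rw [h2, inv_mul_cancel_right]

/-- the word of a configuration -/
def pos (M : RM) (gv : M.A → GK) (c : M.A × ℤ) : GK := gv c.1 * tr M c.1 ^ c.2

/-- index set of the generators of `H` -/
abbrev Idx (M : RM) : Type := M.A ⊕ M.A ⊕ (Σ a : M.A, Fin (M.p a))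

open Classical in
/-- the generators of `H` -/
noncomputable def hgen (M : RM) (V : M.A → Prop) (gv : M.A → GK) : Idx M → GK
  | Sum.inl a => if V a then gv a * (kt * (tr M a ^ (M.p a : ℤ))⁻¹) * (gv a)⁻¹ else 1
  | Sum.inr (Sum.inl a) => if V a then gv a * (kx * kt * (tr M a ^ (M.q a : ℤ))⁻¹) * (gv a)⁻¹ else 1
  | Sum.inr (Sum.inr ⟨a, μ⟩) =>
    match M.del a μ with
    | none => 1
    | some (b, ν) => if V a then gv a * tr M a ^ ((μ : ℕ) : ℤ) * kc * (tr M b ^ (ν : ℤ))⁻¹ * (gv b)⁻¹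
        else 1

/-- the subgroup `H` -/
noncomputable def Hsub (M : RM) (V : M.A → Prop) (gv : M.A → GK) : Subgroup GK :=
  Subgroup.closure (Set.range (hgen M V gv))

theorem hP_mem {M : RM} {V : M.A → Prop} {gv : M.A → GK} {a : M.A} (ha : V a) :
    gv a * (kt * (tr M a ^ (M.p a : ℤ))⁻¹) * (gv a)⁻¹ ∈ Hsub M V gv := by
  have h : hgen M V gv (Sum.inl a) = gv a * (kt * (tr M a ^ (M.p a : ℤ))⁻¹) * (gv a)⁻¹ := by
    simp [hgen, ha]
  rw [← h]
  exact Subgroup.subset_closure (Set.mem_range_self _)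

theorem hQ_mem {M : RM} {V : M.A → Prop} {gv : M.A → GK} {a : M.A} (ha : V a) :
    gv a * (kx * kt * (tr M a ^ (M.q a : ℤ))⁻¹) * (gv a)⁻¹ ∈ Hsub M V gv := by
  have h : hgen M V gv (Sum.inr (Sum.inl a)) =
      gv a * (kx * kt * (tr M a ^ (M.q a : ℤ))⁻¹) * (gv a)⁻¹ := by
    simp [hgen, ha]
  rw [← h]
  exact Subgroup.subset_closure (Set.mem_range_self _)

theorem hE_mem {M : RM} {V : M.A → Prop} {gv : M.A → GK} {a b : M.A} {μ ν : ℕ} (ha : V a)
    (h : M.del a μ = some (b, ν)) :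
    gv a * tr M a ^ (μ : ℤ) * kc * (tr M b ^ (ν : ℤ))⁻¹ * (gv b)⁻¹ ∈ Hsub M V gv := by
  have h' : hgen M V gv (Sum.inr (Sum.inr ⟨a, ⟨μ, (M.lt h).1⟩⟩)) =
      gv a * tr M a ^ (μ : ℤ) * kc * (tr M b ^ (ν : ℤ))⁻¹ * (gv b)⁻¹ := by
    simp [hgen, ha, h]
  rw [← h']
  exact Subgroup.subset_closure (Set.mem_range_self _)

theorem tr_P {M : RM} {V : M.A → Prop} {gv : M.A → GK} {a : M.A} (ha : V a) (k : ℤ) :
    ∃ h ∈ Hsub M V gv, gv a * tr M a ^ ((M.p a : ℤ) * k) = h * (gv a * kt ^ k) := by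
  set P := kt * (tr M a ^ (M.p a : ℤ))⁻¹ with hP
  have hc : Commute P kt := (Commute.refl kt).mul_left ((tr_kt M a).zpow_left _).inv_left
  have e1 : tr M a ^ (M.p a : ℤ) = P⁻¹ * kt := by
    rw [hP, mul_inv_rev, inv_inv, mul_assoc, inv_mul_cancel, mul_one]
  have e2 : tr M a ^ ((M.p a : ℤ) * k) = P ^ (-k) * kt ^ k := by
    rw [zpow_mul, e1, (hc.inv_left).mul_zpow, inv_zpow, zpow_neg]
  refine ⟨(gv a * P * (gv a)⁻¹) ^ (-k), zpow_mem (hP_mem ha) _, ?_⟩
  rw [e2, conj_zpow]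
  group

theorem tr_Q {M : RM} {V : M.A → Prop} {gv : M.A → GK} {a : M.A} (ha : V a) (k : ℤ) :
    ∃ h ∈ Hsub M V gv, gv a * (kx * kt) ^ k = h * (gv a * tr M a ^ ((M.q a : ℤ) * k)) := by
  set Q := kx * kt * (tr M a ^ (M.q a : ℤ))⁻¹ with hQ
  have hc : Commute Q (tr M a ^ (M.q a : ℤ)) :=
    ((tr_ks M a).symm.zpow_right _).mul_left ((Commute.refl _).inv_left)
  have e1 : kx * kt = Q * tr M a ^ (M.q a : ℤ) := by
    rw [hQ, inv_mul_cancel_right]
  have e2 : (kx * kt) ^ k = Q ^ k * tr M a ^ ((M.q a : ℤ) * k) := by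
    rw [zpow_mul, e1, hc.mul_zpow]
  refine ⟨(gv a * Q * (gv a)⁻¹) ^ k, zpow_mem (hQ_mem ha) _, ?_⟩
  rw [e2, conj_zpow]
  group

theorem pos_step {M : RM} {V : M.A → Prop} {gv : M.A → GK} {a b : M.A} {n m : ℤ} (ha : V a)
    (hb : V b) (h : M.step (a, n) = some (b, m)) :
    ∃ h ∈ Hsub M V gv, pos M gv (a, n) * kc = h * pos M gv (b, m) := by
  obtain ⟨k, μ, ν, hd, hn, hm⟩ := M.step_eq_some.1 h
  obtain ⟨h1, hh1, e1⟩ := tr_P (gv := gv) ha k
  obtain ⟨h2, hh2, e2⟩ := tr_Q (gv := gv) hb k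
  set E := gv a * tr M a ^ (μ : ℤ) * kc * (tr M b ^ (ν : ℤ))⁻¹ * (gv b)⁻¹ with hE
  have hEm : E ∈ Hsub M V gv := hE_mem ha hd
  refine ⟨h1 * E * h2, mul_mem (mul_mem hh1 hEm) hh2, ?_⟩
  have c1 : Commute (tr M a ^ (μ : ℤ)) (kt ^ k) := ((tr_kt M a).zpow_left _).zpow_right _
  have c2 : Commute (tr M b ^ (ν : ℤ)) ((kx * kt) ^ k) := ((tr_ks M b).zpow_left _).zpow_right _
  have e3 : gv a * tr M a ^ (μ : ℤ) * kc = E * gv b * tr M b ^ (ν : ℤ) := by
    rw [hE]; group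
  calc pos M gv (a, n) * kc = gv a * tr M a ^ ((M.p a : ℤ) * k) * tr M a ^ (μ : ℤ) * kc := by
        simp only [pos, hn]
        rw [zpow_add]
        simp only [mul_assoc]
    _ = h1 * (gv a * (kt ^ k * tr M a ^ (μ : ℤ)) * kc) := by
        rw [e1]; simp only [mul_assoc]
    _ = h1 * (gv a * tr M a ^ (μ : ℤ) * (kt ^ k * kc)) := by
        rw [← c1.eq]; simp only [mul_assoc]
    _ = h1 * (gv a * tr M a ^ (μ : ℤ) * kc * (kx * kt) ^ k) := by
        rw [kt_zpow_kc]; simp only [mul_assoc]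
    _ = h1 * E * (gv b * (kx * kt) ^ k * tr M b ^ (ν : ℤ)) := by
        rw [e3, mul_assoc (gv b) _ (tr M b ^ (ν : ℤ)), ← c2.eq]; simp only [mul_assoc]
    _ = h1 * E * h2 * pos M gv (b, m) := by
        rw [e2]
        simp only [pos, hm]
        rw [zpow_add]
        simp only [mul_assoc]

theorem pos_reaches {M : RM} {V : M.A → Prop} {gv : M.A → GK} {c d : M.A × ℤ}
    (hV : ∀ {c d : M.A × ℤ}, V c.1 → M.step c = some d → V d.1) (hc : V c.1)
    (h : Reaches M.step c d) :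
    V d.1 ∧ ∃ i : ℕ, ∃ h ∈ Hsub M V gv, pos M gv c * kc ^ i = h * pos M gv d := by
  induction h with
  | refl => exact ⟨hc, 0, 1, one_mem _, by simp⟩
  | @tail d e _ hde ih =>
    obtain ⟨hd, i, h, hh, e1⟩ := ih
    have hstep : M.step d = some e := hde
    have he : V e.1 := hV hd hstep
    obtain ⟨h', hh', e2⟩ := pos_step (gv := gv) (a := d.1) (b := e.1) (n := d.2) (m := e.2) hd he
      hstep
    refine ⟨he, i + 1, h * h', mul_mem hh hh', ?_⟩
    rw [pow_succ, ← mul_assoc, e1, mul_assoc, e2, mul_assoc]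

end FBC
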