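import Mathlib

/-!
MP_c6644d_al, group level (helper50): in an HNN extension of `K` with stable letter `z`,
`z a z⁻¹ = φ a` (`a ∈ A`, `φ a ∈ B`), the subgroup generated by `H ≤ K` and the elements
`u j = g j z x z⁻¹ (g j)⁻¹` is the free product of `H` and the infinite cyclic groups `⟨u j⟩`,
provided that no power of `x` lies in `A` and `(g i)⁻¹ H (g j)` meets `B` only trivially.
-/

set_option autoImplicit false

open HNNExtension Pointwise

namespace FBC

variable {K : Type} [Group K] {A B : Subgroup K} {φ : A ≃* B}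

/-- the factors of the free product -/
def Fam (H : Subgroup K) : Option Bool → Type
  | none => H
  | some _ => Multiplicative ℤ

instance Fam.group (H : Subgroup K) : ∀ o, Group (Fam H o)
  | none => inferInstanceAs (Group H)
  | some _ => inferInstanceAs (Group (Multiplicative ℤ))

/-- the element `g z x z⁻¹ g⁻¹` -/
def uel (A B : Subgroup K) (φ : A ≃* B) (x g : K) : HNNExtension K A B φ :=
  of g * t * of x * t⁻¹ * (of g)⁻¹

/-- the maps of the factors into the HNN extension -/
def famHom (φ : A ≃* B) (H : Subgroup K) (x : K) (g : Bool → K) :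
    ∀ o, Fam H o →* HNNExtension K A B φ
  | none => of.comp H.subtype
  | some b => zpowersHom _ (uel A B φ x (g b))

theorem uel_zpow (x g : K) (n : ℤ) : uel A B φ x g ^ n = of g * t * of (x ^ n) * t⁻¹ * (of g)⁻¹ := by
  have h1 : uel A B φ x g = (of g * t) * of x * (of g * t)⁻¹ := by
    simp [uel, mul_assoc]
  rw [h1, conj_zpow, map_zpow]
  simp [mul_assoc]

open NormalWord in
/-- the ping-pong step -/
theorem uel_smul {d : TransversalPair K A B} (x g : K) (n : ℤ) (hn : x ^ n ∉ A)
    (w : NormalWord d) (hw : ¬ Cancels (-1) (g⁻¹ • w)) :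
    Cancels (-1) (g⁻¹ • (uel A B φ x g ^ n • w)) := by
  rw [uel_zpow]
  have e1 : (of g * t * of (x ^ n) * t⁻¹ * (of g)⁻¹ : HNNExtension K A B φ) • w =
      g • unitsSMul φ 1 ((x ^ n) • unitsSMul φ (-1) (g⁻¹ • w)) := by
    rw [mul_smul, mul_smul, mul_smul, mul_smul, ← map_inv, of_smul_eq_smul, of_smul_eq_smul,
      of_smul_eq_smul]
    have h2 : ∀ v : NormalWord d, (t⁻¹ : HNNExtension K A B φ) • v = unitsSMul φ (-1) v := by
      intro v
      have := t_pow_smul_eq_unitsSMul φ (-1) v
      simpa using this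
    have h3 : ∀ v : NormalWord d, (t : HNNExtension K A B φ) • v = unitsSMul φ 1 v := by
      intro v
      exact t_smul_eq_unitsSMul φ v
    rw [h2, h3]
  rw [e1, inv_smul_smul]
  have h4 : Cancels (1 : ℤˣ) (unitsSMul φ (-1) (g⁻¹ • w)) := by
    have := (unitsSMul_cancels_iff φ (-1) (g⁻¹ • w)).2 hw
    simpa using this
  rw [unitsSMul_cancels_iff]
  intro h5
  apply hn
  have h6 : x ^ n * (unitsSMul φ (-1) (g⁻¹ • w)).head ∈ A := h5.1
  have h7 : (unitsSMul φ (-1) (g⁻¹ • w)).head ∈ A := h4.1
  exact (Subgroup.mul_mem_cancel_right A h7).1 h6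

open NormalWord in
theorem famHom_injective (H : Subgroup K) (x : K) (g : Bool → K)
    (hx : ∀ n : ℤ, n ≠ 0 → x ^ n ∉ A)
    (h1 : ∀ b, ∀ h ∈ H, (g b)⁻¹ * h * g b ∈ B → h = 1)
    (h2 : ∀ b, ∀ h ∈ H, (g b)⁻¹ * h * g (!b) ∉ B) :
    Function.Injective (Monoid.CoprodI.lift (famHom φ H x g)) := by
  obtain ⟨d⟩ := (inferInstance : Nonempty (TransversalPair K A B))
  -- the ping-pong sets
  let Y : Bool → Set (NormalWord d) := fun b => {w | Cancels (-1) ((g b)⁻¹ • w)}
  have hY : ∀ b, ∀ h ∈ H, ∀ w, w ∈ Y b → h • w ∈ Y (!b) → False := by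
    intro b h hh w hw hw'
    have e1 : (g b)⁻¹ * w.head ∈ B := hw.1
    have e2 : (g (!b))⁻¹ * (h * w.head) ∈ B := hw'.1
    have e3 : ((g b)⁻¹ * w.head) * ((g (!b))⁻¹ * (h * w.head))⁻¹ ∈ B :=
      mul_mem e1 (inv_mem e2)
    have e4 : ((g b)⁻¹ * w.head) * ((g (!b))⁻¹ * (h * w.head))⁻¹ = (g b)⁻¹ * h⁻¹ * g (!b) := by
      group
    rw [e4] at e3
    exact h2 b _ (inv_mem hh) e3
  have hY1 : ∀ b, ∀ h ∈ H, h ≠ 1 → ∀ w, w ∈ Y b → h • w ∈ Y b → False := by
    intro b h hh hne w hw hw'
    have e1 : (g b)⁻¹ * w.head ∈ B := hw.1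
    have e2 : (g b)⁻¹ * (h * w.head) ∈ B := hw'.1
    have e3 : ((g b)⁻¹ * (h * w.head)) * ((g b)⁻¹ * w.head)⁻¹ ∈ B :=
      mul_mem e2 (inv_mem e1)
    have e4 : ((g b)⁻¹ * (h * w.head)) * ((g b)⁻¹ * w.head)⁻¹ = (g b)⁻¹ * h * g b := by
      group
    rw [e4] at e3
    exact hne (h1 b h hh e3)
  let X : Option Bool → Set (NormalWord d) := fun o =>
    match o with
    | none => {w | w ∉ Y true ∧ w ∉ Y false}
    | some b => Y b
  have hu : ∀ b (n : ℤ), n ≠ 0 → ∀ w, w ∉ Y b → uel A B φ x (g b) ^ n • w ∈ Y b := by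
    intro b n hn w hw
    exact uel_smul x (g b) n (hx n hn) w hw
  have hdisj : ∀ b w, w ∈ Y b → w ∉ Y (!b) := by
    intro b w hw hw'
    exact hY b 1 (one_mem _) w hw (by rwa [one_smul])
  refine Monoid.CoprodI.lift_injective_of_ping_pong (famHom φ H x g) ?_ X ?_ ?_ ?_
  · left
    simp
  · rintro (_ | b)
    · refine ⟨empty, ?_, ?_⟩
      · intro h
        simpa using h.2
      · intro h
        simpa using h.2
    · refine ⟨uel A B φ x (g b) ^ (1 : ℤ) • empty, hu b 1 one_ne_zero _ ?_⟩
      intro h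
      simpa using h.2
  · rintro (_ | b) (_ | b') hne
    · exact absurd rfl hne
    · rw [Function.onFun, Set.disjoint_left]
      intro w hw hw'
      cases b'
      · exact hw.2 hw'
      · exact hw.1 hw'
    · rw [Function.onFun, Set.disjoint_left]
      intro w hw hw'
      cases b
      · exact hw'.2 hw
      · exact hw'.1 hw
    · rw [Function.onFun, Set.disjoint_left]
      intro w hw hw'
      have hb : b' = !b := Bool.eq_not.2 fun h => hne (congrArg some h.symm)
      subst hb
      exact hdisj b w hw hw'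
  · rintro (_ | b) (_ | b') hne h hh
    · exact absurd rfl hne
    · rintro _ ⟨w, hw, rfl⟩
      have hh' : ((show H from h) : K) ≠ 1 := by
        intro h0
        exact hh (Subtype.ext h0)
      have e : famHom φ H x g none h • w = ((show H from h) : K) • w := of_smul_eq_smul _ _ _
      have hk : ∀ b, ((show H from h) : K) • w ∉ Y b := by
        intro b hb
        by_cases hbb : b = b'
        · subst hbb
          exact hY1 b _ (show H from h).2 hh' w hw hb
        · have hb' : b = !b' := Bool.eq_not.2 hbb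
          subst hb'
          exact hY b' _ (show H from h).2 w hw hb
      show famHom φ H x g none h • w ∈ X none
      rw [e]
      exact ⟨hk true, hk false⟩
    · rintro _ ⟨w, hw, rfl⟩
      have hn : Multiplicative.toAdd (show Multiplicative ℤ from h) ≠ 0 := by
        intro h0
        exact hh (Multiplicative.toAdd.injective h0)
      have hwb : w ∉ Y b := by
        cases b
        · exact hw.2
        · exact hw.1
      exact hu b _ hn w hwb
    · rintro _ ⟨w, hw, rfl⟩
      have hn : Multiplicative.toAdd (show Multiplicative ℤ from h) ≠ 0 := by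
        intro h0
        exact hh (Multiplicative.toAdd.injective h0)
      have hb : b = !b' := Bool.eq_not.2 fun h => hne (congrArg some h)
      have hwb : w ∉ Y b := by
        subst hb
        exact hdisj b' w hw
      exact hu b _ hn w hwb

end FBC
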