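import Pool.Agent.Lib.MP_c6644d_al.GOrb
import Pool.Agent.Lib.MP_c6644d_al.GAct
import Pool.Agent.Lib.MP_c6644d_al.GHom

/-!
MP_c6644d_al, group level (helper50): consequences of the action.
-/

set_option autoImplicit false

open StateTransition

namespace FBC

/-! ### iterated steps -/

theorem iterO_succ_last {M : RM} : ∀ {i : ℕ} {c d : M.A × ℤ}, iterO M (i + 1) c = some d →
    ∃ e, iterO M i c = some e ∧ M.step e = some d
  | 0, c, d, h => by
    refine ⟨c, rfl, ?_⟩
    cases hc : M.step c with
    | none => simp [iterO, hc] at h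
    | some c' => simpa [iterO, hc] using h
  | i + 1, c, d, h => by
    cases hc : M.step c with
    | none => simp [iterO, hc] at h
    | some c' =>
      have h2 : iterO M (i + 1) c' = some d := by
        rw [iterO, hc] at h
        exact h
      obtain ⟨e, h3, h4⟩ := iterO_succ_last h2
      refine ⟨e, ?_, h4⟩
      rw [iterO, hc]
      exact h3

theorem iterO_reaches {M : RM} : ∀ {i : ℕ} {c d : M.A × ℤ}, iterO M i c = some d →
    Reaches M.step c d
  | 0, c, d, h => by
    have : c = d := by simpa [iterO] using h
    subst this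
    exact Relation.ReflTransGen.refl
  | i + 1, c, d, h => by
    obtain ⟨e, h1, h2⟩ := iterO_succ_last h
    exact (iterO_reaches h1).tail h2

theorem iterO_tail {M : RM} {i : ℕ} {c d e : M.A × ℤ} (h : iterO M i c = some d)
    (h2 : M.step d = some e) : iterO M (i + 1) c = some e := by
  induction i generalizing c with
  | zero =>
    have : c = d := by simpa [iterO] using h
    subst this
    simp [iterO, h2]
  | succ i ih =>
    cases hc : M.step c with
    | none => simp [iterO, hc] at h
    | some c' =>
      have h3 : iterO M i c' = some d := by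
        rw [iterO, hc] at h
        exact h
      rw [iterO, hc]
      exact ih h3

theorem reaches_iterO {M : RM} {c d : M.A × ℤ} (h : Reaches M.step c d) :
    ∃ i, iterO M i c = some d := by
  induction h with
  | refl => exact ⟨0, rfl⟩
  | @tail d e _ hde ih =>
    obtain ⟨i, hi⟩ := ih
    exact ⟨i + 1, iterO_tail hi hde⟩

/-- a periodic configuration has a finite forward orbit -/
theorem periodic_finite {M : RM} {n : ℕ} {d : M.A × ℤ} (h : iterO M (n + 1) d = some d) :
    {c | Reaches M.step d c}.Finite := by
  have hsub : {c | Reaches M.step d c} ⊆ {c | ∃ i ∈ Set.Iio (n + 1), iterO M i d = some c} := by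
    intro c hc
    have hc' : Reaches M.step d c := hc
    induction hc' with
    | refl => exact ⟨0, Nat.succ_pos n, rfl⟩
    | @tail e f h0 hef ih =>
      obtain ⟨i, hi, h2⟩ := ih h0
      have h3 : iterO M (i + 1) d = some f := iterO_tail h2 hef
      by_cases hin : i + 1 < n + 1
      · exact ⟨i + 1, hin, h3⟩
      · have hin' : i = n := by
          have : i < n + 1 := hi
          omega
        subst hin'
        rw [h] at h3
        have h4 : d = f := by simpa using h3
        subst h4
        exact ⟨0, Nat.succ_pos _, rfl⟩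
  refine Set.Finite.subset ?_ hsub
  have : {c | ∃ i ∈ Set.Iio (n + 1), iterO M i d = some c} ⊆
      (fun i => (iterO M i d).getD d) '' Set.Iio (n + 1) := by
    rintro c ⟨i, hi, h2⟩
    exact ⟨i, hi, by simp [h2]⟩
  exact ((Set.finite_Iio _).image _).subset this

/-! ### the action -/

section Act

variable {M : RM} {Om : Type} {rho : GK →* (Equiv.Perm Om)ᵐᵒᵖ} {j : M.A × ℤ → Om}

/-- the right action of `K` -/
def act (rho : GK →* (Equiv.Perm Om)ᵐᵒᵖ) (w : Om) (k : GK) : Om := (rho k).unop w

theorem act_mul (w : Om) (k l : GK) : act rho w (k * l) = act rho (act rho w k) l := by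
  simp [act, map_mul, Equiv.Perm.mul_apply]

theorem act_one (w : Om) : act rho w 1 = w := by
  simp [act]

theorem act_inv {w v : Om} {k : GK} (h : act rho w k = v) : act rho v k⁻¹ = w := by
  rw [← h, ← act_mul, mul_inv_cancel, act_one]

/-- the data of `exists_action` -/
structure IsAct (M : RM) (rho : GK →* (Equiv.Perm Om)ᵐᵒᵖ) (j : M.A × ℤ → Om) : Prop where
  inj : Function.Injective j
  ht : ∀ a n, act rho (j (a, n)) kt = j (a, n + M.p a)
  hs : ∀ a n, act rho (j (a, n)) (kx * kt) = j (a, n + M.q a)
  hc : ∀ c c2, M.step c = some c2 → act rho (j c) kc = j c2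
  hi : ∀ (i : ℕ) c c2, act rho (j c) (kc ^ i) = j c2 → iterO M i c = some c2

variable (ha : IsAct M rho j)
include ha

theorem act_tr (a : M.A) (n : ℤ) : act rho (j (a, n)) (tr M a) = j (a, n + 1) := by
  unfold tr
  split_ifs with h
  · rw [ha.ht, h]
    rfl
  · have h2 : M.q a = 1 := (M.h1 a).resolve_left h
    rw [ha.hs, h2]
    rfl

theorem act_tr_zpow (a : M.A) (n m : ℤ) : act rho (j (a, n)) (tr M a ^ m) = j (a, n + m) := by
  induction m using Int.induction_on with
  | zero => simp [act_one]
  | succ k ih =>
    rw [zpow_add_one, act_mul, ih, act_tr ha, add_assoc]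
  | pred k ih =>
    rw [zpow_sub_one, act_mul, ih]
    apply act_inv
    rw [act_tr ha]
    congr 2
    ring

omit ha in
/-- valid vertices -/
def Val (M : RM) (rho : GK →* (Equiv.Perm Om)ᵐᵒᵖ) (j : M.A × ℤ → Om) (a0 a : M.A) : Prop :=
  ∃ k, act rho (j (a0, 0)) k = j (a, 0)

omit ha in
open Classical in
/-- path words -/
noncomputable def gvw (M : RM) (rho : GK →* (Equiv.Perm Om)ᵐᵒᵖ) (j : M.A × ℤ → Om) (a0 a : M.A) :
    GK := if h : Val M rho j a0 a then h.choose else 1

omit ha in
theorem act_gvw {a0 a : M.A} (h : Val M rho j a0 a) :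
    act rho (j (a0, 0)) (gvw M rho j a0 a) = j (a, 0) := by
  rw [gvw, dif_pos h]
  exact h.choose_spec

theorem act_pos {a0 : M.A} {c : M.A × ℤ} (h : Val M rho j a0 c.1) :
    act rho (j (a0, 0)) (pos M (gvw M rho j a0) c) = j c := by
  rw [pos, act_mul, act_gvw h, act_tr_zpow ha, zero_add]

theorem val_step {a0 : M.A} {c d : M.A × ℤ} (h : Val M rho j a0 c.1) (hs : M.step c = some d) :
    Val M rho j a0 d.1 := by
  refine ⟨pos M (gvw M rho j a0) c * kc * tr M d.1 ^ (-d.2), ?_⟩
  rw [act_mul, act_mul, act_pos ha h, ha.hc c d hs]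
  have := act_tr_zpow ha d.1 d.2 (-d.2)
  rw [add_neg_cancel] at this
  exact this

theorem H_stab {a0 : M.A} {h : GK} (hh : h ∈ Hsub M (Val M rho j a0) (gvw M rho j a0)) :
    act rho (j (a0, 0)) h = j (a0, 0) := by
  induction hh using Subgroup.closure_induction with
  | one => exact act_one _
  | mul x y _ _ h1 h2 => rw [act_mul, h1, h2]
  | inv x _ h1 => exact act_inv h1
  | mem x hx =>
    obtain ⟨i, rfl⟩ := hx
    rcases i with a | a | ⟨a, μ⟩
    · by_cases hV : Val M rho j a0 a
      · simp only [hgen, hV, if_true]
        rw [act_mul, act_mul, act_gvw hV, act_mul, ha.ht]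
        have h1 := act_inv (act_tr_zpow ha a 0 (M.p a))
        rw [h1]
        exact act_inv (act_gvw hV)
      · simp only [hgen, hV, if_false]
        exact act_one _
    · by_cases hV : Val M rho j a0 a
      · simp only [hgen, hV, if_true]
        rw [act_mul, act_mul, act_gvw hV, act_mul, ha.hs]
        have h1 := act_inv (act_tr_zpow ha a 0 (M.q a))
        rw [h1]
        exact act_inv (act_gvw hV)
      · simp only [hgen, hV, if_false]
        exact act_one _
    · cases hd : M.del a μ with
      | none =>
        simp only [hgen, hd]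
        exact act_one _
      | some x =>
        obtain ⟨b, ν⟩ := x
        by_cases hV : Val M rho j a0 a
        · simp only [hgen, hd, hV, if_true]
          have hstep : M.step (a, ((μ : ℕ) : ℤ)) = some (b, (ν : ℤ)) :=
            M.step_eq_some.2 ⟨0, μ, ν, hd, by simp, by simp⟩
          have hVb : Val M rho j a0 b := val_step ha (c := (a, ((μ : ℕ) : ℤ))) hV hstep
          rw [act_mul, act_mul, act_mul, act_mul, act_gvw hV, act_tr_zpow ha, zero_add,
            ha.hc _ _ hstep]
          have h1 := act_inv (act_tr_zpow ha b 0 (ν : ℤ))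
          rw [zero_add] at h1
          rw [h1]
          exact act_inv (act_gvw hVb)
        · simp only [hgen, hd, hV, if_false]
          exact act_one _

end Act

end FBC
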