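import Pool.Agent.Lib.MP_c6644d_al.RClean

/-!
# Arithmetic functions computed cleanly
-/

namespace Pool.Agent.Lib.MP_c6644d_al

namespace RProg

theorem Clean.comp {m n : ℕ} {f : (Fin m → ℕ) → ℕ} {g : Fin m → (Fin n → ℕ) → ℕ}
    (hf : Clean m f) (hg : ∀ j, Clean n (g j)) : Clean n (fun x => f (fun j => g j x)) := by
  intro i o b hi ho hb
  have key : ∀ l ≤ m, ∃ A, ∀ s, Z b s → Ev A s (fun r => if h : b ≤ r ∧ r - b < m then
      (if r - b < l then g ⟨r - b, h.2⟩ (fun k => s (i k)) else s r) else s r) := by
    intro l
    induction l with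
    | zero =>
      intro _
      refine ⟨skip, fun s hs => ?_⟩
      show _ = s
      funext r
      by_cases h : b ≤ r ∧ r - b < m <;> simp [h]
    | succ l ih =>
      intro hl
      obtain ⟨A, hA⟩ := ih (by omega)
      obtain ⟨G, hG⟩ := hg ⟨l, by omega⟩ i (b + l) (b + m) (fun k => by have := hi k; omega)
        (fun k => by have := hi k; omega) (by omega)
      refine ⟨seq A G, fun s hs => ⟨_, hA s hs, ?_⟩⟩
      have h2 := hG (fun r => if h : b ≤ r ∧ r - b < m then
        (if r - b < l then g ⟨r - b, h.2⟩ (fun k => s (i k)) else s r) else s r)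
        (fun j hj => by
          have : ¬ (b ≤ j ∧ j - b < m) := by omega
          simp only [this, dite_false]
          exact hs j (by omega))
      convert h2 using 1
      funext r
      have e : ∀ k, (if h : b ≤ i k ∧ i k - b < m then
        (if i k - b < l then g ⟨i k - b, h.2⟩ (fun k => s (i k)) else s (i k)) else s (i k))
        = s (i k) := by
        intro k
        have : ¬ (b ≤ i k ∧ i k - b < m) := by have := hi k; omega
        simp [this]
      simp only [e]
      by_cases h0 : r = b + l
      · subst h0
        have h1 : b ≤ b + l ∧ b + l - b < m := by omega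
        have h3 : b + l - b = l := by omega
        have h4 := hs (b + l) (by omega)
        simp only [h1, and_self, dite_true, Function.update_self]
        simp [h3, h4]
      · rw [Function.update_of_ne h0]
        by_cases h1 : b ≤ r ∧ r - b < m
        · simp only [h1, and_self, dite_true]
          have : r - b < l + 1 ↔ r - b < l := by omega
          simp only [this]
        · simp only [h1, dite_false]
  obtain ⟨A, hA⟩ := key m le_rfl
  obtain ⟨F, hF⟩ := hf (fun j => b + j) o (b + m) (fun k => by have := k.2; omega)
    (fun k => by omega) (by omega)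
  have := adds_conj (A := A) (b := b) (b' := b + m) (o := o)
    (τ := fun s r => if h : b ≤ r ∧ r - b < m then
      (if r - b < m then g ⟨r - b, h.2⟩ (fun k => s (i k)) else s r) else s r) hb hA
    (fun s hs j hj => by
      have : ¬ (b ≤ j ∧ j - b < m) := by omega
      simp only [this, dite_false]
      exact hs j (by omega))
    (fun s v hs => by
      funext r
      have e : (fun k => Function.update s o v (i k)) = fun k => s (i k) := by
        funext k
        rw [Function.update_of_ne (ho k)]
      simp only [e]
      by_cases h0 : r = o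
      · subst h0
        have : ¬ (b ≤ r ∧ r - b < m) := by omega
        simp [this]
      · rw [Function.update_of_ne h0, Function.update_of_ne h0])
    hF
  refine ⟨seq A (seq F (inv A)), fun s hs => ?_⟩
  have h2 := this s hs
  have e1 : ∀ j : Fin m, (if h : b ≤ b + (j : ℕ) ∧ b + (j : ℕ) - b < m then
      (if b + (j : ℕ) - b < m then g ⟨b + (j : ℕ) - b, h.2⟩ (fun k => s (i k))
        else s (b + (j : ℕ))) else s (b + (j : ℕ))) = g j (fun k => s (i k)) := by
    intro j
    have h3 : b ≤ b + (j : ℕ) ∧ b + (j : ℕ) - b < m := by have := j.2; omega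
    have h4 : (⟨b + (j : ℕ) - b, h3.2⟩ : Fin m) = j := by
      apply Fin.ext; simp
    simp only [h3, and_self, dite_true, if_true, h4]
  simp only [e1] at h2
  exact h2

theorem Clean.comp1 {n : ℕ} {F : ℕ → ℕ} {f : (Fin n → ℕ) → ℕ}
    (hF : Clean 1 (fun x => F (x 0))) (hf : Clean n f) : Clean n (fun x => F (f x)) :=
  Clean.comp (g := fun _ => f) hF (fun _ => hf)

theorem Clean.comp2 {n : ℕ} {F : ℕ → ℕ → ℕ} {f g : (Fin n → ℕ) → ℕ}
    (hF : Clean 2 (fun x => F (x 0) (x 1))) (hf : Clean n f) (hg : Clean n g) :
    Clean n (fun x => F (f x) (g x)) := by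
  have := Clean.comp (g := ![f, g]) hF (by
    intro j
    fin_cases j
    · exact hf
    · exact hg)
  simpa using this

theorem clean_mul : Clean 2 (fun x => x 0 * x 1) := by
  have h := (clean_proj 2 1).sum
  have e : (fun x : Fin 2 → ℕ => ∑ k ∈ Finset.range (x 0),
      (Fin.cons k (fun l => x l.succ) : Fin 2 → ℕ) 1) = fun x => x 0 * x 1 := by
    funext x
    have : ∀ k : ℕ, (Fin.cons k (fun l => x l.succ) : Fin 2 → ℕ) 1 = x 1 := fun k => rfl
    simp [this]
  rwa [e] at h

theorem Clean.mul {n : ℕ} {f g : (Fin n → ℕ) → ℕ} (hf : Clean n f) (hg : Clean n g) :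
    Clean n (fun x => f x * g x) := Clean.comp2 (F := fun a b => a * b) clean_mul hf hg

theorem clean_sub : Clean 2 (fun x => x 0 - x 1) := by
  intro i o b hi ho hb
  have hi0 := hi 0
  have hi1 := hi 1
  have ho0 := ho 0
  have ho1 := ho 1
  obtain ⟨PX, hPX⟩ := clean_proj 2 0 i b (b + 4) (fun k => by have := hi k; omega)
    (fun k => (hi k).ne) (by omega)
  obtain ⟨PY, hPY⟩ := clean_proj 2 1 i (b + 1) (b + 4) (fun k => by have := hi k; omega)
    (fun k => by have := hi k; omega) (by omega)
  obtain ⟨M, hM⟩ := clean_mul ![b, b + 1] (b + 3) (b + 4)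
    (fun k => by fin_cases k <;> simp) (fun k => by fin_cases k <;> simp) (by omega)
  obtain ⟨C, hC⟩ := clean_proj 1 0 (fun _ => b) o (b + 4) (fun k => by omega)
    (fun k => by omega) (by omega)
  let st : (ℕ → ℕ) → ℕ → ℕ → ℕ → ℕ → (ℕ → ℕ) := fun s x y h t r =>
    if r = b then x else if r = b + 1 then y else if r = b + 2 then h
    else if r = b + 3 then t else s r
  have hZst : ∀ s x y h t, Z b s → Z (b + 4) (st s x y h t) := by
    intro s x y h t hs j hj
    have h1 : j ≠ b := by omega
    have h2 : j ≠ b + 1 := by omega
    have h3 : j ≠ b + 2 := by omega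
    have h4 : j ≠ b + 3 := by omega
    simp only [st, h1, h2, h3, h4, if_false]
    exact hs j (by omega)
  have hMst : ∀ s x y h, Z b s → Ev M (st s x y h 0) (st s x y h (x * y)) := by
    intro s x y h hs
    have := hM _ (hZst s x y h 0 hs)
    convert this using 1
    funext r
    simp [st, Function.update_apply]
    split_ifs <;> first | rfl | omega
  let A : RProg := seq PX (seq PY (loop (b + 2) M
    (seq (inv M) (seq (dec b) (seq (dec (b + 1)) (inc (b + 2))))) (b + 3)))
  let τ : (ℕ → ℕ) → (ℕ → ℕ) := fun s =>
    st s (s (i 0) - s (i 1)) (s (i 1) - s (i 0)) (min (s (i 0)) (s (i 1))) 0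
  have hA : ∀ s, Z b s → Ev A s (τ s) := by
    intro s hs
    set x := s (i 0) with hx
    set y := s (i 1) with hy
    have hb0 := hs b le_rfl
    have hb1 := hs (b + 1) (by omega)
    have hb2 := hs (b + 2) (by omega)
    have hb3 := hs (b + 3) (by omega)
    refine ⟨Function.update s b x, ?_, Function.update (Function.update s b x) (b + 1) y, ?_, ?_⟩
    · have := hPX s (hs.mono (by omega))
      simpa [hb0] using this
    · have := hPY (Function.update s b x) ((hs.mono (by omega)).update (by omega))
      simp only [] at this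
      rw [Function.update_of_ne (by omega), hb1, zero_add,
        Function.update_of_ne (hi 1).ne] at this
      exact this
    · have e0 : Function.update (Function.update s b x) (b + 1) y = st s x y 0 0 := by
        funext r
        simp only [st, Function.update_apply]
        split_ifs <;> first | rfl | omega | (subst_vars; assumption)
      rw [e0]
      have := loop_intro (i := b + 2) (j := b + 3) (D := M)
        (P := seq (inv M) (seq (dec b) (seq (dec (b + 1)) (inc (b + 2)))))
        (s := st s x y 0 0) (min x y)
        (fun k => st s (x - k) (y - k) k ((x - k) * (y - k)))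
        (fun k => st s (x - (k + 1)) (y - (k + 1)) (k + 1) 0)
        (by simp [st]) (by simpa using hMst s x y 0 hs)
        (by
          intro k hk
          have hkx : k < x := lt_of_lt_of_le hk (min_le_left _ _)
          have hky : k < y := lt_of_lt_of_le hk (min_le_right _ _)
          refine ⟨?_, ⟨st s (x - k) (y - k) k 0, (hMst s (x - k) (y - k) k hs).inv,
            st s (x - (k + 1)) (y - k) k 0, ⟨?_, ?_⟩,
            st s (x - (k + 1)) (y - (k + 1)) k 0, ⟨?_, ?_⟩, ?_⟩, ?_, hMst s _ _ _ hs⟩
          · simp [st]; omega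
          · simp [st]; omega
          · funext r
            simp only [st, Function.update_apply]
            split_ifs <;> first | rfl | omega
          · simp [st]; omega
          · funext r
            simp only [st, Function.update_apply]
            split_ifs <;> first | rfl | omega
          · show _ = Function.update _ _ _
            funext r
            simp only [st, Function.update_apply]
            split_ifs <;> first | rfl | omega
          · simp [st])
        (by
          simp [st]; omega)
      convert this using 1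
      show st s (x - y) (y - x) (min x y) 0 = _
      have e1 : x - min x y = x - y := by omega
      have e2 : y - min x y = y - x := by omega
      have e3 : (x - y) * (y - x) = 0 := by
        rcases le_total x y with h | h
        · simp [Nat.sub_eq_zero_of_le h]
        · simp [Nat.sub_eq_zero_of_le h]
      rw [e1, e2, e3]
  have hconj := adds_conj (A := A) (F := C) (b := b) (b' := b + 4) (o := o) (τ := τ) hb hA
    (fun s hs => hZst _ _ _ _ _ hs)
    (fun s v hs => by
      simp only [τ, Function.update_of_ne ho0, Function.update_of_ne ho1]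
      funext r
      simp only [st, Function.update_apply]
      split_ifs <;> first | rfl | omega)
    hC
  refine ⟨seq A (seq C (inv A)), fun s hs => ?_⟩
  have := hconj s hs
  simpa [τ, st] using this

theorem Clean.sub {n : ℕ} {f g : (Fin n → ℕ) → ℕ} (hf : Clean n f) (hg : Clean n g) :
    Clean n (fun x => f x - g x) := Clean.comp2 (F := fun a b => a - b) clean_sub hf hg

theorem sum_sqrt (n : ℕ) :
    ∑ k ∈ Finset.range n, (1 - ((k + 1) * (k + 1) - n)) = Nat.sqrt n := by
  have h1 : ∀ k ∈ Finset.range n, (1 - ((k + 1) * (k + 1) - n)) = if k < Nat.sqrt n then 1 else 0 := by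
    intro k _
    by_cases h : k < Nat.sqrt n
    · have : (k + 1) * (k + 1) ≤ n := Nat.le_sqrt.1 h
      rw [if_pos h, Nat.sub_eq_zero_of_le this]
    · have : ¬ (k + 1) * (k + 1) ≤ n := fun h2 => h (Nat.le_sqrt.2 h2)
      rw [if_neg h]
      omega
  rw [Finset.sum_congr rfl h1, Finset.sum_ite, Finset.sum_const_zero, add_zero, Finset.sum_const,
    smul_eq_mul, mul_one]
  have h2 : Finset.filter (fun k => k < Nat.sqrt n) (Finset.range n) = Finset.range (Nat.sqrt n) := by
    ext k
    simp only [Finset.mem_filter, Finset.mem_range]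
    have := Nat.sqrt_le_self n
    omega
  rw [h2, Finset.card_range]

theorem clean_sqrt : Clean 1 (fun x => Nat.sqrt (x 0)) := by
  have h1 : Clean 2 (fun x => (1 - ((x 0 + 1) * (x 0 + 1) - x 1))) :=
    (clean_one 2).sub ((((clean_proj 2 0).add (clean_one 2)).mul
      ((clean_proj 2 0).add (clean_one 2))).sub (clean_proj 2 1))
  have h2 : Clean 2 (fun x => ∑ k ∈ Finset.range (x 0), (1 - ((k + 1) * (k + 1) - x 1))) := h1.sum
  have h3 := Clean.comp2 (F := fun a b => ∑ k ∈ Finset.range a, (1 - ((k + 1) * (k + 1) - b)))
    h2 (clean_proj 1 0) (clean_proj 1 0)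
  simpa only [sum_sqrt] using h3

/-- The pairing used for the stack. -/
def J (a b : ℕ) : ℕ := (a + b) * (a + b) + a

/-- First component. -/
def JL (n : ℕ) : ℕ := n - Nat.sqrt n * Nat.sqrt n

/-- Second component. -/
def JR (n : ℕ) : ℕ := Nat.sqrt n - (n - Nat.sqrt n * Nat.sqrt n)

theorem sqrt_J (a b : ℕ) : Nat.sqrt (J a b) = a + b :=
  Nat.sqrt_add_eq _ (by omega)

theorem JL_J (a b : ℕ) : JL (J a b) = a := by
  rw [JL, sqrt_J, J]; omega

theorem JR_J (a b : ℕ) : JR (J a b) = b := by
  rw [JR, sqrt_J, J]; omega

theorem clean_J : Clean 2 (fun x => J (x 0) (x 1)) :=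
  (((clean_proj 2 0).add (clean_proj 2 1)).mul
    ((clean_proj 2 0).add (clean_proj 2 1))).add (clean_proj 2 0)

theorem clean_JL : Clean 1 (fun x => JL (x 0)) :=
  (clean_proj 1 0).sub (clean_sqrt.mul clean_sqrt)

theorem clean_JR : Clean 1 (fun x => JR (x 0)) :=
  clean_sqrt.sub ((clean_proj 1 0).sub (clean_sqrt.mul clean_sqrt))

end RProg

end Pool.Agent.Lib.MP_c6644d_al
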