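import Pool.Agent.Lib.MP_c6644d_al.RM

set_option autoImplicit false

/-!
# MP_c6644d_al: reversible counter machines

A reversible counter machine is a finite graph whose edges carry operations on registers
(`nop`, `inc i`, `dec i`, test `r i = 0`, test `r i ≠ 0`). Two different edges with the same source
must be `zero i` and `pos i` for one `i`, and the same holds for two edges with the same target.
Such a machine becomes a residue machine through `n = ∏ i, (i-th prime) ^ r i`.
-/

namespace FBC

open StateTransition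

/-- Operations. -/
inductive Kind
  | nop | inc (i : ℕ) | dec (i : ℕ) | zero (i : ℕ) | pos (i : ℕ)
  deriving DecidableEq

/-- the `i`-th prime -/
noncomputable def pr (i : ℕ) : ℕ := Nat.nth Nat.Prime i

theorem pr_prime (i : ℕ) : (pr i).Prime := Nat.prime_nth_prime i

theorem pr_inj {i j : ℕ} (h : pr i = pr j) : i = j :=
  Nat.nth_injective Nat.infinite_setOfPred_prime h

theorem pr_zero : pr 0 = 2 := Nat.nth_prime_zero_eq_two

theorem pr_one : pr 1 = 3 := Nat.nth_prime_one_eq_three

namespace Kind

/-- all registers used are `< K` -/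
def Bd (K : ℕ) : Kind → Prop
  | nop => True
  | inc i => i < K
  | dec i => i < K
  | zero i => i < K
  | pos i => i < K

/-- the operation as a relation between register contents -/
def Rel : Kind → (ℕ → ℕ) → (ℕ → ℕ) → Prop
  | nop, r, r' => r' = r
  | inc i, r, r' => r' = Function.update r i (r i + 1)
  | dec i, r, r' => r i ≠ 0 ∧ r' = Function.update r i (r i - 1)
  | zero i, r, r' => r i = 0 ∧ r' = r
  | pos i, r, r' => r i ≠ 0 ∧ r' = r

/-- complementary tests -/
def Compat : Kind → Kind → Prop
  | zero i, pos j => i = j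
  | pos i, zero j => i = j
  | _, _ => False

noncomputable def P : Kind → ℕ
  | nop => 1
  | inc _ => 1
  | dec i => pr i
  | zero i => pr i
  | pos i => pr i

noncomputable def Q : Kind → ℕ
  | nop => 1
  | inc i => pr i
  | dec _ => 1
  | zero i => pr i
  | pos i => pr i

def cond : Kind → ℕ → Prop
  | zero i, μ => μ ≠ 0 ∧ μ < pr i
  | _, μ => μ = 0

theorem P_pos (k : Kind) : 0 < k.P := by
  cases k <;> simp [P, (pr_prime _).pos]

theorem Q_pos (k : Kind) : 0 < k.Q := by
  cases k <;> simp [Q, (pr_prime _).pos]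

theorem cond_lt {k : Kind} {μ : ℕ} (h : k.cond μ) : μ < k.P ∧ μ < k.Q := by
  cases k <;> simp only [cond] at h <;> simp only [P, Q]
  · omega
  · subst h
    exact ⟨by norm_num, (pr_prime _).pos⟩
  · subst h
    exact ⟨(pr_prime _).pos, by norm_num⟩
  · exact ⟨h.2, h.2⟩
  · subst h
    exact ⟨(pr_prime _).pos, (pr_prime _).pos⟩

theorem Compat.P_eq {k k' : Kind} (h : Compat k k') : k.P = k'.P := by
  cases k <;> cases k' <;> simp_all [Compat, P]

theorem Compat.Q_eq {k k' : Kind} (h : Compat k k') : k.Q = k'.Q := by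
  cases k <;> cases k' <;> simp_all [Compat, Q]

theorem Compat.not_cond {k k' : Kind} (h : Compat k k') {μ : ℕ} (h1 : k.cond μ) (h2 : k'.cond μ) :
    False := by
  cases k <;> cases k' <;> simp_all [Compat, cond]

end Kind

/-- encoding of the first `K` registers -/
noncomputable def enc (K : ℕ) (r : ℕ → ℕ) : ℕ := ∏ i ∈ Finset.range K, pr i ^ r i

theorem enc_update {K i : ℕ} (hi : i < K) (r : ℕ → ℕ) :
    enc K (Function.update r i (r i + 1)) = pr i * enc K r := by
  have hi' : i ∈ Finset.range K := Finset.mem_range.2 hi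
  unfold enc
  rw [← Finset.mul_prod_erase _ _ hi', ← Finset.mul_prod_erase (Finset.range K)
    (fun j => pr j ^ r j) hi', Function.update_self, pow_succ']
  rw [mul_assoc]
  congr 2
  apply Finset.prod_congr rfl
  intro j hj
  rw [Function.update_of_ne (Finset.ne_of_mem_erase hj)]

theorem enc_dvd {K i : ℕ} (hi : i < K) (r : ℕ → ℕ) : pr i ∣ enc K r ↔ r i ≠ 0 := by
  constructor
  · intro h hr
    unfold enc at h
    rw [Prime.dvd_finsetProd_iff (pr_prime i).prime] at h
    obtain ⟨j, -, hj⟩ := h
    have h1 := (pr_prime i).dvd_of_dvd_pow hj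
    have h2 := pr_inj ((Nat.prime_dvd_prime_iff_eq (pr_prime i) (pr_prime j)).1 h1)
    subst h2
    rw [hr, pow_zero] at hj
    exact (pr_prime i).one_lt.ne' (Nat.dvd_one.1 hj)
  · intro h
    have h1 : r = Function.update (Function.update r i (r i - 1)) i
        ((Function.update r i (r i - 1)) i + 1) := by
      rw [Function.update_idem, Function.update_self, Nat.sub_add_cancel (Nat.pos_of_ne_zero h),
        Function.update_eq_self]
    rw [h1, enc_update hi]
    exact dvd_mul_right _ _

theorem enc_pred {K i : ℕ} (hi : i < K) {r : ℕ → ℕ} (h : r i ≠ 0) :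
    enc K r = pr i * enc K (Function.update r i (r i - 1)) := by
  have h1 : r = Function.update (Function.update r i (r i - 1)) i
      ((Function.update r i (r i - 1)) i + 1) := by
    rw [Function.update_idem, Function.update_self, Nat.sub_add_cancel (Nat.pos_of_ne_zero h),
      Function.update_eq_self]
  conv_lhs => rw [h1]
  rw [enc_update hi]

/-- An operation on registers in terms of the encoding. -/
theorem Kind.Rel.enc {K : ℕ} {k : Kind} (hk : k.Bd K) {r r' : ℕ → ℕ} (h : k.Rel r r') :
    ∃ (x μ : ℕ), k.cond μ ∧ FBC.enc K r = k.P * x + μ ∧ FBC.enc K r' = k.Q * x + μ := by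
  cases k with
  | nop =>
    simp only [Rel] at h
    subst h
    exact ⟨FBC.enc K r', 0, by simp [cond], by simp [P], by simp [Q]⟩
  | inc i =>
    simp only [Rel] at h
    subst h
    exact ⟨FBC.enc K r, 0, by simp [cond], by simp [P], by simp [Q, enc_update hk]⟩
  | dec i =>
    obtain ⟨h1, rfl⟩ := h
    exact ⟨FBC.enc K (Function.update r i (r i - 1)), 0, by simp [cond],
      by simp [P, enc_pred hk h1], by simp [Q]⟩
  | zero i =>
    obtain ⟨h1, rfl⟩ := h
    refine ⟨FBC.enc K r' / pr i, FBC.enc K r' % pr i, ⟨?_, Nat.mod_lt _ (pr_prime i).pos⟩,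
      ?_, ?_⟩
    · intro h2
      exact (enc_dvd hk r').1 (Nat.dvd_of_mod_eq_zero h2) h1
    · simp only [P]
      exact (Nat.div_add_mod _ _).symm
    · simp only [Q]
      exact (Nat.div_add_mod _ _).symm
  | pos i =>
    obtain ⟨h1, rfl⟩ := h
    refine ⟨FBC.enc K (Function.update r' i (r' i - 1)), 0, by simp [cond], ?_, ?_⟩
    · simp only [P, add_zero]
      exact enc_pred hk h1
    · simp only [Q, add_zero]
      exact enc_pred hk h1

/-- Reversible counter machines. -/
structure RCM where
  S : Type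
  fin : Finite S
  K : ℕ
  Edge : S → Kind → S → Prop
  bd : ∀ {s k t}, Edge s k t → k.Bd K
  det : ∀ {s k t k' t'}, Edge s k t → Edge s k' t' → (k = k' ∧ t = t') ∨ Kind.Compat k k'
  rev : ∀ {s k t k' s'}, Edge s k t → Edge s' k' t → (k = k' ∧ s = s') ∨ Kind.Compat k k'

namespace RCM

variable (M : RCM)

/-- one step -/
def Step (c c' : M.S × (ℕ → ℕ)) : Prop := ∃ k, M.Edge c.1 k c'.1 ∧ k.Rel c.2 c'.2

open Classical in
noncomputable def pv (s : M.S) : ℕ := if h : ∃ k t, M.Edge s k t then h.choose.P else 1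

open Classical in
noncomputable def qv (t : M.S) : ℕ := if h : ∃ k s, M.Edge s k t then h.choose.Q else 1

theorem pv_eq {s t : M.S} {k : Kind} (h : M.Edge s k t) : M.pv s = k.P := by
  have h' : ∃ k t, M.Edge s k t := ⟨k, t, h⟩
  rw [pv, dif_pos h']
  obtain ⟨t', ht'⟩ := h'.choose_spec
  rcases M.det ht' h with ⟨h1, -⟩ | h1
  · rw [h1]
  · exact h1.P_eq

theorem qv_eq {s t : M.S} {k : Kind} (h : M.Edge s k t) : M.qv t = k.Q := by
  have h' : ∃ k s, M.Edge s k t := ⟨k, s, h⟩
  rw [qv, dif_pos h']
  obtain ⟨t', ht'⟩ := h'.choose_spec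
  rcases M.rev ht' h with ⟨h1, -⟩ | h1
  · rw [h1]
  · exact h1.Q_eq

theorem pv_one {s : M.S} (h : ∀ k t, ¬ M.Edge s k t) : M.pv s = 1 := by
  rw [pv, dif_neg]
  rintro ⟨k, t, h'⟩
  exact h k t h'

theorem qv_one {t : M.S} (h : ∀ k s, ¬ M.Edge s k t) : M.qv t = 1 := by
  rw [qv, dif_neg]
  rintro ⟨k, s, h'⟩
  exact h k s h'

theorem pv_pos (s : M.S) : 0 < M.pv s := by
  unfold pv
  split_ifs with h
  · exact Kind.P_pos _
  · norm_num

theorem qv_pos (s : M.S) : 0 < M.qv s := by
  unfold qv
  split_ifs with h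
  · exact Kind.Q_pos _
  · norm_num

open Classical in
/-- The residue machine of a reversible counter machine: every state `s` becomes two vertices
`(s, false)` (entrance) and `(s, true)` (exit). -/
noncomputable def toRM : RM where
  A := M.S × Bool
  fin := by
    have := M.fin
    infer_instance
  p := fun a => if a.2 then M.pv a.1 else 1
  q := fun a => if a.2 then 1 else M.qv a.1
  hp := by
    rintro ⟨s, (_ | _)⟩
    · simp
    · simpa using M.pv_pos s
  hq := by
    rintro ⟨s, (_ | _)⟩
    · simpa using M.qv_pos s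
    · simp
  h1 := by
    rintro ⟨s, (_ | _)⟩
    · simp
    · simp
  del := fun a μ => if a.2 then
      (if h : ∃ x : Kind × M.S, M.Edge a.1 x.1 x.2 ∧ x.1.cond μ then some ((h.choose.2, false), μ)
        else none)
    else (if μ = 0 then some ((a.1, true), 0) else none)
  lt := by
    rintro ⟨s, (_ | _)⟩ μ ⟨t, (_ | _)⟩ ν h
    · simp only [Bool.false_eq_true, if_false] at h
      split_ifs at h with h1
      simp at h
    · simp only [Bool.false_eq_true, if_false] at h
      split_ifs at h with h1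
      simp only [Option.some.injEq, Prod.mk.injEq] at h
      obtain ⟨-, rfl⟩ := h
      subst h1
      simp
    · simp only [if_true] at h
      split_ifs at h with h1
      simp only [Option.some.injEq, Prod.mk.injEq, and_true] at h
      obtain ⟨rfl, rfl⟩ := h
      have h2 := h1.choose_spec
      simp only [if_true, Bool.false_eq_true, if_false]
      rw [M.pv_eq h2.1, M.qv_eq h2.1]
      exact Kind.cond_lt h2.2
    · simp only [if_true] at h
      split_ifs at h with h1
      simp at h
  inj := by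
    rintro ⟨s, (_ | _)⟩ μ ⟨s', (_ | _)⟩ μ' ⟨⟨t, b⟩, ν⟩ h h'
    · simp only [Bool.false_eq_true, if_false] at h h'
      split_ifs at h h' with h1 h2
      simp only [Option.some.injEq, Prod.mk.injEq] at h h'
      obtain ⟨⟨rfl, -⟩, -⟩ := h
      obtain ⟨⟨rfl, -⟩, -⟩ := h'
      exact ⟨rfl, h1.trans h2.symm⟩
    · simp only [Bool.false_eq_true, if_false, if_true] at h h'
      split_ifs at h h' with h1 h2
      simp only [Option.some.injEq, Prod.mk.injEq] at h h'
      obtain ⟨⟨-, rfl⟩, -⟩ := h
      obtain ⟨⟨-, h3⟩, -⟩ := h'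
      simp at h3
    · simp only [Bool.false_eq_true, if_false, if_true] at h h'
      split_ifs at h h' with h1 h2
      simp only [Option.some.injEq, Prod.mk.injEq] at h h'
      obtain ⟨⟨-, rfl⟩, -⟩ := h
      obtain ⟨⟨-, h3⟩, -⟩ := h'
      simp at h3
    · simp only [if_true] at h h'
      split_ifs at h h' with h1 h2
      simp only [Option.some.injEq, Prod.mk.injEq] at h h'
      obtain ⟨⟨h3, -⟩, rfl⟩ := h
      obtain ⟨⟨h4, -⟩, rfl⟩ := h'
      have e1 := h1.choose_spec
      have e2 := h2.choose_spec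
      rw [h3] at e1
      rw [h4] at e2
      rcases M.rev e1.1 e2.1 with ⟨-, h5⟩ | h5
      · exact ⟨by rw [h5], rfl⟩
      · exact (h5.not_cond e1.2 e2.2).elim

theorem toRM_in (s : M.S) (n : ℤ) : M.toRM.step ((s, false), n) = some ((s, true), n) :=
  (M.toRM.step_eq_some).2 ⟨n, 0, 0, by simp [toRM], by simp [toRM], by simp [toRM]⟩

theorem toRM_out {s t : M.S} {k : Kind} (hk : M.Edge s k t) {r r' : ℕ → ℕ} (h : k.Rel r r') :
    M.toRM.step ((s, true), (enc M.K r : ℤ)) = some ((t, false), (enc M.K r' : ℤ)) := by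
  obtain ⟨x, μ, h1, h2, h3⟩ := Kind.Rel.enc (M.bd hk) h
  refine (M.toRM.step_eq_some).2 ⟨(x : ℤ), μ, μ, ?_, ?_, ?_⟩
  · have hc : ∃ x : Kind × M.S, M.Edge s x.1 x.2 ∧ x.1.cond μ := ⟨(k, t), hk, h1⟩
    have hs := hc.choose_spec
    simp only [toRM, if_true, dif_pos hc, Option.some.injEq, Prod.mk.injEq, and_true]
    rcases M.det hs.1 hk with ⟨-, h5⟩ | h5
    · exact h5
    · exact (h5.not_cond hs.2 h1).elim
  · have : M.toRM.p (s, true) = M.pv s := by simp [toRM]
    rw [this, M.pv_eq hk, h2]
    push_cast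
    rfl
  · have : M.toRM.q (t, false) = M.qv t := by simp [toRM]
    rw [this, M.qv_eq hk, h3]
    push_cast
    rfl

theorem toRM_none {s : M.S} (h : ∀ k t, ¬ M.Edge s k t) (n : ℤ) :
    M.toRM.step ((s, true), n) = none := by
  apply RM.step_none
  intro μ
  have hc : ¬ ∃ x : Kind × M.S, M.Edge s x.1 x.2 ∧ x.1.cond μ := by
    rintro ⟨x, hx, -⟩
    exact h _ _ hx
  simp only [toRM, if_true, dif_neg hc]

theorem toRM_start {t : M.S} (h : ∀ k s, ¬ M.Edge s k t) (a : M.toRM.A) (μ ν : ℕ) :
    M.toRM.del a μ ≠ some ((t, false), ν) := by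
  obtain ⟨s, (_ | _)⟩ := a
  · simp only [toRM, Bool.false_eq_true, if_false]
    split_ifs with h1 <;> simp
  · simp only [toRM, if_true]
    split_ifs with h1
    · intro h2
      simp only [Option.some.injEq, Prod.mk.injEq, and_true] at h2
      have e := h1.choose_spec
      rw [h2.1] at e
      exact h _ _ e.1
    · simp

theorem toRM_p_in (s : M.S) : M.toRM.p (s, false) = 1 := by simp [toRM]

theorem toRM_q_out (s : M.S) : M.toRM.q (s, true) = 1 := by simp [toRM]

theorem toRM_p_out {s t : M.S} {k : Kind} (hk : M.Edge s k t) : M.toRM.p (s, true) = k.P := by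
  have : M.toRM.p (s, true) = M.pv s := by simp [toRM]
  rw [this, M.pv_eq hk]

theorem toRM_p_out_one {s : M.S} (h : ∀ k t, ¬ M.Edge s k t) : M.toRM.p (s, true) = 1 := by
  have : M.toRM.p (s, true) = M.pv s := by simp [toRM]
  rw [this, M.pv_one h]

theorem toRM_q_in_one {t : M.S} (h : ∀ k s, ¬ M.Edge s k t) : M.toRM.q (t, false) = 1 := by
  have : M.toRM.q (t, false) = M.qv t := by simp [toRM]
  rw [this, M.qv_one h]

/-- One step of the counter machine is two steps of the residue machine. -/
theorem toRM_step {c c' : M.S × (ℕ → ℕ)} (h : M.Step c c') :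
    Reaches₁ M.toRM.step ((c.1, true), (enc M.K c.2 : ℤ)) ((c'.1, true), (enc M.K c'.2 : ℤ)) := by
  obtain ⟨k, hk, hr⟩ := h
  have h1 : Reaches₁ M.toRM.step ((c.1, true), (enc M.K c.2 : ℤ))
      ((c'.1, false), (enc M.K c'.2 : ℤ)) := Relation.TransGen.single (M.toRM_out hk hr)
  have h2 : Reaches₁ M.toRM.step ((c'.1, false), (enc M.K c'.2 : ℤ))
      ((c'.1, true), (enc M.K c'.2 : ℤ)) := Relation.TransGen.single (M.toRM_in _ _)
  exact h1.trans h2

theorem toRM_reaches₁ {c c' : M.S × (ℕ → ℕ)} (h : Relation.TransGen M.Step c c') :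
    Reaches₁ M.toRM.step ((c.1, true), (enc M.K c.2 : ℤ)) ((c'.1, true), (enc M.K c'.2 : ℤ)) := by
  induction h with
  | single h => exact M.toRM_step h
  | tail _ h ih => exact ih.trans (M.toRM_step h)

end RCM

end FBC
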