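import Pool.Agent.Lib.MP_c6644d_al.RProg

/-!
# Clean computation by reversible programs

`Clean n f`: for all placements of the inputs `i`, the output register `o` and a bound `b`, there
is a program which adds `f (inputs)` to `o` whenever all registers `≥ b` are zero, and leaves all
other registers unchanged.
-/

namespace Pool.Agent.Lib.MP_c6644d_al

namespace RProg

/-- Registers from `b` on are zero. -/
def Z (b : ℕ) (s : ℕ → ℕ) : Prop := ∀ j, b ≤ j → s j = 0

theorem Z.mono {b b' : ℕ} {s : ℕ → ℕ} (h : Z b s) (hb : b ≤ b') : Z b' s :=
  fun j hj => h j (hb.trans hj)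

theorem Z.update {b : ℕ} {s : ℕ → ℕ} {o v : ℕ} (h : Z b s) (ho : o < b) :
    Z b (Function.update s o v) := by
  intro j hj
  rw [Function.update_of_ne (by omega)]
  exact h j hj

/-- The program adds `e` to the register `o`. -/
def Adds (P : RProg) (b o : ℕ) (e : (ℕ → ℕ) → ℕ) : Prop :=
  ∀ s, Z b s → Ev P s (Function.update s o (s o + e s))

/-- Functions computed cleanly by reversible programs. -/
def Clean (n : ℕ) (f : (Fin n → ℕ) → ℕ) : Prop :=
  ∀ (i : Fin n → ℕ) (o b : ℕ), (∀ k, i k < b) → (∀ k, i k ≠ o) → o < b →
    ∃ P, Adds P b o (fun s => f (fun k => s (i k)))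

theorem loop_intro {i j : ℕ} {D P : RProg} {s : ℕ → ℕ} (N : ℕ) (u c : ℕ → (ℕ → ℕ))
    (h0 : s i = 0) (hD : Ev D s (u 0))
    (hst : ∀ k < N, u k j ≠ 0 ∧ Ev P (u k) (c k) ∧ c k i ≠ 0 ∧ Ev D (c k) (u (k + 1)))
    (hN : u N j = 0) : Ev (loop i D P j) s (u N) := by
  refine ⟨h0, hN, u 0, hD, ?_⟩
  have key : ∀ k ≤ N, Relation.ReflTransGen
      (fun a b => a j ≠ 0 ∧ ∃ c, Ev P a c ∧ c i ≠ 0 ∧ Ev D c b) (u 0) (u k) := by
    intro k
    induction k with
    | zero => intro _; exact Relation.ReflTransGen.refl
    | succ k ih =>
      intro hk
      obtain ⟨h1, h2, h3, h4⟩ := hst k (by omega)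
      exact (ih (by omega)).tail ⟨h1, c k, h2, h3, h4⟩
  exact key N le_rfl

/-- Move the content of `x` to the empty register `y`. -/
def move (x y : ℕ) : RProg := loop y skip (seq (dec x) (inc y)) x

theorem ev_move {x y : ℕ} {s : ℕ → ℕ} (hxy : x ≠ y) (hy : s y = 0) :
    Ev (move x y) s (Function.update (Function.update s x 0) y (s x)) := by
  have h := loop_intro (i := y) (j := x) (D := skip) (P := seq (dec x) (inc y)) (s := s) (s x)
    (fun k r => if r = y then k else if r = x then s x - k else s r)
    (fun k r => if r = y then k + 1 else if r = x then s x - (k + 1) else s r) hy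
    (by
      show _ = s
      funext r
      by_cases h1 : r = y
      · subst h1; simp [hy]
      · by_cases h2 : r = x
        · subst h2; simp [h1]
        · simp [h1, h2])
    (by
      intro k hk
      refine ⟨by simp [hxy]; omega, ?_, by simp, rfl⟩
      refine ⟨fun r => if r = y then k else if r = x then s x - (k + 1) else s r, ⟨by simp [hxy]; omega, ?_⟩, ?_⟩
      · funext r
        by_cases h2 : r = x
        · subst h2; simp [hxy]; omega
        · simp [h2]
      · show _ = Function.update _ _ _
        funext r
        by_cases h1 : r = y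
        · subst h1; simp
        · simp [h1])
    (by simp [hxy])
  have e : Function.update (Function.update s x 0) y (s x) =
      fun r => if r = y then s x else if r = x then s x - s x else s r := by
    funext r
    by_cases h1 : r = y
    · subst h1; simp
    · by_cases h2 : r = x
      · subst h2; simp [h1]
      · simp [h1, h2]
  rw [e]
  exact h

/-- `for` loop: execute `B` with `h = 0, 1, …, r_x - 1` (and `r_x` decreased), restore `x`. -/
def forLoop (x h : ℕ) (B : RProg) : RProg :=
  seq (loop h skip (seq (dec x) (seq B (inc h))) x) (move h x)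

theorem ev_forLoop {x h : ℕ} {B : RProg} {s : ℕ → ℕ} (hxh : x ≠ h) (hh : s h = 0)
    (w : ℕ → (ℕ → ℕ)) (hw0 : w 0 = s) (hwx : ∀ k, w k x = s x) (hwh : ∀ k, w k h = 0)
    (hB : ∀ k < s x, Ev B (Function.update (Function.update (w k) x (s x - (k + 1))) h k)
      (Function.update (Function.update (w (k + 1)) x (s x - (k + 1))) h k)) :
    Ev (forLoop x h B) s (w (s x)) := by
  have hl := loop_intro (i := h) (j := x) (D := skip) (P := seq (dec x) (seq B (inc h)))
    (s := s) (s x)
    (fun k => Function.update (Function.update (w k) x (s x - k)) h k)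
    (fun k => Function.update (Function.update (w (k + 1)) x (s x - (k + 1))) h (k + 1)) hh
    (by
      show _ = s
      funext r
      by_cases h1 : r = h
      · subst h1; simp [hh]
      · by_cases h2 : r = x
        · subst h2; simp [h1]
        · simp [h1, hw0])
    (by
      intro k hk
      refine ⟨?_, ?_, by simp, rfl⟩
      · show Function.update (Function.update (w k) x (s x - k)) h k x ≠ 0
        rw [Function.update_of_ne hxh, Function.update_self]
        omega
      · refine ⟨Function.update (Function.update (w k) x (s x - (k + 1))) h k, ⟨?_, ?_⟩,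
          Function.update (Function.update (w (k + 1)) x (s x - (k + 1))) h k, hB k hk, ?_⟩
        · show Function.update (Function.update (w k) x (s x - k)) h k x ≠ 0
          rw [Function.update_of_ne hxh, Function.update_self]
          omega
        · funext r
          by_cases h2 : r = x
          · subst h2
            simp only [Function.update_self, Function.update_of_ne hxh]
            omega
          · by_cases h1 : r = h
            · subst h1; simp [h2]
            · simp [h1, h2]
        · show _ = Function.update _ _ _
          funext r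
          by_cases h1 : r = h
          · subst h1; simp
          · simp [h1])
    (by
      show Function.update (Function.update (w (s x)) x (s x - s x)) h (s x) x = 0
      rw [Function.update_of_ne hxh, Function.update_self]
      omega)
  refine ⟨_, hl, ?_⟩
  have hm := ev_move (x := h) (y := x)
    (s := Function.update (Function.update (w (s x)) x (s x - s x)) h (s x)) hxh.symm (by
      rw [Function.update_of_ne hxh, Function.update_self]
      omega)
  convert hm using 1
  funext r
  by_cases h1 : r = x
  · subst h1; simp [hwx]
  · by_cases h2 : r = h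
    · subst h2; simp [h1, hwh]
    · simp [h1, h2]

/-- Compute, use, uncompute. -/
theorem adds_conj {A F : RProg} {b b' o : ℕ} {e' : (ℕ → ℕ) → ℕ} {τ : (ℕ → ℕ) → (ℕ → ℕ)}
    (ho : o < b) (hA : ∀ s, Z b s → Ev A s (τ s)) (hZ : ∀ s, Z b s → Z b' (τ s))
    (hτ : ∀ s v, Z b s → τ (Function.update s o v) = Function.update (τ s) o v)
    (hF : Adds F b' o e') : Adds (seq A (seq F (inv A))) b o (fun s => e' (τ s)) := by
  intro s hs
  have h1 : τ s o = s o := by
    have := hτ s (s o) hs
    rw [Function.update_eq_self] at this
    rw [this]; simp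
  refine ⟨τ s, hA s hs, _, hF _ (hZ s hs), ?_⟩
  rw [ev_inv_iff]
  have h2 := hA (Function.update s o (s o + e' (τ s))) (hs.update ho)
  rw [hτ s _ hs] at h2
  rwa [h1]

theorem clean_zero (n : ℕ) : Clean n (fun _ => 0) := by
  intro i o b _ _ _
  exact ⟨skip, fun s _ => by simp [Ev]⟩

theorem clean_one (n : ℕ) : Clean n (fun _ => 1) := by
  intro i o b _ _ _
  exact ⟨inc o, fun s _ => by simp [Ev]⟩

theorem Clean.add {n : ℕ} {f g : (Fin n → ℕ) → ℕ} (hf : Clean n f) (hg : Clean n g) :
    Clean n (fun x => f x + g x) := by
  intro i o b hi ho hb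
  obtain ⟨P, hP⟩ := hf i o b hi ho hb
  obtain ⟨Q, hQ⟩ := hg i o b hi ho hb
  refine ⟨seq P Q, fun s hs => ⟨_, hP s hs, ?_⟩⟩
  have := hQ _ (hs.update (v := s o + f (fun k => s (i k))) hb)
  simp only [Function.update_self] at this
  convert this using 1
  have e : (fun k => Function.update s o (s o + f fun k => s (i k)) (i k)) = fun k => s (i k) := by
    funext k
    rw [Function.update_of_ne (ho k)]
  rw [e]
  simp only [Function.update_idem]
  congr 1
  ring

theorem clean_proj (n : ℕ) (k : Fin n) : Clean n (fun x => x k) := by
  intro i o b hi ho hb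
  refine ⟨forLoop (i k) b (inc o), fun s hs => ?_⟩
  have hkb : i k ≠ b := (hi k).ne
  have hob : o ≠ b := hb.ne
  have h := ev_forLoop (x := i k) (h := b) (B := inc o) (s := s) hkb (hs b le_rfl)
    (fun l => Function.update s o (s o + l)) (by simp)
    (fun l => Function.update_of_ne (ho k) _ _)
    (fun l => by rw [Function.update_of_ne hob.symm]; exact hs b le_rfl)
    (by
      intro l _
      show _ = Function.update _ _ _
      funext r
      by_cases h0 : r = o
      · subst h0
        simp [hob, (ho k).symm]
        ring
      · by_cases h1 : r = b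
        · subst h1; simp [h0]
        · by_cases h2 : r = i k
          · subst h2; simp [h0, h1]
          · simp [h0, h1, h2])
  exact h

theorem adds_for {n : ℕ} {g : (Fin (n + 1) → ℕ) → ℕ} {i' : Fin n → ℕ} {x h o : ℕ} {G : RProg}
    (hox : o < x) (hxh : x < h) (hi : ∀ l, i' l < x) (ho : ∀ l, i' l ≠ o)
    (hG : Adds G (h + 1) o (fun s => g (Fin.cons (s h) (fun l => s (i' l))))) :
    Adds (forLoop x h G) h o
      (fun s => ∑ k ∈ Finset.range (s x), g (Fin.cons k (fun l => s (i' l)))) := by
  intro s hs
  have hxo : x ≠ o := hox.ne'
  have hho : h ≠ o := (hox.trans hxh).ne'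
  have hxh' : x ≠ h := hxh.ne
  refine ev_forLoop (x := x) (h := h) (B := G) (s := s) hxh.ne (hs h le_rfl)
    (fun k => Function.update s o
      (s o + ∑ l ∈ Finset.range k, g (Fin.cons l (fun l => s (i' l))))) (by simp)
    (fun k => Function.update_of_ne hxo _ _)
    (fun k => by rw [Function.update_of_ne hho]; exact hs h le_rfl) ?_
  intro k hk
  have hZ : Z (h + 1) (Function.update (Function.update (Function.update s o
      (s o + ∑ l ∈ Finset.range k, g (Fin.cons l (fun l => s (i' l))))) x (s x - (k + 1))) h k) :=
    (((hs.mono (Nat.le_succ h)).update (by omega)).update (by omega)).update (by omega)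
  have := hG _ hZ
  convert this using 1
  funext r
  by_cases h0 : r = o
  · subst h0
    have e : (fun l => Function.update (Function.update (Function.update s r
        (s r + ∑ l ∈ Finset.range k, g (Fin.cons l (fun l => s (i' l))))) x (s x - (k + 1))) h k
        (i' l)) = fun l => s (i' l) := by
      funext l
      rw [Function.update_of_ne (by have := hi l; omega), Function.update_of_ne (hi l).ne,
        Function.update_of_ne (ho l)]
    simp only [Function.update_self, e, Function.update_of_ne hho.symm,
      Function.update_of_ne hxo.symm, Finset.sum_range_succ]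
    ring
  · by_cases h1 : r = h
    · subst h1; simp [h0]
    · by_cases h2 : r = x
      · subst h2; simp [h0, h1]
      · simp [h0, h1, h2]

/-- Bounded sums. -/
theorem Clean.sum {n : ℕ} {g : (Fin (n + 1) → ℕ) → ℕ} (hg : Clean (n + 1) g) :
    Clean (n + 1) (fun x => ∑ k ∈ Finset.range (x 0), g (Fin.cons k (fun l => x l.succ))) := by
  intro i o b hi ho hb
  obtain ⟨G, hG⟩ := hg (Fin.cons (b + 1) (fun l => i l.succ)) o (b + 2)
    (by
      intro k
      refine Fin.cases ?_ (fun l => ?_) k
      · simp
      · simp only [Fin.cons_succ]; have := hi l.succ; omega)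
    (by
      intro k
      refine Fin.cases ?_ (fun l => ?_) k
      · simp; omega
      · simpa using ho l.succ)
    (by omega)
  obtain ⟨A, hA⟩ := clean_proj 1 0 (fun _ => i 0) b (b + 1) (fun _ => by have := hi 0; omega)
    (fun _ => (hi 0).ne) (by omega)
  have hG' : Adds G (b + 1 + 1) o (fun s => g (Fin.cons (s (b + 1)) (fun l => s (i l.succ)))) := by
    intro s hs
    have := hG s hs
    have e : (fun k => s ((Fin.cons (b + 1) (fun l => i l.succ) : Fin (n + 1) → ℕ) k)) =
        Fin.cons (s (b + 1)) (fun l => s (i l.succ)) := by
      funext k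
      refine Fin.cases ?_ (fun l => ?_) k <;> simp
    simp only [e] at this
    exact this
  have hF := adds_for (i' := fun l => i l.succ) (x := b) (h := b + 1) (o := o) hb (by omega)
    (fun l => hi l.succ) (fun l => ho l.succ) hG'
  have := adds_conj (A := A) (b := b) (b' := b + 1) (o := o)
    (τ := fun s => Function.update s b (s (i 0))) hb
    (fun s hs => by
      have := hA s (hs.mono (by omega))
      rw [hs b le_rfl, zero_add] at this
      exact this)
    (fun s hs => (hs.mono (by omega)).update (by omega))
    (fun s v hs => by
      rw [Function.update_of_ne (ho 0)]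
      exact Function.update_comm hb.ne _ _ _)
    hF
  refine ⟨seq A (seq (forLoop b (b + 1) G) (inv A)), fun s hs => ?_⟩
  have h2 := this s hs
  have e1 : ∀ l : Fin n, Function.update s b (s (i 0)) (i l.succ) = s (i l.succ) := fun l => by
    rw [Function.update_of_ne (hi l.succ).ne]
  simp only [e1, Function.update_self] at h2
  exact h2

end RProg

end Pool.Agent.Lib.MP_c6644d_al
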