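import Pool.Agent.Lib.MP_c6644d_al.RArith

/-!
# Primitive recursion is computed cleanly by reversible programs
-/

namespace Pool.Agent.Lib.MP_c6644d_al

namespace RProg

/-- Values of the primitive recursion. -/
def recH {n : ℕ} (f : (Fin n → ℕ) → ℕ) (g : (Fin (n + 2) → ℕ) → ℕ) (x : Fin n → ℕ) : ℕ → ℕ
  | 0 => f x
  | k + 1 => g (Fin.cons k (Fin.cons (recH f g x k) x))

/-- The stack of intermediate values. -/
def recS {n : ℕ} (f : (Fin n → ℕ) → ℕ) (g : (Fin (n + 2) → ℕ) → ℕ) (x : Fin n → ℕ) : ℕ → ℕ
  | 0 => 0
  | k + 1 => J (recS f g x k) (recH f g x k)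

/-- State with five temporaries at `b, …, b + 4`. -/
def st5 (b : ℕ) (s : ℕ → ℕ) (a S k t u : ℕ) : ℕ → ℕ := fun r =>
  if r = b then a else if r = b + 1 then S else if r = b + 2 then k
  else if r = b + 3 then t else if r = b + 4 then u else s r

theorem st5_zero {b : ℕ} {s : ℕ → ℕ} (hs : Z b s) : st5 b s 0 0 0 0 0 = s := by
  funext r
  have h0 := hs b le_rfl
  have h1 := hs (b + 1) (by omega)
  have h2 := hs (b + 2) (by omega)
  have h3 := hs (b + 3) (by omega)
  have h4 := hs (b + 4) (by omega)
  simp only [st5]
  split_ifs <;> first | rfl | (subst_vars; symm; assumption)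

theorem update_st5 {b : ℕ} {s : ℕ → ℕ} (hs : Z b s) (a : ℕ) :
    Function.update s b a = st5 b s a 0 0 0 0 := by
  funext r
  have h1 := hs (b + 1) (by omega)
  have h2 := hs (b + 2) (by omega)
  have h3 := hs (b + 3) (by omega)
  have h4 := hs (b + 4) (by omega)
  simp only [st5, Function.update_apply]
  split_ifs <;> first | rfl | omega | (subst_vars; assumption)

theorem st5_update {b : ℕ} {s : ℕ → ℕ} {o : ℕ} (ho : o < b) (v a S k t u : ℕ) :
    st5 b (Function.update s o v) a S k t u = Function.update (st5 b s a S k t u) o v := by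
  funext r
  simp only [st5, Function.update_apply]
  split_ifs <;> first | rfl | omega

theorem Z_st5 {b : ℕ} {s : ℕ → ℕ} (hs : Z b s) (a S k t u : ℕ) :
    Z (b + 5) (st5 b s a S k t u) := by
  intro j hj
  have h1 : j ≠ b := by omega
  have h2 : j ≠ b + 1 := by omega
  have h3 : j ≠ b + 2 := by omega
  have h4 : j ≠ b + 3 := by omega
  have h5 : j ≠ b + 4 := by omega
  simp only [st5, h1, h2, h3, h4, h5, if_false]
  exact hs j (by omega)

theorem st5_lt {b : ℕ} {s : ℕ → ℕ} {a S k t u r : ℕ} (hr : r < b) :
    st5 b s a S k t u r = s r := by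
  have h1 : r ≠ b := by omega
  have h2 : r ≠ b + 1 := by omega
  have h3 : r ≠ b + 2 := by omega
  have h4 : r ≠ b + 3 := by omega
  have h5 : r ≠ b + 4 := by omega
  simp only [st5, h1, h2, h3, h4, h5, if_false]

theorem Clean.prec {n : ℕ} {f : (Fin n → ℕ) → ℕ} {g : (Fin (n + 2) → ℕ) → ℕ} (hf : Clean n f)
    (hg : Clean (n + 2) g) : Clean (n + 1) (fun x => recH f g (fun k => x k.succ) (x 0)) := by
  intro i o b hi ho hb
  have hi0 := hi 0
  have ho0 := ho 0
  let ix : Fin n → ℕ := fun k => i k.succ
  obtain ⟨PA, hPA⟩ := hf ix b (b + 5) (fun k => by have := hi k.succ; simp only [ix]; omega)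
    (fun k => (hi k.succ).ne) (by omega)
  obtain ⟨PD, hPD⟩ := clean_sub ![i 0, b + 2] (b + 3) (b + 5)
    (fun k => by fin_cases k <;> simp; omega) (fun k => by fin_cases k <;> simp; omega) (by omega)
  obtain ⟨PG, hPG⟩ := hg (Fin.cons (b + 2) (Fin.cons b ix)) (b + 4) (b + 5)
    (fun k => by
      refine Fin.cases (by simp) (fun l => ?_) k
      refine Fin.cases (by simp) (fun l' => ?_) l
      have := hi l'.succ; simp only [Fin.cons_succ, ix]; omega)
    (fun k => by
      refine Fin.cases (by simp) (fun l => ?_) k
      refine Fin.cases (by simp) (fun l' => ?_) l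
      have := hi l'.succ; simp only [Fin.cons_succ, ix]; omega) (by omega)
  obtain ⟨PJ, hPJ⟩ := clean_J ![b + 1, b] (b + 3) (b + 5)
    (fun k => by fin_cases k <;> simp) (fun k => by fin_cases k <;> simp) (by omega)
  obtain ⟨PL, hPL⟩ := clean_JL (fun _ => b + 3) (b + 1) (b + 5)
    (fun k => by omega) (fun k => by omega) (by omega)
  obtain ⟨PR, hPR⟩ := clean_JR (fun _ => b + 3) b (b + 5)
    (fun k => by omega) (fun k => by omega) (by omega)
  obtain ⟨C, hC⟩ := clean_proj 1 0 (fun _ => b) o (b + 5) (fun k => by omega)
    (fun k => by omega) (by omega)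
  -- effects of the programs on the states `st5`
  have eD : ∀ s a S k u, Z b s → Ev PD (st5 b s a S k 0 u) (st5 b s a S k (s (i 0) - k) u) := by
    intro s a S k u hs
    have := hPD _ (Z_st5 hs a S k 0 u)
    convert this using 1
    have e1 := st5_lt (b := b) (s := s) (a := a) (S := S) (k := k) (t := 0) (u := u) hi0
    funext r
    simp only [Matrix.cons_val_zero, Matrix.cons_val_one, e1]
    simp only [st5, Function.update_apply]
    split_ifs <;> first | rfl | omega
  have eG : ∀ s a S k, Z b s → Ev PG (st5 b s a S k 0 0)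
      (st5 b s a S k 0 (g (Fin.cons k (Fin.cons a (fun l => s (ix l)))))) := by
    intro s a S k hs
    have := hPG _ (Z_st5 hs a S k 0 0)
    have e1 : (fun j => st5 b s a S k 0 0
        ((Fin.cons (b + 2) (Fin.cons b ix) : Fin (n + 2) → ℕ) j)) =
        Fin.cons k (Fin.cons a (fun l => s (ix l))) := by
      funext j
      refine Fin.cases (by simp [st5]) (fun l => ?_) j
      refine Fin.cases (by simp [st5]) (fun l' => ?_) l
      simp only [Fin.cons_succ]
      exact st5_lt (hi l'.succ)
    simp only [e1] at this
    convert this using 1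
    funext r
    simp only [st5, Function.update_apply]
    split_ifs <;> first | rfl | omega
  have eJ : ∀ s a S k u, Z b s → Ev PJ (st5 b s a S k 0 u) (st5 b s a S k (J S a) u) := by
    intro s a S k u hs
    have := hPJ _ (Z_st5 hs a S k 0 u)
    convert this using 1
    funext r
    simp only [Matrix.cons_val_zero, Matrix.cons_val_one]
    simp [st5, Function.update_apply]
    split_ifs <;> first | rfl | omega
  have eL : ∀ s a S k u, Z b s → Ev PL (st5 b s a 0 k (J S a) u) (st5 b s a S k (J S a) u) := by
    intro s a S k u hs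
    have := hPL _ (Z_st5 hs a 0 k (J S a) u)
    have e1 : st5 b s a 0 k (J S a) u (b + 3) = J S a := by simp [st5]
    simp only [e1, JL_J] at this
    convert this using 1
    funext r
    simp [st5, Function.update_apply]
    split_ifs <;> first | rfl | omega
  have eR : ∀ s a S k u, Z b s → Ev PR (st5 b s 0 0 k (J S a) u) (st5 b s a 0 k (J S a) u) := by
    intro s a S k u hs
    have := hPR _ (Z_st5 hs 0 0 k (J S a) u)
    have e1 : st5 b s 0 0 k (J S a) u (b + 3) = J S a := by simp [st5]
    simp only [e1, JR_J] at this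
    convert this using 1
    funext r
    simp [st5, Function.update_apply]
    split_ifs <;> first | rfl | omega
  have eM1 : ∀ s k t u, Ev (move (b + 3) (b + 1)) (st5 b s 0 0 k t u) (st5 b s 0 t k 0 u) := by
    intro s k t u
    have := ev_move (x := b + 3) (y := b + 1) (s := st5 b s 0 0 k t u) (by omega) (by simp [st5])
    convert this using 1
    funext r
    simp only [st5, Function.update_apply]
    split_ifs <;> first | rfl | omega
  have eM2 : ∀ s S k u, Ev (move (b + 4) b) (st5 b s 0 S k 0 u) (st5 b s u S k 0 0) := by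
    intro s S k u
    have := ev_move (x := b + 4) (y := b) (s := st5 b s 0 S k 0 u) (by omega) (by simp [st5])
    convert this using 1
    funext r
    simp only [st5, Function.update_apply]
    split_ifs <;> first | rfl | omega
  have eI : ∀ s a S k, Ev (inc (b + 2)) (st5 b s a S k 0 0) (st5 b s a S (k + 1) 0 0) := by
    intro s a S k
    show _ = Function.update _ _ _
    funext r
    simp only [st5, Function.update_apply]
    split_ifs <;> first | rfl | omega
  let body : RProg := seq (inv PD) (seq PG (seq PJ (seq (inv PL) (seq (inv PR)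
    (seq (move (b + 3) (b + 1)) (seq (move (b + 4) b) (inc (b + 2))))))))
  let A : RProg := seq PA (loop (b + 2) PD body (b + 3))
  let H : (ℕ → ℕ) → ℕ → ℕ := fun s => recH f g (fun l => s (ix l))
  let S : (ℕ → ℕ) → ℕ → ℕ := fun s => recS f g (fun l => s (ix l))
  let τ : (ℕ → ℕ) → (ℕ → ℕ) := fun s => st5 b s (H s (s (i 0))) (S s (s (i 0))) (s (i 0)) 0 0
  have hA : ∀ s, Z b s → Ev A s (τ s) := by
    intro s hs
    refine ⟨st5 b s (H s 0) 0 0 0 0, ?_, ?_⟩
    · have := hPA s (hs.mono (by omega))
      rw [hs b le_rfl, zero_add, update_st5 hs] at this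
      exact this
    · have := loop_intro (i := b + 2) (j := b + 3) (D := PD) (P := body)
        (s := st5 b s (H s 0) 0 0 0 0) (s (i 0))
        (fun k => st5 b s (H s k) (S s k) k (s (i 0) - k) 0)
        (fun k => st5 b s (H s (k + 1)) (S s (k + 1)) (k + 1) 0 0)
        (by simp [st5]) (eD s (H s 0) 0 0 0 hs)
        (by
          intro k hk
          refine ⟨?_, ?_, by simp [st5], eD s _ _ _ _ hs⟩
          · simp [st5]; omega
          · exact ⟨_, (eD s (H s k) (S s k) k 0 hs).inv, _, eG s _ _ _ hs, _, eJ s _ _ _ _ hs,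
              _, (eL s _ _ _ _ hs).inv, _, (eR s _ _ _ _ hs).inv, _, eM1 s _ _ _,
              _, eM2 s _ _ _, eI s _ _ _⟩)
        (by simp [st5])
      simp only [Nat.sub_self] at this
      exact this
  have hconj := adds_conj (A := A) (F := C) (b := b) (b' := b + 5) (o := o) (τ := τ) hb hA
    (fun s hs => Z_st5 hs _ _ _ _ _)
    (fun s v hs => by
      have e1 : (fun l => Function.update s o v (ix l)) = fun l => s (ix l) := by
        funext l
        exact Function.update_of_ne (ho l.succ) _ _
      show st5 b (Function.update s o v)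
        (recH f g (fun l => Function.update s o v (ix l)) (Function.update s o v (i 0)))
        (recS f g (fun l => Function.update s o v (ix l)) (Function.update s o v (i 0)))
        (Function.update s o v (i 0)) 0 0 = _
      rw [e1, Function.update_of_ne ho0]
      exact st5_update hb _ _ _ _ _ _)
    hC
  refine ⟨seq A (seq C (inv A)), fun s hs => ?_⟩
  have h2 := hconj s hs
  have e2 : τ s b = H s (s (i 0)) := by
    show st5 b s _ _ _ _ _ b = _
    simp only [st5, if_true]
  have h3 : Ev (seq A (seq C (inv A))) s (Function.update s o (s o + τ s b)) := h2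
  rw [e2] at h3
  exact h3

/-- Every primitive recursive function of vectors is computed cleanly. -/
theorem clean_of_primrec' {n : ℕ} {f : List.Vector ℕ n → ℕ} (hf : Nat.Primrec' f) :
    Clean n (fun x => f (List.Vector.ofFn x)) := by
  induction hf with
  | zero => exact clean_zero 0
  | succ => 
    have h : Clean 1 (fun x => x 0 + 1) := (clean_proj 1 0).add (clean_one 1)
    convert h using 2
    simp [List.Vector.head_ofFn]
  | get i =>
    have h := clean_proj _ i
    convert h using 2
    simp
  | comp g _ _ ihf ihg =>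
    have h := Clean.comp ihf ihg
    exact h
  | prec _ _ ihf ihg =>
    rename_i n f g _ _
    have h := Clean.prec ihf ihg
    convert h using 2
    rename_i x
    have e : ∀ k, recH (fun x => f (List.Vector.ofFn x)) (fun x => g (List.Vector.ofFn x))
        (fun l => x l.succ) k = Nat.rec (f (List.Vector.ofFn x).tail)
        (fun y IH => g (y ::ᵥ IH ::ᵥ (List.Vector.ofFn x).tail)) k := by
      intro k
      induction k with
      | zero => simp [recH]
      | succ k ih =>
        simp only [recH]
        rw [ih]
        congr 1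
    rw [e]
    simp

end RProg

end Pool.Agent.Lib.MP_c6644d_al
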