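import Mathlib

/-!
MP_c6644d_al: words, presentations and the literal form of the question (definitions).
-/

set_option autoImplicit false

namespace Pool.Agent.Lib.MP_c6644d_al

/-- words; the letter `(i, true)` is the `i`-th generator and `(i, false)` is its inverse -/
abbrev Wd : Type := List (ℕ × Bool)

/-- the value of a word if the `i`-th generator has the value `ℓ i` -/
def evL {Γ : Type} [Group Γ] (ℓ : ℕ → Γ) (w : Wd) : Γ :=
  (w.map fun a => if a.2 then ℓ a.1 else (ℓ a.1)⁻¹).prod

/-- the free-by-cyclic group `F_n ⋊_φ ℤ`; the generator of `ℤ` acts as `φ` -/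
abbrev FbZ {n : ℕ} (φ : MulAut (FreeGroup (Fin n))) : Type :=
  SemidirectProduct (FreeGroup (Fin n)) (Multiplicative ℤ)
    (zpowersHom (MulAut (FreeGroup (Fin n))) φ)

/-- the letter `0` is the generator `t` of `ℤ`, the letter `i + 1` is the generator `x_i` of `F_n`
for `i < n`; all other letters have the value `1` -/
def letter {n : ℕ} (φ : MulAut (FreeGroup (Fin n))) : ℕ → FbZ φ
  | 0 => SemidirectProduct.inr (Multiplicative.ofAdd 1)
  | i + 1 => if h : i < n then SemidirectProduct.inl (FreeGroup.of ⟨i, h⟩) else 1

/-- the value of a word in the free-by-cyclic group -/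
def value {n : ℕ} (φ : MulAut (FreeGroup (Fin n))) (w : Wd) : FbZ φ := evL (letter φ) w

/-- the letter `i + 1` is the generator `x_i` of `F_n`, all other letters have the value `1` -/
def xL (n : ℕ) : ℕ → FreeGroup (Fin n)
  | 0 => 1
  | i + 1 => if h : i < n then FreeGroup.of ⟨i, h⟩ else 1

/-- the list `Φ` of words in the letters `1, …, n` describes the automorphism `φ`: there are `n`
words and `Φ_i` is a word for `φ (x_i)` -/
def Describes {n : ℕ} (Φ : List Wd) (φ : MulAut (FreeGroup (Fin n))) : Prop :=
  (∀ w ∈ Φ, ∀ a ∈ w, 1 ≤ a.1 ∧ a.1 ≤ n) ∧ Φ.length = n ∧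
    ∀ i : Fin n, evL (xL n) (Φ.getD i []) = φ (FreeGroup.of i)

/-- the letter `i` is the `i`-th generator of the free group of rank `m` -/
def genL (m : ℕ) (i : ℕ) : FreeGroup (Fin m) := if h : i < m then FreeGroup.of ⟨i, h⟩ else 1

/-- the relators given by a list of words -/
def relators (m : ℕ) (R : List Wd) : Set (FreeGroup (Fin m)) :=
  {r | ∃ w ∈ R, r = evL (genL m) w}

/-- the list `T` of elements generates `H`, and the words `R` are defining relators for it -/
def IsPresentation {Γ : Type} [Group Γ] (T : List Γ) (R : List Wd) (H : Subgroup Γ) : Prop :=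
  Subgroup.closure {s | s ∈ T} = H ∧
    (FreeGroup.lift T.get).ker = Subgroup.normalClosure (relators T.length R)

/-- the subgroup generated by the values of the words -/
def sub {n : ℕ} (φ : MulAut (FreeGroup (Fin n))) (S : List Wd) : Subgroup (FbZ φ) :=
  Subgroup.closure {g | ∃ w ∈ S, value φ w = g}

/-- the words of `S` only use the letters `0, …, n`, i.e. `t` and `x_i` for `i < n` -/
def Valid (n : ℕ) (S : List Wd) : Prop := ∀ w ∈ S, ∀ a ∈ w, a.1 ≤ n

/-- the partial function `f` solves the problem: given `n ≥ 1`, words for an automorphism `φ` of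
`F_n` and a list `S` of words in `x_1, …, x_n, t` it gives generators (words) and defining relators
of the subgroup generated by `S`; nothing is asked on other inputs -/
def Solves (f : ℕ × List Wd × List Wd →. List Wd × List Wd) : Prop :=
  ∀ (n : ℕ), 1 ≤ n → ∀ (φ : MulAut (FreeGroup (Fin n))) (Φ S : List Wd), Describes Φ φ →
    Valid n S → ∃ o ∈ f (n, Φ, S), IsPresentation (o.1.map (value φ)) o.2 (sub φ S)

end Pool.Agent.Lib.MP_c6644d_al
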